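import Pool.Agent.H41.Semi.Circle4

/-! The theorem on a circle with one large class. -/

namespace Pool.Agent.H41.Semi

open Finset

variable {N : ℕ} {W : Type*}

/-- adjacency of arcs of the part `S`, also through the matched pairs -/
def Lnk (S : Finset (ZMod N)) (M : ZMod N → ZMod N → Prop) (a a' : ZMod N) : Prop :=
  a ∈ S ∧ a' ∈ S ∧ ∃ u u', (u = a ∨ u = a + 1) ∧ (u' = a' ∨ u' = a' + 1) ∧ (u = u' ∨ M u u')

/-- arcs traversed before `t` -/
def arcsD (f : ℕ → Dart N) (t : ℕ) : Finset (ZMod N) := (Finset.range t).image (fun m => (f m).1)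

lemma mem_arcsD {r : ZMod N → W} {f : ℕ → Dart N} (h : Tour r f) {t : ℕ} (ht : t < N) {m : ℕ}
    (hm : m < N) : (f m).1 ∈ arcsD f t ↔ m < t := by
  unfold arcsD
  rw [Finset.mem_image]
  constructor
  · rintro ⟨m', hm', he⟩
    rw [Finset.mem_range] at hm'
    have := h.inj _ _ (by omega) hm he
    omega
  · intro hlt
    exact ⟨m, Finset.mem_range.2 hlt, rfl⟩

lemma hd_or (a : Dart N) : hd a = a.1 ∨ hd a = a.1 + 1 := by
  rcases a with ⟨a, b⟩; cases b <;> simp [hd]

lemma tl_or (a : Dart N) : tl a = a.1 ∨ tl a = a.1 + 1 := by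
  rcases a with ⟨a, b⟩; cases b <;> simp [tl]

lemma jn_t {r : ZMod N → W} {q : ZMod N} (hrq : ∀ v, r v = r q → v = q) {f : ℕ → Dart N} {t : ℕ}
    (h : St r q f t) : jn f t = (q, q) := by
  have h1 := h.atq
  have h2 := h.tour.link t h.pos h.lt
  rw [h1] at h2
  exact Prod.ext (hrq _ h2) h1

lemma unmatched [NeZero N] (hN : 2 ≤ N) {r : ZMod N → W} {q : ZMod N} {f : ℕ → Dart N} {t : ℕ}
    (h : St r q f t) {v : ZMod N} (hv0 : v ≠ 0) (hvq : v ≠ q)
    (hM : ∀ u, ¬ (v ≠ u ∧ jB f 0 N v u)) :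
    ∃ m, 0 < m ∧ m < N ∧ m ≠ t ∧ jn f m = (v, v) ∧ (v ∈ arcsD f t ↔ m < t) ∧
      (v - 1 ∈ arcsD f t ↔ m < t) := by
  obtain ⟨m1, s1, m2, s2, k1, k2, k3, k4⟩ := two_slots hN h.tour hv0
  have key : ∀ {m : ℕ} {s : Bool}, slot f v m s → jn f m = (v, v) := by
    rintro m s ⟨h0, h1, h2⟩
    cases s
    · simp only [Bool.false_eq_true, if_false] at h2
      by_contra hc
      apply hM (jn f m).2
      refine ⟨?_, m, h0, h1, Or.inl (Prod.ext h2 rfl)⟩
      intro he
      exact hc (Prod.ext h2 he.symm)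
    · simp only [if_true] at h2
      by_contra hc
      apply hM (jn f m).1
      refine ⟨?_, m, h0, h1, Or.inr (Prod.ext rfl h2)⟩
      intro he
      exact hc (Prod.ext he.symm h2)
  have j1 := key k1
  have j2 := key k2
  have hm0 := k1.1
  have hmN := k1.2.1
  have hm : m1 = m2 := by
    by_contra hne
    have a1 : slot f v m1 false := ⟨hm0, hmN, by simp [j1]⟩
    have a2 : slot f v m1 true := ⟨hm0, hmN, by simp [j1]⟩
    rcases three_slots hN h.tour a1 a2 k2 with ⟨_, e⟩ | ⟨e, _⟩ | ⟨e, _⟩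
    · cases e
    · exact hne e
    · exact hne e
  subst hm
  have hs : s1 = false ∧ s2 = true := by
    cases s1 <;> cases s2 <;> simp [sd] at k3 ⊢
    omega
  obtain ⟨rfl, rfl⟩ := hs
  simp only [sd, Bool.false_eq_true, if_false, if_true] at k4
  have hmt : m1 ≠ t := by
    rintro rfl
    have := h.atq
    rw [j1] at this
    exact hvq this
  have d1 := mem_arcsD h.tour h.lt (show m1 - 1 < N by omega)
  have d2 := mem_arcsD h.tour h.lt hmN
  refine ⟨m1, hm0, hmN, hmt, j1, ?_, ?_⟩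
  · rcases k4 with ⟨e1, e2⟩ | ⟨e1, e2⟩
    · rw [e1] at d1; rw [d1]; omega
    · rw [e2] at d2; exact d2
  · rcases k4 with ⟨e1, e2⟩ | ⟨e1, e2⟩
    · rw [e2] at d2; exact d2
    · rw [e1] at d1; rw [d1]; omega

lemma split_of_slots {r : ZMod N → W} {q : ZMod N} {f : ℕ → Dart N} {t : ℕ}
    (h : St r q f t) {v : ZMod N} {m m' : ℕ} {s s' : Bool} (h1 : slot f v m s) (h2 : m < t)
    (h3 : slot f v m' s') (h4 : t < m') : ¬ (v - 1 ∈ arcsD f t ↔ v ∈ arcsD f t) := by
  obtain ⟨a1, a2⟩ := slot_dart h1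
  obtain ⟨b1, b2⟩ := slot_dart h3
  rw [inc_iff] at a2 b2
  have c1 := mem_arcsD h.tour h.lt a1
  have c2 := mem_arcsD h.tour h.lt b1
  have d1 : sd m s < t := by unfold sd; split_ifs <;> omega
  have d2 : ¬ sd m' s' < t := by unfold sd; split_ifs <;> omega
  rcases a2 with e | e <;> rcases b2 with e' | e' <;> rw [e] at c1 <;> rw [e'] at c2 <;> tauto

lemma split_small (hN : 2 ≤ N) {r : ZMod N → W} {q : ZMod N}
    (hrq : ∀ v, r v = r q → v = q) {f : ℕ → Dart N} {t : ℕ}
    (h : St r q f t) {v w : ZMod N} (hvw : v ≠ w) (hj : jB f 0 N v w)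
    (hfib : ∀ u, r u = r v → u = v ∨ u = w) (hV : Vd r f t (r v)) :
    ∃ m s m' s', slot f v m s ∧ m < t ∧ slot f v m' s' ∧ t < m' := by
  have hX : ¬ Xr r f (r v) := fun hx => hvw (hx v w rfl hj)
  have hS : ¬ Same r f t (r v) := by
    rcases hV with hV | hV
    · exact absurd hV.1 hX
    · exact hV.2
  rw [Same_iff h.tour h.lt] at hS
  push Not at hS
  obtain ⟨⟨m2, p1, p2, p3⟩, ⟨m1, l1, l2, l3⟩⟩ := hS
  obtain ⟨m3, n1, n2, n3⟩ := hj
  have htN := h.lt
  have ht3 : m3 ≠ t := by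
    rintro rfl
    rw [jn_t hrq h] at n3
    rcases n3 with e | e
    · exact hvw ((congrArg Prod.fst e).symm.trans (congrArg Prod.snd e))
    · exact hvw ((congrArg Prod.snd e).symm.trans (congrArg Prod.fst e))
  obtain ⟨s3, hs3⟩ := slot_of_jn n1 n2 n3
  have n3' : jn f m3 = (w, v) ∨ jn f m3 = (v, w) := n3.symm
  obtain ⟨s3', hs3'⟩ := slot_of_jn n1 n2 n3'
  -- a junction of class `k` away from `m3` contains `v`
  have key : ∀ m, 0 < m → m < N → m ≠ m3 → r (jn f m).2 = r v → ∃ s, slot f v m s := by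
    intro m m0 mN hne hr
    have hr1 : r (jn f m).1 = r v := by rw [h.tour.link m m0 mN]; exact hr
    rcases hfib _ hr1 with e | e
    · exact ⟨false, m0, mN, by simpa using e⟩
    · rcases hfib _ hr with e' | e'
      · exact ⟨true, m0, mN, by simpa using e'⟩
      · exfalso
        have a1 : slot f w m false := ⟨m0, mN, by simpa using e⟩
        have a2 : slot f w m true := ⟨m0, mN, by simpa using e'⟩
        rcases three_slots hN h.tour a1 a2 hs3' with ⟨_, e⟩ | ⟨e, _⟩ | ⟨e, _⟩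
        · cases e
        · exact hne e
        · exact hne e
  rcases lt_or_gt_of_ne ht3 with hc | hc
  · obtain ⟨s, hs⟩ := key m2 (by omega) p2 (by omega) p3
    exact ⟨m3, s3, m2, s, hs3, hc, hs, p1⟩
  · obtain ⟨s, hs⟩ := key m1 l1 (by omega) (by omega) l3
    exact ⟨m1, s, m3, s3, hs, l2, hs3, hc⟩

lemma split_big {r : ZMod N → W} {q : ZMod N}
    (hrq : ∀ v, r v = r q → v = q) {f : ℕ → Dart N} {t : ℕ}
    (h : St r q f t) {v w : ZMod N} (hvw : v ≠ w) (hj : jB f 0 N v w)
    (hV : wB r f t (r v)) :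
    (∃ m s m' s', slot f v m s ∧ m < t ∧ slot f v m' s' ∧ t < m') ∧
      ∀ z u, z ≠ u → jB f 0 N z u → r z = r v → (z = v ∧ u = w) ∨ (z = w ∧ u = v) := by
  have htN := h.lt
  have hX : ¬ Xr r f (r v) := fun hx => hvw (hx v w rfl hj)
  have hU : Used r f t (r v) := by
    rcases hV with hV | hV
    · exact absurd hV.1 hX
    · exact hV
  obtain ⟨x, y, hxy, hx, hy, ⟨m1, a1, a2, a3⟩, ⟨m2, b1, b2, b3⟩, hD, hJ⟩ := hU
  have key : ∀ z u, z ≠ u → jB f 0 N z u → r z = r v → (z = x ∧ u = y) ∨ (z = y ∧ u = x) := by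
    rintro z u hzu ⟨m, n1, n2, n3⟩ hr
    rcases lt_trichotomy m t with hc | hc | hc
    · rcases hD z u hr ⟨m, n1, hc, n3⟩ with e | e
      · exact absurd e hzu
      · exact e
    · exfalso
      subst hc
      rw [jn_t hrq h] at n3
      rcases n3 with e | e
      · exact hzu ((congrArg Prod.fst e).symm.trans (congrArg Prod.snd e))
      · exact hzu ((congrArg Prod.snd e).symm.trans (congrArg Prod.fst e))
    · exact hJ z u hr ⟨m, hc, n2, n3⟩
  have h0 := key v w hvw hj rfl
  constructor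
  · rcases h0 with ⟨rfl, rfl⟩ | ⟨rfl, rfl⟩
    · obtain ⟨s1, hs1⟩ := slot_of_jn a1 (by omega) a3
      obtain ⟨s2, hs2⟩ := slot_of_jn (by omega) b2 b3
      exact ⟨m1, s1, m2, s2, hs1, a2, hs2, b1⟩
    · obtain ⟨s1, hs1⟩ := slot_of_jn a1 (by omega) a3.symm
      obtain ⟨s2, hs2⟩ := slot_of_jn (by omega) b2 b3.symm
      exact ⟨m1, s1, m2, s2, hs1, a2, hs2, b1⟩
  · intro z u hzu hzj hr
    have h1 := key z u hzu hzj hr
    rcases h0 with ⟨rfl, rfl⟩ | ⟨rfl, rfl⟩
    · exact h1
    · exact h1.symm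

theorem circle [NeZero N] (hN : 2 ≤ N) (r : ZMod N → W) (q : ZMod N) (hq : q ≠ 0)
    (hr0 : ∀ v, r v = r 0 → v = 0) (hrq : ∀ v, r v = r q → v = q) (b : W) (hb : r q ≠ b)
    (hsmall : ∀ x y z, r x = r y → r y = r z → r x ≠ b → x = y ∨ y = z ∨ x = z) :
    ∃ (S : Finset (ZMod N)) (M : ZMod N → ZMod N → Prop),
      (∀ x y, M x y → M y x) ∧ (∀ x y, M x y → x ≠ y ∧ r x = r y) ∧
      (∀ x y z w, M x y → M z w → r z = r x → (z = x ∧ w = y) ∨ (z = y ∧ w = x)) ∧
      (0 : ZMod N) ∈ S ∧ (-1 : ZMod N) ∉ S ∧ (q - 1 ∈ S ↔ q ∉ S) ∧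
      (∀ v, v ≠ 0 → v ≠ q → ((∃ w, M v w) ↔ ¬ (v - 1 ∈ S ↔ v ∈ S))) ∧
      (∀ v w, r v = r w → (∀ u, ¬ M v u) → (∀ u, ¬ M w u) → (v ∈ S ↔ w ∈ S)) ∧
      (∀ a ∈ S, Relation.ReflTransGen (Lnk S M) 0 a) ∧
      (∀ a ∉ S, Relation.ReflTransGen (Lnk Sᶜ M) (-1) a) := by
  obtain ⟨f, t, hst, hwb, hvd⟩ := ex_state hN r q hq hr0 hrq b hb
  have htN := hst.lt
  have ht0 := hst.pos
  have hmem := fun {m : ℕ} (hm : m < N) => mem_arcsD hst.tour hst.lt hm
  have hM0 : ∀ x y, (x ≠ y ∧ jB f 0 N x y) → x ≠ y ∧ r x = r y := by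
    rintro x y ⟨hxy, m, m0, m1, m2⟩
    refine ⟨hxy, ?_⟩
    have := hst.tour.link m m0 m1
    rcases m2 with e | e
    · rw [e] at this; exact this
    · rw [e] at this; exact this.symm
  have hfib : ∀ v w u, v ≠ w → r v = r w → r v ≠ b → r u = r v → u = v ∨ u = w := by
    intro v w u hvw hr hrb hu
    rcases hsmall v w u hr (hr.symm.trans hu.symm) hrb with e | e | e
    · exact absurd e hvw
    · exact Or.inr e.symm
    · exact Or.inl e.symm
  have hv_ne : ∀ v w, v ≠ w → r v = r w → v ≠ 0 ∧ v ≠ q := by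
    intro v w hvw hr
    refine ⟨?_, ?_⟩
    · rintro rfl; exact hvw (hr0 w hr.symm).symm
    · rintro rfl; exact hvw (hrq w hr.symm).symm
  refine ⟨arcsD f t, fun x y => x ≠ y ∧ jB f 0 N x y, ?_, hM0, ?_, ?_, ?_, ?_, ?_, ?_, ?_, ?_⟩
  · rintro x y ⟨h1, h2⟩
    exact ⟨h1.symm, jB_symm h2⟩
  · rintro x y z w ⟨hxy, jxy⟩ ⟨hzw, jzw⟩ hr
    by_cases hrb : r x = b
    · exact (split_big hrq hst hxy jxy (by rw [hrb]; exact hwb)).2 z w hzw jzw hr
    · have e1 := (hM0 x y ⟨hxy, jxy⟩).2
      have e2 := (hM0 z w ⟨hzw, jzw⟩).2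
      have f1 := hfib x y z hxy e1 hrb hr
      have f2 := hfib x y w hxy e1 hrb (e2.symm.trans hr)
      rcases f1 with rfl | rfl <;> rcases f2 with rfl | rfl
      · exact absurd rfl hzw
      · exact Or.inl ⟨rfl, rfl⟩
      · exact Or.inr ⟨rfl, rfl⟩
      · exact absurd rfl hzw
  · have := (hmem (show 0 < N by omega)).2 ht0
    rwa [hst.tour.start] at this
  · have h1 : hd (f (N - 1)) = 0 := hst.tour.stop
    have h2 := (inc_iff (f (N - 1)) 0).1 (Or.inr h1)
    rcases h2 with e | e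
    · exfalso
      have := hst.tour.inj (N - 1) 0 (by omega) (by omega) (by rw [e, hst.tour.start])
      omega
    · rw [zero_sub] at e
      rw [← e, hmem (by omega)]
      omega
  · -- the mark `q`
    have hj := jn_t hrq hst
    have h1 : hd (f (t - 1)) = q := congrArg Prod.fst hj
    have h2 : tl (f t) = q := congrArg Prod.snd hj
    have i1 := (inc_iff (f (t - 1)) q).1 (Or.inr h1)
    have i2 := (inc_iff (f t) q).1 (Or.inl h2)
    have c1 := (hmem (show t - 1 < N by omega)).2 (by omega)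
    have c2 : (f t).1 ∉ arcsD f t := by rw [hmem htN]; omega
    rcases i1 with e | e <;> rcases i2 with e' | e' <;> rw [e] at c1 <;> rw [e'] at c2 <;> tauto
  · intro v hv0 hvq
    constructor
    · rintro ⟨w, hvw, hj⟩
      have hr := (hM0 v w ⟨hvw, hj⟩).2
      by_cases hrb : r v = b
      · obtain ⟨⟨m, s, m', s', k1, k2, k3, k4⟩, -⟩ :=
          split_big hrq hst hvw hj (by rw [hrb]; exact hwb)
        exact split_of_slots hst k1 k2 k3 k4
      · obtain ⟨m, s, m', s', k1, k2, k3, k4⟩ :=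
          split_small hN hrq hst hvw hj (fun u hu => hfib v w u hvw hr hrb hu)
            (hvd v w hvw hr hrb)
        exact split_of_slots hst k1 k2 k3 k4
    · intro hns
      by_contra hc
      push Not at hc
      obtain ⟨m, -, -, -, -, k1, k2⟩ := unmatched hN hst hv0 hvq (fun u hu => hc u hu.1 hu.2)
      exact hns (k2.trans k1.symm)
  · intro v w hr huv huw
    by_cases hvw : v = w
    · rw [hvw]
    obtain ⟨hv0, hvq⟩ := hv_ne v w hvw hr
    obtain ⟨hw0, hwq⟩ := hv_ne w v (Ne.symm hvw) hr.symm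
    obtain ⟨m, m0, mN, mt, mj, k1, -⟩ := unmatched hN hst hv0 hvq huv
    obtain ⟨n, n0, nN, nt, nj, l1, -⟩ := unmatched hN hst hw0 hwq huw
    rw [k1, l1]
    have hSame : Same r f t (r v) → (m < t ↔ n < t) := by
      intro hS
      rw [Same_iff hst.tour hst.lt] at hS
      have a1 : r (jn f m).2 = r v := by rw [mj]
      have a2 : r (jn f n).2 = r v := by rw [nj]; exact hr.symm
      rcases hS with hS | hS
      · have b1 : ¬ t < m := fun hc => hS m hc mN a1
        have b2 : ¬ t < n := fun hc => hS n hc nN a2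
        omega
      · have b1 : ¬ m < t := fun hc => hS m m0 hc a1
        have b2 : ¬ n < t := fun hc => hS n n0 hc a2
        omega
    by_cases hrb : r v = b
    · rw [← hrb] at hwb
      rcases hwb with hV | hV
      · exact hSame hV.2
      · obtain ⟨x, y, hxy, hx, hy, -, -, -, hJ⟩ := hV
        have b1 : ¬ t < m := by
          intro hc
          rcases hJ v v rfl ⟨m, hc, mN, Or.inl mj⟩ with e | e
          · exact hxy (e.1.symm.trans e.2)
          · exact hxy (e.2.symm.trans e.1)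
        have b2 : ¬ t < n := by
          intro hc
          rcases hJ w w hr.symm ⟨n, hc, nN, Or.inl nj⟩ with e | e
          · exact hxy (e.1.symm.trans e.2)
          · exact hxy (e.2.symm.trans e.1)
        omega
    · rcases hvd v w hvw hr hrb with hV | hV
      · exact hSame hV.2
      · exfalso
        apply hV.1
        intro u u' hu hj
        by_contra hne
        rcases hfib v w u hvw hr hrb hu with e | e
        · exact huv u' ⟨by rw [← e]; exact hne, by rw [← e]; exact hj⟩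
        · exact huw u' ⟨by rw [← e]; exact hne, by rw [← e]; exact hj⟩
  · -- connectivity of the first part
    have key : ∀ m, m < t → Relation.ReflTransGen
        (Lnk (arcsD f t) (fun x y => x ≠ y ∧ jB f 0 N x y)) 0 (f m).1 := by
      intro m
      induction m with
      | zero => intro _; rw [hst.tour.start]
      | succ m ih =>
        intro hm
        refine (ih (by omega)).tail ?_
        refine ⟨(hmem (by omega)).2 (by omega), (hmem (by omega)).2 hm, hd (f m), tl (f (m + 1)),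
          hd_or _, tl_or _, ?_⟩
        by_cases he : hd (f m) = tl (f (m + 1))
        · exact Or.inl he
        · exact Or.inr ⟨he, m + 1, by omega, by omega, Or.inl (by simp [jn])⟩
    intro a ha
    obtain ⟨m, hm, rfl⟩ := Finset.mem_image.1 ha
    exact key m (Finset.mem_range.1 hm)
  · -- connectivity of the second part
    have hlast : (f (N - 1)).1 = -1 := by
      have h1 : hd (f (N - 1)) = 0 := hst.tour.stop
      have h2 := (inc_iff (f (N - 1)) 0).1 (Or.inr h1)
      rcases h2 with e | e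
      · exfalso
        have := hst.tour.inj (N - 1) 0 (by omega) (by omega) (by rw [e, hst.tour.start])
        omega
      · rw [zero_sub] at e; exact e
    have key : ∀ k, ∀ m, m + k = N - 1 → t ≤ m → Relation.ReflTransGen
        (Lnk (arcsD f t)ᶜ (fun x y => x ≠ y ∧ jB f 0 N x y)) (-1) (f m).1 := by
      intro k
      induction k with
      | zero => intro m hm _; rw [← hlast, show m = N - 1 by omega]
      | succ k ih =>
        intro m hm htm
        refine (ih (m + 1) (by omega) (by omega)).tail ?_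
        refine ⟨?_, ?_, tl (f (m + 1)), hd (f m), tl_or _, hd_or _, ?_⟩
        · rw [Finset.mem_compl, hmem (by omega)]; omega
        · rw [Finset.mem_compl, hmem (by omega)]; omega
        by_cases he : tl (f (m + 1)) = hd (f m)
        · exact Or.inl he
        · exact Or.inr ⟨he, m + 1, by omega, by omega, Or.inr (by simp [jn])⟩
    intro a ha
    obtain ⟨m, hm, rfl⟩ := hst.tour.ex_dart a
    rw [hmem hm] at ha
    exact key (N - 1 - m) m (by omega) (by omega)

end Pool.Agent.H41.Semi
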