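import Pool.Agent.H41.Semi.Paths
import Pool.Agent.H41.Semi.Circle5

/-! From a solution on the circle to a semi-extension. -/

namespace Pool.Agent.H41.Semi

open Finset

set_option linter.unusedSectionVars false

namespace MGraph

variable {V E : Type} [Fintype V] [DecidableEq V] [Fintype E] [DecidableEq E] {G : MGraph V E}

/-- a cyclic enumeration of the circuit `C` -/
structure Enum (G : MGraph V E) (C : Finset E) (N : ℕ) (c : ZMod N → V) (e : ZMod N → E) :
    Prop where
  two : 2 ≤ N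
  cinj : Function.Injective c
  einj : Function.Injective e
  ends : ∀ i, G.ends (e i) = s(c i, c (i + 1))
  mem : ∀ x, x ∈ C ↔ ∃ i, e i = x

variable {C : Finset E} {N : ℕ} [NeZero N] {c : ZMod N → V} {e : ZMod N → E}

lemma Enum.inc (h : Enum G C N c e) (i j : ZMod N) : c i ∈ G.ends (e j) ↔ (j = i ∨ j = i - 1) := by
  rw [h.ends, Sym2.mem_iff, h.cinj.eq_iff, h.cinj.eq_iff]
  constructor
  · rintro (rfl | rfl)
    · exact Or.inl rfl
    · right; ring
  · rintro (rfl | rfl)
    · exact Or.inl rfl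
    · right; ring

lemma Enum.vtsC (h : Enum G C N c e) (v : V) : v ∈ G.vts C ↔ ∃ i, c i = v := by
  constructor
  · rintro ⟨x, hx, hv⟩
    obtain ⟨i, rfl⟩ := (h.mem x).1 hx
    rw [h.ends, Sym2.mem_iff] at hv
    rcases hv with rfl | rfl
    · exact ⟨i, rfl⟩
    · exact ⟨i + 1, rfl⟩
  · rintro ⟨i, rfl⟩
    exact ⟨e i, (h.mem _).2 ⟨i, rfl⟩, (h.inc i i).2 (Or.inl rfl)⟩

lemma Enum.sub_one_ne (h : Enum G C N c e) (i : ZMod N) : i - 1 ≠ i := by
  have : Fact (1 < N) := ⟨h.two⟩
  intro he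
  have h1 : (1 : ZMod N) = 0 := by
    have := congrArg (fun x => i - x) he
    simpa using this
  exact one_ne_zero h1

lemma Enum.dg_arcs (h : Enum G C N c e) (T : Finset (ZMod N)) (i : ZMod N) :
    G.dg (T.image e) (c i) = (if i ∈ T then 1 else 0) + (if i - 1 ∈ T then 1 else 0) := by
  unfold dg
  have : (T.image e).filter (fun x => c i ∈ G.ends x) = (T.filter (fun j => j = i ∨ j = i - 1)).image e := by
    ext x
    simp only [Finset.mem_filter, Finset.mem_image]
    constructor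
    · rintro ⟨⟨j, hj, rfl⟩, hx⟩
      exact ⟨j, ⟨hj, (h.inc i j).1 hx⟩, rfl⟩
    · rintro ⟨j, ⟨hj, hj'⟩, rfl⟩
      exact ⟨⟨j, hj, rfl⟩, (h.inc i j).2 hj'⟩
  rw [this, Finset.card_image_of_injective _ h.einj]
  have hne := h.sub_one_ne i
  have e2 : T.filter (fun j => j = i ∨ j = i - 1)
      = (T.filter (fun j => j = i)) ∪ (T.filter (fun j => j = i - 1)) := by
    rw [← Finset.filter_or]
  rw [e2, Finset.card_union_of_disjoint]
  · rw [Finset.filter_eq', Finset.filter_eq']
    split_ifs <;> simp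
  · rw [Finset.disjoint_left]
    intro j hj hj'
    rw [Finset.mem_filter] at hj hj'
    exact hne (hj'.2.symm.trans hj.2)

lemma dg_union {F F' : Finset E} (h : Disjoint F F') (v : V) :
    G.dg (F ∪ F') v = G.dg F v + G.dg F' v := by
  unfold dg
  rw [Finset.filter_union, Finset.card_union_of_disjoint]
  exact Finset.disjoint_filter_filter h

lemma dg_pos {F : Finset E} {v : V} (h : v ∈ G.vts F) : 0 < G.dg F v := by
  rcases Nat.eq_zero_or_pos (G.dg F v) with h0 | h0
  · exact absurd h (dg_eq_zero.1 h0)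
  · exact h0

lemma vts_mono {F F' : Finset E} (h : F ⊆ F') : G.vts F ⊆ G.vts F' :=
  fun _ ⟨x, hx, hv⟩ => ⟨x, h hx, hv⟩

/-- the properties of the set `S` of shared edges -/
structure Shared (G : MGraph V E) (C : Finset E) (N : ℕ) (c : ZMod N → V) (S : Finset E)
    (M : ZMod N → ZMod N → Prop) : Prop where
  disj : Disjoint S C
  one : ∀ i, c i ∈ G.vts S → G.dg S (c i) = 1
  two : ∀ v ∈ G.vts S, v ∉ G.vts C → G.dg S v = 2
  conn : ∀ v ∈ G.vts S, ∃ i, c i ∈ G.vts S ∧ Relation.ReflTransGen (G.Adj S) (c i) v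
  matched : ∀ x y, M x y → Relation.ReflTransGen (G.Adj S) (c x) (c y)

theorem circuit_of (h : Enum G C N c e) {S : Finset E} {M : ZMod N → ZMod N → Prop}
    (hS : Shared G C N c S M) (T : Finset (ZMod N))
    (hT : ∀ i, c i ∈ G.vts S ↔ ¬ (i - 1 ∈ T ↔ i ∈ T)) (a0 : ZMod N) (ha0 : a0 ∈ T)
    (hL : ∀ a ∈ T, Relation.ReflTransGen (Lnk T M) a0 a) : G.IsCircuit (S ∪ T.image e) := by
  have hdisj : Disjoint S (T.image e) := by
    rw [Finset.disjoint_left]
    intro x hx hx'
    obtain ⟨j, -, rfl⟩ := Finset.mem_image.1 hx'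
    exact (Finset.disjoint_left.1 hS.disj hx) ((h.mem _).2 ⟨j, rfl⟩)
  have hcon : ∀ v ∈ G.vts (S ∪ T.image e),
      Relation.ReflTransGen (G.Adj (S ∪ T.image e)) (c a0) v := by
    have harc : ∀ a ∈ T, ∀ u, (u = a ∨ u = a + 1) →
        Relation.ReflTransGen (G.Adj (S ∪ T.image e)) (c a) (c u) := by
      rintro a ha u (rfl | rfl)
      · exact Relation.ReflTransGen.refl
      · exact Relation.ReflTransGen.single ⟨e a,
          Finset.mem_union_right _ (Finset.mem_image_of_mem _ ha), h.ends a⟩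
    have hall : ∀ a ∈ T, Relation.ReflTransGen (G.Adj (S ∪ T.image e)) (c a0) (c a) := by
      intro a ha
      have hr := hL a ha
      clear ha
      induction hr with
      | refl => exact Relation.ReflTransGen.refl
      | tail _ hst ih =>
        obtain ⟨k1, k2, u, u', k3, k4, k5⟩ := hst
        refine ih.trans ((harc _ k1 u k3).trans ?_)
        have h2 := rtg_adj_symm (harc _ k2 u' k4)
        rcases k5 with rfl | k5
        · exact h2
        · exact (rtg_adj_mono Finset.subset_union_left (hS.matched _ _ k5)).trans h2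
    rintro v ⟨x, hx, hv⟩
    rw [Finset.mem_union] at hx
    rcases hx with hx | hx
    · obtain ⟨i, hi, hr⟩ := hS.conn v ⟨x, hx, hv⟩
      refine Relation.ReflTransGen.trans ?_ (rtg_adj_mono Finset.subset_union_left hr)
      have h1 := (hT i).1 hi
      by_cases hiT : i ∈ T
      · exact hall i hiT
      · have : i - 1 ∈ T := by tauto
        refine (hall _ this).trans (harc _ this i ?_)
        right; ring
    · obtain ⟨a, ha, rfl⟩ := Finset.mem_image.1 hx
      rw [h.ends, Sym2.mem_iff] at hv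
      rcases hv with rfl | rfl
      · exact hall a ha
      · exact (hall a ha).trans (harc a ha _ (Or.inr rfl))
  refine ⟨⟨e a0, Finset.mem_union_right _ (Finset.mem_image_of_mem _ ha0)⟩, ?_, ?_⟩
  · intro v hv
    rw [dg_union hdisj]
    by_cases hvC : v ∈ G.vts C
    · obtain ⟨i, rfl⟩ := (h.vtsC v).1 hvC
      rw [h.dg_arcs]
      by_cases hi : c i ∈ G.vts S
      · rw [hS.one i hi]
        have := (hT i).1 hi
        by_cases h1 : i ∈ T <;> by_cases h2 : i - 1 ∈ T <;> simp [h1, h2] at this ⊢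
      · rw [dg_eq_zero.2 hi]
        have h3 : (i - 1 ∈ T ↔ i ∈ T) := by
          by_contra hc
          exact hi ((hT i).2 hc)
        have h4 := dg_pos hv
        rw [dg_union hdisj, h.dg_arcs, dg_eq_zero.2 hi] at h4
        by_cases h1 : i ∈ T
        · simp [h1, h3.2 h1]
        · have h2 : i - 1 ∉ T := fun h => h1 (h3.1 h)
          simp [h1, h2] at h4
    · have h0 : G.dg (T.image e) v = 0 := by
        rw [dg_eq_zero]
        rintro ⟨x, hx, hv'⟩
        obtain ⟨a, ha, rfl⟩ := Finset.mem_image.1 hx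
        exact hvC ⟨e a, (h.mem _).2 ⟨a, rfl⟩, hv'⟩
      rw [h0, add_zero]
      apply hS.two v _ hvC
      by_contra hc
      have h4 := dg_pos hv
      rw [dg_union hdisj, h0, dg_eq_zero.2 hc] at h4
      omega
  · intro u hu v hv
    exact (rtg_adj_symm (hcon u hu)).trans (hcon v hv)

theorem semi_of (h : Enum G C N c e) {S : Finset E} {M : ZMod N → ZMod N → Prop}
    (hS : Shared G C N c S M) (hne : S.Nonempty) (T : Finset (ZMod N))
    (hT : ∀ i, c i ∈ G.vts S ↔ ¬ (i - 1 ∈ T ↔ i ∈ T)) (a0 : ZMod N) (ha0 : a0 ∈ T)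
    (hL : ∀ a ∈ T, Relation.ReflTransGen (Lnk T M) a0 a)
    (a1 : ZMod N) (ha1 : a1 ∉ T)
    (hL' : ∀ a ∉ T, Relation.ReflTransGen (Lnk Tᶜ M) a1 a)
    (hatt : ∀ A, G.IsAttachment (C ∪ S) A → A ⊆ G.vts (S ∪ T.image e) ∨
      A ⊆ G.vts (S ∪ Tᶜ.image e)) :
    G.IsSemiExtension C (S ∪ T.image e) ∧ G.IsCircuit (symmDiff C (S ∪ T.image e)) := by
  have hD := circuit_of h hS T hT a0 ha0 hL
  have hJ := circuit_of h hS Tᶜ (by
    intro i
    rw [hT i, Finset.mem_compl, Finset.mem_compl]; tauto) a1 (by simpa using ha1) (by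
    intro a ha
    exact hL' a (by simpa using ha))
  have hsd : symmDiff C (S ∪ T.image e) = S ∪ Tᶜ.image e := by
    ext x
    rw [Finset.mem_symmDiff, Finset.mem_union, Finset.mem_union]
    constructor
    · rintro (⟨h1, h2⟩ | ⟨h1, h2⟩)
      · right
        obtain ⟨j, rfl⟩ := (h.mem x).1 h1
        rw [not_or] at h2
        refine Finset.mem_image_of_mem _ ?_
        rw [Finset.mem_compl]
        exact fun hj => h2.2 (Finset.mem_image_of_mem _ hj)
      · left
        rcases h1 with h1 | h1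
        · exact h1
        · exfalso
          obtain ⟨j, -, rfl⟩ := Finset.mem_image.1 h1
          exact h2 ((h.mem _).2 ⟨j, rfl⟩)
    · rintro (h1 | h1)
      · right
        exact ⟨Or.inl h1, fun h2 => (Finset.disjoint_left.1 hS.disj h1) h2⟩
      · left
        obtain ⟨j, hj, rfl⟩ := Finset.mem_image.1 h1
        rw [Finset.mem_compl] at hj
        refine ⟨(h.mem _).2 ⟨j, rfl⟩, ?_⟩
        rw [not_or]
        refine ⟨fun h2 => (Finset.disjoint_left.1 hS.disj h2) ((h.mem _).2 ⟨j, rfl⟩), ?_⟩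
        intro h2
        obtain ⟨j', hj', he⟩ := Finset.mem_image.1 h2
        rw [h.einj he] at hj'
        exact hj hj'
  have hun : C ∪ (S ∪ T.image e) = C ∪ S := by
    ext x
    simp only [Finset.mem_union, Finset.mem_image]
    constructor
    · rintro (h1 | h1 | ⟨j, -, rfl⟩)
      · exact Or.inl h1
      · exact Or.inr h1
      · exact Or.inl ((h.mem _).2 ⟨j, rfl⟩)
    · rintro (h1 | h1)
      · exact Or.inl h1
      · exact Or.inr (Or.inl h1)
  refine ⟨⟨hD, ?_, ?_⟩, by rw [hsd]; exact hJ⟩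
  · intro he
    obtain ⟨x, hx⟩ := hne
    have : x ∈ C := by rw [← he]; exact Finset.mem_union_left _ hx
    exact (Finset.disjoint_left.1 hS.disj hx) this
  · intro A hA
    rw [hun] at hA
    rcases hatt A hA with h1 | h1
    · exact Or.inl h1
    · right
      rw [hsd]
      exact ⟨_, ⟨subset_rfl, hJ.1, hJ.2.2, fun x hx _ => hx⟩, h1⟩

/-- the attachment condition, from the condition on pairs of vertices of `C` outside `S` -/
theorem att_of (h : Enum G C N c e) {S P : Finset E} (hP : P ⊆ S) (T : Finset (ZMod N))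
    (hB1 : ∀ i j, c i ∉ G.vts S → c j ∉ G.vts S → (∃ x, x ∉ C ∧ G.ends x = s(c i, c j)) →
      (i ∈ T ↔ j ∈ T))
    (hB2 : ∀ i j u u', c i ∉ G.vts S → c j ∉ G.vts S → u ∉ G.vts (C ∪ P) →
      G.Reach (G.vts (C ∪ P)) u u' → G.Adj Finset.univ u (c i) → G.Adj Finset.univ u' (c j) →
      (i ∈ T ↔ j ∈ T)) :
    ∀ A, G.IsAttachment (C ∪ S) A → A ⊆ G.vts (S ∪ T.image e) ∨
      A ⊆ G.vts (S ∪ Tᶜ.image e) := by
  have hSD : G.vts S ⊆ G.vts (S ∪ T.image e) := vts_mono Finset.subset_union_left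
  have hSJ : G.vts S ⊆ G.vts (S ∪ Tᶜ.image e) := vts_mono Finset.subset_union_left
  have hcD : ∀ i ∈ T, c i ∈ G.vts (S ∪ T.image e) := fun i hi =>
    ⟨e i, Finset.mem_union_right _ (Finset.mem_image_of_mem _ hi), (h.inc i i).2 (Or.inl rfl)⟩
  have hcJ : ∀ i, i ∉ T → c i ∈ G.vts (S ∪ Tᶜ.image e) := fun i hi =>
    ⟨e i, Finset.mem_union_right _ (Finset.mem_image_of_mem _ (by simpa using hi)),
      (h.inc i i).2 (Or.inl rfl)⟩
  have hsplit : ∀ v ∈ G.vts (C ∪ S), v ∈ G.vts S ∨ (v ∉ G.vts S ∧ ∃ i, c i = v) := by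
    rintro v ⟨x, hx, hv⟩
    by_cases hvS : v ∈ G.vts S
    · exact Or.inl hvS
    · right
      refine ⟨hvS, ?_⟩
      rw [Finset.mem_union] at hx
      rcases hx with hx | hx
      · exact (h.vtsC v).1 ⟨x, hx, hv⟩
      · exact absurd ⟨x, hx, hv⟩ hvS
  have hin : ∀ v ∈ G.vts (C ∪ S), v ∈ G.vts (S ∪ T.image e) ∨ v ∈ G.vts (S ∪ Tᶜ.image e) := by
    intro v hv
    rcases hsplit v hv with h1 | ⟨-, i, rfl⟩
    · exact Or.inl (hSD h1)
    · by_cases hi : i ∈ T
      · exact Or.inl (hcD i hi)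
      · exact Or.inr (hcJ i hi)
  have hX : G.vts (C ∪ P) ⊆ G.vts (C ∪ S) := vts_mono (Finset.union_subset_union_right hP)
  rintro A (⟨x, hx, hxv, rfl⟩ | ⟨w, hw, rfl⟩)
  · obtain ⟨a, b, hab⟩ : ∃ a b, G.ends x = s(a, b) := by
      induction h : G.ends x with
      | _ a b => exact ⟨a, b, rfl⟩
    have ha := hxv a (by rw [hab]; exact Sym2.mem_mk_left _ _)
    have hb := hxv b (by rw [hab]; exact Sym2.mem_mk_right _ _)
    have hset : ∀ Y : Set V, a ∈ Y → b ∈ Y → {v | v ∈ G.ends x} ⊆ Y := by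
      intro Y h1 h2 v hv
      rw [Set.mem_setOf_eq, hab, Sym2.mem_iff] at hv
      rcases hv with rfl | rfl
      · exact h1
      · exact h2
    rcases hsplit a ha with h1 | ⟨h1, i, rfl⟩
    · rcases hin b hb with h2 | h2
      · exact Or.inl (hset _ (hSD h1) h2)
      · exact Or.inr (hset _ (hSJ h1) h2)
    · rcases hsplit b hb with h2 | ⟨h2, j, rfl⟩
      · rcases hin _ ha with h3 | h3
        · exact Or.inl (hset _ h3 (hSD h2))
        · exact Or.inr (hset _ h3 (hSJ h2))
      · have hxC : x ∉ C := fun hc => hx (Finset.mem_union_left _ hc)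
        have hiff := hB1 i j h1 h2 ⟨x, hxC, hab⟩
        by_cases hi : i ∈ T
        · exact Or.inl (hset _ (hcD i hi) (hcD j (hiff.1 hi)))
        · exact Or.inr (hset _ (hcJ i hi) (hcJ j (fun hj => hi (hiff.2 hj))))
  · by_cases hex : ∃ i u, c i ∉ G.vts S ∧ G.Reach (G.vts (C ∪ S)) w u ∧
        G.Adj Finset.univ u (c i)
    · obtain ⟨i, u, h1, h2, h3⟩ := hex
      have hu : u ∉ G.vts (C ∪ P) := fun hc => (h2.not_mem hw) (hX hc)
      have key : ∀ j u', c j ∉ G.vts S → G.Reach (G.vts (C ∪ S)) w u' →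
          G.Adj Finset.univ u' (c j) → (i ∈ T ↔ j ∈ T) := by
        intro j u' k1 k2 k3
        exact hB2 i j u u' h1 k1 hu (Reach.mono hX (h2.symm.trans k2)) h3 k3
      by_cases hi : i ∈ T
      · left
        rintro v ⟨hv, u', hu', hadj⟩
        rcases hsplit v hv with k1 | ⟨k1, j, rfl⟩
        · exact hSD k1
        · exact hcD j ((key j u' k1 hu' hadj).1 hi)
      · right
        rintro v ⟨hv, u', hu', hadj⟩
        rcases hsplit v hv with k1 | ⟨k1, j, rfl⟩
        · exact hSJ k1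
        · exact hcJ j (fun hj => hi ((key j u' k1 hu' hadj).2 hj))
    · left
      rintro v ⟨hv, u', hu', hadj⟩
      rcases hsplit v hv with k1 | ⟨k1, j, rfl⟩
      · exact hSD k1
      · exact absurd ⟨j, u', k1, hu', hadj⟩ hex

end MGraph

end Pool.Agent.H41.Semi
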