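import Mathlib

/-!
Transition calculus on a circle.  The arcs of a circle of length `N` are indexed by `ZMod N`,
arc `i` joins `i` and `i + 1`; a dart is an arc with a direction.
-/

namespace Pool.Agent.H41.Semi

open Finset

variable {N : ℕ}

/-- directed arcs of the circle -/
abbrev Dart (N : ℕ) := ZMod N × Bool

def fl (a : Dart N) : Dart N := (a.1, !a.2)
def tl (a : Dart N) : ZMod N := if a.2 then a.1 else a.1 + 1
def hd (a : Dart N) : ZMod N := if a.2 then a.1 + 1 else a.1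

@[simp] lemma fl_fl (a : Dart N) : fl (fl a) = a := by simp [fl]
@[simp] lemma tl_fl (a : Dart N) : tl (fl a) = hd a := by
  rcases a with ⟨a, b⟩; cases b <;> simp [fl, tl, hd]
@[simp] lemma hd_fl (a : Dart N) : hd (fl a) = tl a := by
  rcases a with ⟨a, b⟩; cases b <;> simp [fl, tl, hd]
@[simp] lemma fl_fst (a : Dart N) : (fl a).1 = a.1 := rfl
lemma fl_ne (a : Dart N) : fl a ≠ a := by
  rcases a with ⟨a, b⟩; cases b <;> simp [fl]

/-- reverse the part of `f` at the positions `i ≤ m < j` -/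
def rv (i j : ℕ) (f : ℕ → Dart N) (m : ℕ) : Dart N :=
  if i ≤ m ∧ m < j then fl (f (i + j - 1 - m)) else f m

lemma rv_in {i j : ℕ} (f : ℕ → Dart N) {m : ℕ} (h1 : i ≤ m) (h2 : m < j) :
    rv i j f m = fl (f (i + j - 1 - m)) := by simp [rv, h1, h2]

lemma rv_out {i j : ℕ} (f : ℕ → Dart N) {m : ℕ} (h : m < i ∨ j ≤ m) :
    rv i j f m = f m := by
  have : ¬ (i ≤ m ∧ m < j) := by omega
  simp [rv, this]

lemma rv_rv (i j : ℕ) (f : ℕ → Dart N) : rv i j (rv i j f) = f := by
  funext m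
  by_cases h : i ≤ m ∧ m < j
  · rw [rv_in _ h.1 h.2, rv_in _ (by omega) (by omega)]
    have : i + j - 1 - (i + j - 1 - m) = m := by omega
    rw [this, fl_fl]
  · rw [rv_out _ (by omega), rv_out _ (by omega)]

/-- the junction at position `m` -/
def jn (f : ℕ → Dart N) (m : ℕ) : ZMod N × ZMod N := (hd (f (m - 1)), tl (f m))

lemma jn_rv_out {i j : ℕ} (f : ℕ → Dart N) {m : ℕ} (h0 : 0 < i) (h : m < i ∨ j < m) :
    jn (rv i j f) m = jn f m := by
  unfold jn
  rw [rv_out _ (by omega), rv_out _ (by omega)]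

lemma jn_rv_in {i j : ℕ} (f : ℕ → Dart N) {m : ℕ} (h1 : i < m) (h2 : m < j) :
    jn (rv i j f) m = ((jn f (i + j - m)).2, (jn f (i + j - m)).1) := by
  unfold jn
  rw [rv_in _ (by omega) (by omega), rv_in _ (by omega) (by omega)]
  have e1 : i + j - 1 - (m - 1) = i + j - m := by omega
  have e2 : i + j - 1 - m = i + j - m - 1 := by omega
  rw [e1, e2]; simp

lemma jn_rv_left {i j : ℕ} (f : ℕ → Dart N) (h0 : 0 < i) (h : i < j) :
    jn (rv i j f) i = ((jn f i).1, (jn f j).1) := by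
  unfold jn
  rw [rv_out _ (by omega), rv_in _ (by omega) (by omega)]
  have e1 : i + j - 1 - i = j - 1 := by omega
  rw [e1]; simp

lemma jn_rv_right {i j : ℕ} (f : ℕ → Dart N) (h : i < j) :
    jn (rv i j f) j = ((jn f i).2, (jn f j).2) := by
  unfold jn
  rw [rv_in _ (by omega) (by omega), rv_out _ (by omega)]
  have e1 : i + j - 1 - (j - 1) = i := by omega
  rw [e1]; simp

lemma rv_self {i : ℕ} (f : ℕ → Dart N) : rv i i f = f := by
  funext m
  rw [rv_out _ (by omega)]

lemma rv_comm {i m j : ℕ} (f : ℕ → Dart N) (h1 : i ≤ m) (h2 : m ≤ j) :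
    rv i m (rv m j f) = rv m j (rv i m f) := by
  funext n
  by_cases ha : i ≤ n ∧ n < m
  · rw [rv_in _ ha.1 ha.2, rv_out _ (by omega), rv_out _ (by omega), rv_in _ ha.1 ha.2]
  · by_cases hb : m ≤ n ∧ n < j
    · rw [rv_out _ (by omega), rv_in _ hb.1 hb.2, rv_in _ hb.1 hb.2, rv_out _ (by omega)]
    · rw [rv_out _ (by omega), rv_out _ (by omega), rv_out _ (by omega), rv_out _ (by omega)]

variable {W : Type*}

/-- closed tours of the circle with identifications `r`, starting with the arc `0` -/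
structure Tour (r : ZMod N → W) (f : ℕ → Dart N) : Prop where
  start : f 0 = (0, true)
  stop : hd (f (N-1)) = 0
  link : ∀ m, 0 < m → m < N → r (jn f m).1 = r (jn f m).2
  inj : ∀ m m', m < N → m' < N → (f m).1 = (f m').1 → m = m'

lemma Tour.rv {r : ZMod N → W} {f : ℕ → Dart N} (h : Tour r f) {i j : ℕ} (h0 : 0 < i)
    (hij : i ≤ j) (hj : j < N) (hr : r (jn f i).2 = r (jn f j).2) : Tour r (rv i j f) := by
  rcases Nat.eq_or_lt_of_le hij with rfl | hij
  · rwa [rv_self]
  refine ⟨?_, ?_, ?_, ?_⟩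
  · rw [rv_out _ (by omega)]; exact h.start
  · rw [rv_out _ (by omega)]; exact h.stop
  · intro m hm0 hmN
    rcases lt_trichotomy m i with h1 | h1 | h1
    · rw [jn_rv_out _ h0 (by omega)]; exact h.link m hm0 hmN
    · subst h1
      rw [jn_rv_left _ h0 hij]
      simp only
      rw [h.link m hm0 hmN, hr, h.link j (by omega) hj]
    · rcases lt_trichotomy m j with h2 | h2 | h2
      · rw [jn_rv_in _ h1 h2]
        simp only
        rw [h.link (i + j - m) (by omega) (by omega)]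
      · subst h2
        rw [jn_rv_right _ hij]
        simp only
        exact hr
      · rw [jn_rv_out _ h0 (by omega)]; exact h.link m hm0 hmN
  · intro m m' hm hm' he
    by_cases ha : i ≤ m ∧ m < j
    · rw [rv_in _ ha.1 ha.2, fl_fst] at he
      by_cases hb : i ≤ m' ∧ m' < j
      · rw [rv_in _ hb.1 hb.2, fl_fst] at he
        have := h.inj _ _ (by omega) (by omega) he
        omega
      · rw [rv_out _ (by omega)] at he
        have := h.inj _ _ (by omega) (by omega) he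
        omega
    · rw [rv_out _ (by omega)] at he
      by_cases hb : i ≤ m' ∧ m' < j
      · rw [rv_in _ hb.1 hb.2, fl_fst] at he
        have := h.inj _ _ (by omega) (by omega) he
        omega
      · rw [rv_out _ (by omega)] at he
        exact h.inj _ _ (by omega) (by omega) he

/-- the (unordered) junction `u v` occurs in `f` at a position in `(a, b)` -/
def jB (f : ℕ → Dart N) (a b : ℕ) (u v : ZMod N) : Prop :=
  ∃ m, a < m ∧ m < b ∧ (jn f m = (u, v) ∨ jn f m = (v, u))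

lemma jB_symm {f : ℕ → Dart N} {a b : ℕ} {u v : ZMod N} (h : jB f a b u v) : jB f a b v u := by
  obtain ⟨m, h1, h2, h3⟩ := h
  exact ⟨m, h1, h2, h3.symm⟩

/-- moving a junction by a reversal; the interval `(a,b)` contains `i, j` or is disjoint from
`[i,j]` -/
lemma jB_rv_of {r : ZMod N → W} {f : ℕ → Dart N} (h : Tour r f) {i j a b : ℕ} (h0 : 0 < i)
    (hij : i ≤ j) (hj : j < N) (hr : r (jn f i).2 = r (jn f j).2)
    (hab : (a < i ∧ j < b) ∨ j ≤ a ∨ b ≤ i) (_hb : b ≤ N) {u v : ZMod N}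
    (hu : r u ≠ r (jn f i).2) (hJ : jB f a b u v) : jB (Semi.rv i j f) a b u v := by
  rcases Nat.eq_or_lt_of_le hij with rfl | hij
  · rwa [rv_self]
  obtain ⟨m, h1, h2, h3⟩ := hJ
  have hmi : m ≠ i := by
    rintro rfl
    have hl := h.link m (by omega) (by omega)
    rcases h3 with h3 | h3
    · apply hu; rw [← hl, h3]
    · apply hu; rw [h3]
  have hmj : m ≠ j := by
    rintro rfl
    have hl := h.link m (by omega) (by omega)
    rcases h3 with h3 | h3
    · apply hu; rw [hr, ← hl, h3]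
    · apply hu; rw [hr, h3]
  by_cases hin : i < m ∧ m < j
  · refine ⟨i + j - m, by omega, by omega, ?_⟩
    rw [jn_rv_in _ (by omega) (by omega)]
    have e : i + j - (i + j - m) = m := by omega
    rw [e]
    rcases h3 with h3 | h3
    · right; rw [h3]
    · left; rw [h3]
  · refine ⟨m, h1, h2, ?_⟩
    rw [jn_rv_out _ h0 (by omega)]
    exact h3

lemma jB_rv_iff {r : ZMod N → W} {f : ℕ → Dart N} (h : Tour r f) {i j a b : ℕ} (h0 : 0 < i)
    (hij : i ≤ j) (hj : j < N) (hr : r (jn f i).2 = r (jn f j).2)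
    (hab : (a < i ∧ j < b) ∨ j ≤ a ∨ b ≤ i) (hb : b ≤ N) {u v : ZMod N}
    (hu : r u ≠ r (jn f i).2) : jB (Semi.rv i j f) a b u v ↔ jB f a b u v := by
  constructor
  · intro hJ
    rcases Nat.eq_or_lt_of_le hij with rfl | hij'
    · rwa [rv_self] at hJ
    have h' := h.rv h0 hij hj hr
    have := jB_rv_of h' h0 hij hj (f := Semi.rv i j f) (a := a) (b := b) (u := u) (v := v) ?_ hab hb
      ?_ hJ
    · rwa [rv_rv] at this
    · rw [jn_rv_left _ h0 hij', jn_rv_right _ hij']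
      simp only
      rw [h.link j (by omega) hj]
    · rw [jn_rv_left _ h0 hij']
      simp only
      rwa [h.link j (by omega) hj, ← hr]
  · exact jB_rv_of h h0 hij hj hr hab hb hu

/-! ### incidences -/

lemma inc_iff (a : Dart N) (v : ZMod N) : (tl a = v ∨ hd a = v) ↔ (a.1 = v ∨ a.1 = v - 1) := by
  rcases a with ⟨a, b⟩
  cases b <;> simp only [tl, hd, eq_sub_iff_add_eq] <;> simp <;> tauto

lemma Tour.three_inc {r : ZMod N → W} {f : ℕ → Dart N} (h : Tour r f) {a b c : ℕ} (ha : a < N)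
    (hb : b < N) (hc : c < N) {v : ZMod N} (h1 : tl (f a) = v ∨ hd (f a) = v)
    (h2 : tl (f b) = v ∨ hd (f b) = v) (h3 : tl (f c) = v ∨ hd (f c) = v) :
    a = b ∨ b = c ∨ a = c := by
  rw [inc_iff] at h1 h2 h3
  rcases h1 with h1 | h1 <;> rcases h2 with h2 | h2 <;> rcases h3 with h3 | h3
  · exact Or.inl (h.inj _ _ ha hb (h1.trans h2.symm))
  · exact Or.inl (h.inj _ _ ha hb (h1.trans h2.symm))
  · exact Or.inr (Or.inr (h.inj _ _ ha hc (h1.trans h3.symm)))
  · exact Or.inr (Or.inl (h.inj _ _ hb hc (h2.trans h3.symm)))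
  · exact Or.inr (Or.inl (h.inj _ _ hb hc (h2.trans h3.symm)))
  · exact Or.inr (Or.inr (h.inj _ _ ha hc (h1.trans h3.symm)))
  · exact Or.inl (h.inj _ _ ha hb (h1.trans h2.symm))
  · exact Or.inl (h.inj _ _ ha hb (h1.trans h2.symm))

lemma Tour.ex_dart [NeZero N] {r : ZMod N → W} {f : ℕ → Dart N} (h : Tour r f) (a : ZMod N) :
    ∃ m, m < N ∧ (f m).1 = a := by
  have hinj : Function.Injective (fun m : Fin N => (f m).1) := by
    intro m m' he
    exact Fin.ext (h.inj _ _ m.2 m'.2 he)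
  have hbij : Function.Bijective (fun m : Fin N => (f m).1) := by
    rw [Fintype.bijective_iff_injective_and_card]
    exact ⟨hinj, by simp [ZMod.card]⟩
  obtain ⟨m, hm⟩ := hbij.2 a
  exact ⟨m, m.2, hm⟩

/-- an incidence of a dart with `v ≠ 0` lies at a junction -/
lemma Tour.junction {r : ZMod N → W} {f : ℕ → Dart N} (h : Tour r f) {a : ℕ} (ha : a < N)
    {v : ZMod N} (hv : v ≠ 0) (h1 : tl (f a) = v ∨ hd (f a) = v) :
    ∃ m, 0 < m ∧ m < N ∧ ((m = a ∧ (jn f m).2 = v) ∨ (m = a + 1 ∧ (jn f m).1 = v)) := by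
  rcases h1 with h1 | h1
  · refine ⟨a, ?_, ha, Or.inl ⟨rfl, h1⟩⟩
    rcases Nat.eq_zero_or_pos a with h0 | h0
    · subst h0
      rw [h.start] at h1
      exact absurd h1.symm hv
    · exact h0
  · refine ⟨a + 1, by omega, ?_, Or.inr ⟨rfl, by simpa [jn] using h1⟩⟩
    by_contra hc
    have : a = N - 1 := by omega
    subst this
    rw [h.stop] at h1
    exact hv h1.symm

/-- two distinct darts at every vertex -/
lemma Tour.two_inc [NeZero N] (hN : 2 ≤ N) {r : ZMod N → W} {f : ℕ → Dart N} (h : Tour r f)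
    (v : ZMod N) : ∃ a b, a < b ∧ b < N ∧ (tl (f a) = v ∨ hd (f a) = v) ∧
      (tl (f b) = v ∨ hd (f b) = v) ∧ (((f a).1 = v ∧ (f b).1 = v - 1) ∨
        ((f a).1 = v - 1 ∧ (f b).1 = v)) := by
  obtain ⟨a, ha, ha'⟩ := h.ex_dart v
  obtain ⟨b, hb, hb'⟩ := h.ex_dart (v - 1)
  have hne : a ≠ b := by
    rintro rfl
    rw [ha'] at hb'
    have h1 : (1 : ZMod N) = 0 := by
      have := congrArg (fun x => v - x) hb'
      simpa using this.symm
    haveI : Fact (1 < N) := ⟨hN⟩
    exact one_ne_zero h1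
  rcases lt_or_gt_of_ne hne with hlt | hlt
  · exact ⟨a, b, hlt, hb, (inc_iff _ _).2 (Or.inl ha'), (inc_iff _ _).2 (Or.inr hb'),
      Or.inl ⟨ha', hb'⟩⟩
  · exact ⟨b, a, hlt, ha, (inc_iff _ _).2 (Or.inr hb'), (inc_iff _ _).2 (Or.inl ha'),
      Or.inr ⟨hb', ha'⟩⟩

/-! ### counting modulo two -/

/-- extension of a finite sequence -/
def ext (T : Fin N → Dart N) (m : ℕ) : Dart N := if h : m < N then T ⟨m, h⟩ else (0, true)

lemma ext_out (T : Fin N → Dart N) {m : ℕ} (h : N ≤ m) : ext T m = (0, true) := by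
  have : ¬ m < N := by omega
  simp [ext, this]

lemma ext_res {f : ℕ → Dart N} (h : ∀ m, N ≤ m → f m = (0, true)) :
    ext (fun m : Fin N => f m) = f := by
  funext m
  by_cases hm : m < N
  · simp [ext, hm]
  · simp [ext, hm, h m (by omega)]

lemma ext_inj {T T' : Fin N → Dart N} (h : ext T = ext T') : T = T' := by
  funext m
  have := congrFun h m
  simpa [ext] using this

/-- parity of the number of states `(f, t)` with the property `Z` -/
noncomputable def cnt [NeZero N] (Z : (ℕ → Dart N) → ℕ → Prop) : ZMod 2 :=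
  open Classical in
  (((Finset.univ : Finset ((Fin N → Dart N) × Fin N)).filter
    (fun x => Z (ext x.1) x.2)).card : ZMod 2)

/-- `f` is an extension of a finite sequence -/
def Supp (f : ℕ → Dart N) : Prop := ∀ m, N ≤ m → f m = (0, true)

lemma supp_rv {f : ℕ → Dart N} (h : Supp f) {i j : ℕ} (hj : j ≤ N) : Supp (rv i j f) := by
  intro m hm
  rw [rv_out _ (by omega)]
  exact h m hm

lemma card_eq_of_rel {α : Type*} (s t : Finset α) (R : α → α → Prop)
    (h1 : ∀ a ∈ s, ∃ b ∈ t, R a b) (h2 : ∀ b ∈ t, ∃ a ∈ s, R a b)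
    (h3 : ∀ a ∈ s, ∀ b ∈ t, ∀ b' ∈ t, R a b → R a b' → b = b')
    (h4 : ∀ a ∈ s, ∀ a' ∈ s, ∀ b ∈ t, R a b → R a' b → a = a') : s.card = t.card := by
  classical
  choose! g hg hg' using h1
  refine Finset.card_bij (fun a _ => g a) (fun a ha => hg a ha) ?_ ?_
  · intro a ha a' ha' he
    have k1 := hg' a ha
    have k2 := hg' a' ha'
    rw [← he] at k2
    exact h4 a ha a' ha' _ (hg a ha) k1 k2
  · intro b hb
    obtain ⟨a, ha, hab⟩ := h2 b hb
    exact ⟨a, ha, h3 a ha _ (hg a ha) b hb (hg' a ha) hab⟩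

lemma even_of_rel {α : Type*} (s : Finset α) (R : α → α → Prop)
    (h1 : ∀ a ∈ s, ∃ b ∈ s, R a b ∧ b ≠ a)
    (h2 : ∀ a b, R a b → R b a)
    (h3 : ∀ a b b', R a b → R a b' → b = b') : ((s.card : ℕ) : ZMod 2) = 0 := by
  classical
  choose! g hg hg' hg'' using h1
  have := Finset.sum_involution (s := s) (f := fun _ => (1 : ZMod 2)) (fun a _ => g a)
    (fun a ha => by decide) (fun a ha _ => hg'' a ha) (fun a ha => hg a ha)
    (fun a ha => by
      exact h3 (g a) _ _ (hg' (g a) (hg a ha)) (h2 _ _ (hg' a ha)))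
  simpa using this

/-- the counting principle: a relation pairing up the states in `Z` -/
lemma cnt_zero [NeZero N] (Z : (ℕ → Dart N) → ℕ → Prop)
    (R : (ℕ → Dart N) → ℕ → (ℕ → Dart N) → ℕ → Prop)
    (h1 : ∀ f t, Supp f → t < N → Z f t → ∃ f' t', Supp f' ∧ t' < N ∧ Z f' t' ∧ R f t f' t' ∧
      f' ≠ f)
    (h2 : ∀ f t f' t', R f t f' t' → R f' t' f t)
    (h3 : ∀ f t f' t' f'' t'', R f t f' t' → R f t f'' t'' → f' = f'' ∧ t' = t'') :
    cnt Z = 0 := by
  classical
  unfold cnt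
  refine even_of_rel _ (fun x y => R (ext x.1) x.2 (ext y.1) y.2) ?_ ?_ ?_
  · intro x hx
    rw [Finset.mem_filter] at hx
    obtain ⟨f', t', k1, k2, k3, k4, k5⟩ := h1 _ _ (fun m hm => ext_out _ hm) x.2.2 hx.2
    refine ⟨(fun m : Fin N => f' m, ⟨t', k2⟩), ?_, ?_, ?_⟩
    · rw [Finset.mem_filter]
      refine ⟨Finset.mem_univ _, ?_⟩
      simp only [ext_res k1]
      exact k3
    · simp only [ext_res k1]
      exact k4
    · intro he
      apply k5
      rw [← ext_res k1]
      have := congrArg Prod.fst he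
      simp only at this
      rw [this]
  · intro a b hab
    exact h2 _ _ _ _ hab
  · intro a b b' hab hab'
    obtain ⟨e1, e2⟩ := h3 _ _ _ _ _ _ hab hab'
    exact Prod.ext (ext_inj e1) (Fin.ext e2)

lemma cnt_eq [NeZero N] (Z Z' : (ℕ → Dart N) → ℕ → Prop)
    (R : (ℕ → Dart N) → ℕ → (ℕ → Dart N) → ℕ → Prop)
    (h1 : ∀ f t, Supp f → t < N → Z f t → ∃ f' t', Supp f' ∧ t' < N ∧ Z' f' t' ∧ R f t f' t')
    (h2 : ∀ f t, Supp f → t < N → Z' f t → ∃ f' t', Supp f' ∧ t' < N ∧ Z f' t' ∧ R f' t' f t)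
    (h3 : ∀ f t f' t' f'' t'', Z f t → Z' f' t' → Z' f'' t'' → R f t f' t' → R f t f'' t'' →
      f' = f'' ∧ t' = t'')
    (h4 : ∀ f t f' t' f'' t'', Z f' t' → Z f'' t'' → Z' f t → R f' t' f t → R f'' t'' f t →
      f' = f'' ∧ t' = t'') :
    cnt Z = cnt Z' := by
  classical
  unfold cnt
  congr 1
  refine card_eq_of_rel _ _ (fun x y => R (ext x.1) x.2 (ext y.1) y.2) ?_ ?_ ?_ ?_
  · intro x hx
    rw [Finset.mem_filter] at hx
    obtain ⟨f', t', k1, k2, k3, k4⟩ := h1 _ _ (fun m hm => ext_out _ hm) x.2.2 hx.2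
    refine ⟨(fun m : Fin N => f' m, ⟨t', k2⟩), ?_, ?_⟩
    · rw [Finset.mem_filter]
      refine ⟨Finset.mem_univ _, ?_⟩
      simp only [ext_res k1]
      exact k3
    · simp only [ext_res k1]
      exact k4
  · intro x hx
    rw [Finset.mem_filter] at hx
    obtain ⟨f', t', k1, k2, k3, k4⟩ := h2 _ _ (fun m hm => ext_out _ hm) x.2.2 hx.2
    refine ⟨(fun m : Fin N => f' m, ⟨t', k2⟩), ?_, ?_⟩
    · rw [Finset.mem_filter]
      refine ⟨Finset.mem_univ _, ?_⟩
      simp only [ext_res k1]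
      exact k3
    · simp only [ext_res k1]
      exact k4
  · intro a ha b hb b' hb' hab hab'
    rw [Finset.mem_filter] at ha hb hb'
    obtain ⟨e1, e2⟩ := h3 _ _ _ _ _ _ ha.2 hb.2 hb'.2 hab hab'
    exact Prod.ext (ext_inj e1) (Fin.ext e2)
  · intro a ha a' ha' b hb hab hab'
    rw [Finset.mem_filter] at ha ha' hb
    obtain ⟨e1, e2⟩ := h4 _ _ _ _ _ _ ha.2 ha'.2 hb.2 hab hab'
    exact Prod.ext (ext_inj e1) (Fin.ext e2)

lemma cnt_congr [NeZero N] {Z Z' : (ℕ → Dart N) → ℕ → Prop} (h : ∀ f t, Z f t ↔ Z' f t) :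
    cnt Z = cnt Z' := by
  have : Z = Z' := by funext f t; exact propext (h f t)
  rw [this]

/-- inclusion-exclusion in `ZMod 2` -/
lemma cnt_split [NeZero N] (Z P : (ℕ → Dart N) → ℕ → Prop) :
    cnt Z = cnt (fun f t => Z f t ∧ P f t) + cnt (fun f t => Z f t ∧ ¬ P f t) := by
  classical
  unfold cnt
  rw [← Nat.cast_add, ← Finset.card_union_of_disjoint]
  · congr 2
    ext x
    simp only [Finset.mem_filter, Finset.mem_union, Finset.mem_univ, true_and]
    tauto
  · rw [Finset.disjoint_left]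
    intro x hx hx'
    simp only [Finset.mem_filter, Finset.mem_univ, true_and] at hx hx'
    exact hx'.2 hx.2

end Pool.Agent.H41.Semi
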