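import Pool.Agent.H41.Semi.Circle

/-! Rules at classes, and the first two counting steps. -/

namespace Pool.Agent.H41.Semi

open Finset

variable {N : ℕ} {W : Type*}

lemma cnt_xor [NeZero N] (A P Q : (ℕ → Dart N) → ℕ → Prop) :
    cnt (fun f t => A f t ∧ P f t) + cnt (fun f t => A f t ∧ Q f t)
      = cnt (fun f t => A f t ∧ ¬ (P f t ↔ Q f t)) := by
  have h1 := cnt_split (fun f t => A f t ∧ P f t) Q
  have h2 := cnt_split (fun f t => A f t ∧ Q f t) P
  have h3 := cnt_split (fun f t => A f t ∧ ¬ (P f t ↔ Q f t)) P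
  rw [h1, h2, h3]
  have e1 : cnt (fun f t => (A f t ∧ Q f t) ∧ P f t) = cnt (fun f t => (A f t ∧ P f t) ∧ Q f t) :=
    cnt_congr (fun f t => by tauto)
  have e2 : cnt (fun f t => (A f t ∧ ¬ (P f t ↔ Q f t)) ∧ P f t)
      = cnt (fun f t => (A f t ∧ P f t) ∧ ¬ Q f t) :=
    cnt_congr (fun f t => by tauto)
  have e3 : cnt (fun f t => (A f t ∧ ¬ (P f t ↔ Q f t)) ∧ ¬ P f t)
      = cnt (fun f t => (A f t ∧ Q f t) ∧ ¬ P f t) :=
    cnt_congr (fun f t => by tauto)
  rw [e1, e2, e3]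
  have : ∀ a : ZMod 2, a + a = 0 := by decide
  linear_combination this (cnt (fun f t => (A f t ∧ P f t) ∧ Q f t))

/-- a tour together with the position of the mark `q` -/
structure St (r : ZMod N → W) (q : ZMod N) (f : ℕ → Dart N) (t : ℕ) : Prop where
  tour : Tour r f
  pos : 0 < t
  lt : t < N
  atq : (jn f t).2 = q

/-- no transition change at class `k` -/
def Xr (r : ZMod N → W) (f : ℕ → Dart N) (k : W) : Prop :=
  ∀ u v, r u = k → jB f 0 N u v → u = v

/-- all visits of class `k` on one side of the position `t` -/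
def Same (r : ZMod N → W) (f : ℕ → Dart N) (t : ℕ) (k : W) : Prop :=
  (∀ u v, r u = k → ¬ jB f t N u v) ∨ (∀ u v, r u = k → ¬ jB f 0 t u v)

/-- first and last visit of class `k` -/
structure Ends (r : ZMod N → W) (f : ℕ → Dart N) (k : W) (i j : ℕ) : Prop where
  i0 : 0 < i
  ij : i < j
  jN : j < N
  ri : r (jn f i).2 = k
  rj : r (jn f j).2 = k
  bd : ∀ m, 0 < m → m < N → r (jn f m).2 = k → i ≤ m ∧ m ≤ j

lemma Ends.unique {r : ZMod N → W} {f : ℕ → Dart N} {k : W} {i j i' j' : ℕ}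
    (h : Ends r f k i j) (h' : Ends r f k i' j') : i = i' ∧ j = j' := by
  have a1 := h.bd i' h'.i0 (h'.ij.trans h'.jN) h'.ri
  have a2 := h.bd j' (h'.i0.trans h'.ij) h'.jN h'.rj
  have a3 := h'.bd i h.i0 (h.ij.trans h.jN) h.ri
  have a4 := h'.bd j (h.i0.trans h.ij) h.jN h.rj
  omega

lemma Ends.rv {r : ZMod N → W} {f : ℕ → Dart N} {k : W} {i j : ℕ} (hf : Tour r f)
    (h : Ends r f k i j) : Ends r (rv i j f) k i j := by
  refine ⟨h.i0, h.ij, h.jN, ?_, ?_, ?_⟩
  · rw [jn_rv_left _ h.i0 h.ij]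
    simp only
    rw [hf.link j (h.i0.trans h.ij) h.jN, h.rj]
  · rw [jn_rv_right _ h.ij]
    exact h.rj
  · intro m hm0 hmN hr
    by_contra hc
    have hout : m < i ∨ j < m := by omega
    rw [jn_rv_out _ h.i0 hout] at hr
    exact hc (h.bd m hm0 hmN hr)

lemma hd_ne_tl (hN : 2 ≤ N) (a : Dart N) : hd a ≠ tl a := by
  have : Fact (1 < N) := ⟨hN⟩
  rcases a with ⟨a, b⟩
  cases b <;> simp [hd, tl]

/-- one of the two sides of the junction at `m` is `x` -/
def slot (f : ℕ → Dart N) (x : ZMod N) (m : ℕ) (s : Bool) : Prop :=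
  0 < m ∧ m < N ∧ (if s then (jn f m).2 = x else (jn f m).1 = x)

/-- the dart of a slot -/
def sd (m : ℕ) (s : Bool) : ℕ := if s then m else m - 1

lemma slot_dart {f : ℕ → Dart N} {x : ZMod N} {m : ℕ} {s : Bool} (h : slot f x m s) :
    sd m s < N ∧ (tl (f (sd m s)) = x ∨ hd (f (sd m s)) = x) := by
  obtain ⟨h0, hN, h⟩ := h
  cases s
  · simp only [sd, Bool.false_eq_true, if_false] at h ⊢
    exact ⟨by omega, Or.inr h⟩
  · simp only [sd, if_true] at h ⊢
    exact ⟨by omega, Or.inl h⟩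

lemma slot_inj (hN : 2 ≤ N) {f : ℕ → Dart N} {x : ZMod N} {m m' : ℕ} {s s' : Bool}
    (h : slot f x m s) (h' : slot f x m' s') (he : sd m s = sd m' s') : m = m' ∧ s = s' := by
  obtain ⟨h0, h1, h2⟩ := h
  obtain ⟨h0', h1', h2'⟩ := h'
  cases s <;> cases s' <;> simp only [sd, Bool.false_eq_true, if_false, if_true, jn] at *
  · exact ⟨by omega, trivial⟩
  · exfalso
    rw [he] at h2
    exact hd_ne_tl hN _ (h2.trans h2'.symm)
  · exfalso
    rw [← he] at h2'
    exact hd_ne_tl hN _ (h2'.trans h2.symm)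
  · exact ⟨he, trivial⟩

lemma three_slots (hN : 2 ≤ N) {r : ZMod N → W} {f : ℕ → Dart N} (h : Tour r f) {x : ZMod N}
    {m1 m2 m3 : ℕ} {s1 s2 s3 : Bool} (h1 : slot f x m1 s1) (h2 : slot f x m2 s2)
    (h3 : slot f x m3 s3) : (m1 = m2 ∧ s1 = s2) ∨ (m2 = m3 ∧ s2 = s3) ∨ (m1 = m3 ∧ s1 = s3) := by
  have d1 := slot_dart h1
  have d2 := slot_dart h2
  have d3 := slot_dart h3
  rcases h.three_inc d1.1 d2.1 d3.1 d1.2 d2.2 d3.2 with e | e | e
  · exact Or.inl (slot_inj hN h1 h2 e)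
  · exact Or.inr (Or.inl (slot_inj hN h2 h3 e))
  · exact Or.inr (Or.inr (slot_inj hN h1 h3 e))

/-- every vertex `≠ 0` has exactly two slots -/
lemma two_slots [NeZero N] (hN : 2 ≤ N) {r : ZMod N → W} {f : ℕ → Dart N} (h : Tour r f)
    {x : ZMod N} (hx : x ≠ 0) : ∃ m1 s1 m2 s2, slot f x m1 s1 ∧ slot f x m2 s2 ∧
      sd m1 s1 < sd m2 s2 ∧ (((f (sd m1 s1)).1 = x ∧ (f (sd m2 s2)).1 = x - 1) ∨
        ((f (sd m1 s1)).1 = x - 1 ∧ (f (sd m2 s2)).1 = x)) := by
  obtain ⟨a, b, hab, hb, ha', hb', hc⟩ := h.two_inc hN x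
  obtain ⟨m1, k1, k2, k3⟩ := h.junction (hab.trans hb) hx ha'
  obtain ⟨m2, l1, l2, l3⟩ := h.junction hb hx hb'
  have key : ∀ {m c : ℕ}, 0 < m → m < N → ((m = c ∧ (jn f m).2 = x) ∨ (m = c + 1 ∧ (jn f m).1 = x)) →
      ∃ s, slot f x m s ∧ sd m s = c := by
    intro m c hm0 hmN hh
    rcases hh with ⟨e1, e2⟩ | ⟨e1, e2⟩
    · exact ⟨true, ⟨hm0, hmN, by simpa using e2⟩, by simp [sd, e1]⟩
    · exact ⟨false, ⟨hm0, hmN, by simpa using e2⟩, by simp [sd, e1]⟩
  obtain ⟨s1, p1, p2⟩ := key k1 k2 k3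
  obtain ⟨s2, p3, p4⟩ := key l1 l2 l3
  refine ⟨m1, s1, m2, s2, p1, p3, by omega, ?_⟩
  rw [p2, p4]
  exact hc

lemma slot_class {r : ZMod N → W} {f : ℕ → Dart N} (h : Tour r f) {x : ZMod N} {m : ℕ} {s : Bool}
    (hs : slot f x m s) : r (jn f m).2 = r x := by
  obtain ⟨h0, h1, h2⟩ := hs
  cases s
  · simp only [Bool.false_eq_true, if_false] at h2
    rw [← h.link m h0 h1, h2]
  · simp only [if_true] at h2
    rw [h2]

lemma ex_ends [NeZero N] (hN : 2 ≤ N) {r : ZMod N → W} {f : ℕ → Dart N} (h : Tour r f)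
    {x y : ZMod N} (hx : x ≠ 0) (hy : y ≠ 0) (hxy : x ≠ y) (hr : r x = r y) :
    ∃ i j, Ends r f (r x) i j := by
  classical
  obtain ⟨m1, s1, m2, s2, k1, k2, k3, -⟩ := two_slots hN h hx
  obtain ⟨n1, t1, n2, t2, l1, l2, l3, -⟩ := two_slots hN h hy
  set P : Finset ℕ := (Finset.range N).filter (fun m => 0 < m ∧ r (jn f m).2 = r x) with hP
  have c1 : m1 ∈ P := by
    rw [hP, Finset.mem_filter, Finset.mem_range]; exact ⟨k1.2.1, k1.1, slot_class h k1⟩
  have c2 : m2 ∈ P := by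
    rw [hP, Finset.mem_filter, Finset.mem_range]; exact ⟨k2.2.1, k2.1, slot_class h k2⟩
  have c3 : n1 ∈ P := by
    rw [hP, Finset.mem_filter, Finset.mem_range]
    exact ⟨l1.2.1, l1.1, by rw [hr]; exact slot_class h l1⟩
  have c4 : n2 ∈ P := by
    rw [hP, Finset.mem_filter, Finset.mem_range]
    exact ⟨l2.2.1, l2.1, by rw [hr]; exact slot_class h l2⟩
  have hne : P.Nonempty := ⟨m1, c1⟩
  have hmin := Finset.min'_mem P hne
  have hmax := Finset.max'_mem P hne
  have hle : ∀ m ∈ P, P.min' hne ≤ m ∧ m ≤ P.max' hne := fun m hm =>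
    ⟨Finset.min'_le _ _ hm, Finset.le_max' _ _ hm⟩
  have hlt : P.min' hne < P.max' hne := by
    by_contra hc
    have e : ∀ m ∈ P, m = P.min' hne := by
      intro m hm
      have := hle m hm
      have := hle _ hmax
      omega
    have e1 := e _ c1
    have e2 := e _ c2
    have e3 := e _ c3
    have e4 := e _ c4
    rw [← e1] at e2 e3 e4
    rw [e2] at k2 k3
    rw [e3] at l1 l3
    rw [e4] at l2 l3
    have a1 : s1 = false := by
      cases s1
      · rfl
      · exfalso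
        cases s2 <;> simp [sd] at k3
        omega
    have a2 : t1 = false := by
      cases t1
      · rfl
      · exfalso
        cases t2 <;> simp [sd] at l3
        omega
    subst a1 a2
    apply hxy
    have b1 := k1.2.2
    have b2 := l1.2.2
    simp only [Bool.false_eq_true, if_false] at b1 b2
    exact b1.symm.trans b2
  simp only [hP, Finset.mem_filter, Finset.mem_range] at hmin hmax
  refine ⟨P.min' hne, P.max' hne, hmin.2.1, hlt, hmax.1, hmin.2.2, hmax.2.2, ?_⟩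
  intro m hm0 hmN hr'
  exact hle m (by rw [hP, Finset.mem_filter, Finset.mem_range]; exact ⟨hmN, hm0, hr'⟩)

/-- the new position of the mark after a reversal -/
def mv (i j t : ℕ) : ℕ := if i < t ∧ t < j then i + j - t else t

lemma mv_mv (i j t : ℕ) : mv i j (mv i j t) = t := by
  unfold mv
  split_ifs <;> omega

lemma St.rv {r : ZMod N → W} {q : ZMod N} (hrq : ∀ v, r v = r q → v = q) {f : ℕ → Dart N} {t : ℕ}
    (h : St r q f t) {i j : ℕ} (h0 : 0 < i) (hij : i < j) (hj : j < N)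
    (hr : r (jn f i).2 = r (jn f j).2) (hti : t ≠ i) (htj : t ≠ j) :
    St r q (rv i j f) (mv i j t) := by
  refine ⟨h.tour.rv h0 hij.le hj hr, ?_, ?_, ?_⟩
  · unfold mv
    have := h.pos
    split_ifs <;> omega
  · unfold mv
    have := h.lt
    split_ifs <;> omega
  · unfold mv
    split_ifs with hc
    · rw [jn_rv_in _ (by omega) (by omega)]
      have e : i + j - (i + j - t) = t := by omega
      rw [e]
      simp only
      apply hrq
      rw [h.tour.link t h.pos h.lt, h.atq]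
    · rw [jn_rv_out _ h0 (by omega)]
      exact h.atq

lemma rv_ne {r : ZMod N → W} {f : ℕ → Dart N} (h : Tour r f) {i j : ℕ} (hij : i < j)
    (hj : j < N) : rv i j f ≠ f := by
  intro he
  have h1 := congrFun he i
  rw [rv_in _ (le_refl _) hij] at h1
  have h2 := congrArg Prod.fst h1
  rw [fl_fst] at h2
  have h3 := h.inj _ _ (by omega) (by omega) h2
  have e : i + j - 1 - i = i := by omega
  rw [e] at h1
  exact fl_ne _ h1

/-- first counting step: visits of `k` on one side, an even number -/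
lemma cnt_same [NeZero N] (hN : 2 ≤ N) (r : ZMod N → W) (q : ZMod N)
    (hrq : ∀ v, r v = r q → v = q)
    {x y : ZMod N} (hx : x ≠ 0) (hy : y ≠ 0) (hxy : x ≠ y) (hr : r x = r y)
    (hxq : x ≠ q) (Z : (ℕ → Dart N) → ℕ → Prop)
    (hZ : ∀ f t i j, St r q f t → 0 < i → i < j → j < N → r (jn f i).2 = r x →
      r (jn f j).2 = r x → (j < t ∨ t < i) → Z f t → Z (rv i j f) t) :
    cnt (fun f t => (St r q f t ∧ Z f t) ∧ Same r f t (r x)) = 0 := by
  have hkq : r x ≠ r q := fun h => hxq (hrq x h)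
  apply cnt_zero _ (fun f t f' t' => ∃ i j, Tour r f ∧ Ends r f (r x) i j ∧ (j < t ∨ t < i) ∧
    f' = rv i j f ∧ t' = t)
  · rintro f t hsupp ht ⟨⟨hst, hz⟩, hsame⟩
    obtain ⟨i, j, he⟩ := ex_ends hN hst.tour hx hy hxy hr
    have n1 : t ≠ i := by
      rintro rfl; exact hkq (by rw [← he.ri, hst.atq])
    have n2 : t ≠ j := by
      rintro rfl; exact hkq (by rw [← he.rj, hst.atq])
    have hij : j < t ∨ t < i := by
      rcases hsame with hs | hs
      · left
        by_contra hc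
        apply hs (jn f j).2 (jn f j).1 he.rj
        exact ⟨j, by omega, he.jN, Or.inr rfl⟩
      · right
        by_contra hc
        apply hs (jn f i).2 (jn f i).1 he.ri
        exact ⟨i, he.i0, by omega, Or.inr rfl⟩
    have hr' : r (jn f i).2 = r (jn f j).2 := he.ri.trans he.rj.symm
    have hst' := hst.rv hrq he.i0 he.ij he.jN hr' n1 n2
    have hmv : mv i j t = t := by unfold mv; split_ifs <;> omega
    rw [hmv] at hst'
    refine ⟨rv i j f, t, supp_rv hsupp he.jN.le, ht, ⟨⟨hst', ?_⟩, ?_⟩, ?_,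
      rv_ne hst.tour he.ij he.jN⟩
    · exact hZ f t i j hst he.i0 he.ij he.jN he.ri he.rj hij hz
    · have he' := he.rv hst.tour
      rcases hij with hij | hij
      · left
        rintro u v hu ⟨m, m1, m2, m3⟩
        have hm : r (jn (rv i j f) m).2 = r x := by
          rcases m3 with m3 | m3
          · rw [← hst'.tour.link m (by omega) m2, m3]; exact hu
          · rw [m3]; exact hu
        have := he'.bd m (by omega) m2 hm
        omega
      · right
        rintro u v hu ⟨m, m1, m2, m3⟩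
        have hm : r (jn (rv i j f) m).2 = r x := by
          rcases m3 with m3 | m3
          · rw [← hst'.tour.link m (by omega) (by omega), m3]; exact hu
          · rw [m3]; exact hu
        have := he'.bd m (by omega) (by omega) hm
        omega
    · exact ⟨i, j, hst.tour, he, hij, rfl, rfl⟩
  · rintro f t f' t' ⟨i, j, h1, h2, h3, rfl, rfl⟩
    exact ⟨i, j, h1.rv h2.i0 h2.ij.le h2.jN (h2.ri.trans h2.rj.symm), h2.rv h1, h3,
      (rv_rv i j f).symm, rfl⟩
  · rintro f t f' t' f'' t'' ⟨i, j, h1, h2, h3, rfl, rfl⟩ ⟨i', j', h1', h2', h3', rfl, rfl⟩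
    obtain ⟨rfl, rfl⟩ := h2.unique h2'
    exact ⟨rfl, rfl⟩

/-- second counting step: all tours, an even number -/
lemma cnt_all [NeZero N] (hN : 2 ≤ N) (r : ZMod N → W) (q : ZMod N)
    (hrq : ∀ v, r v = r q → v = q)
    {x y : ZMod N} (hx : x ≠ 0) (hy : y ≠ 0) (hxy : x ≠ y) (hr : r x = r y)
    (hxq : x ≠ q) (Z : (ℕ → Dart N) → Prop)
    (hZ : ∀ f i j, Tour r f → 0 < i → i < j → j < N → r (jn f i).2 = r x →
      r (jn f j).2 = r x → Z f → Z (rv i j f)) :
    cnt (fun f t => St r q f t ∧ Z f) = 0 := by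
  have hkq : r x ≠ r q := fun h => hxq (hrq x h)
  apply cnt_zero _ (fun f t f' t' => ∃ i j, Tour r f ∧ Ends r f (r x) i j ∧
    f' = rv i j f ∧ t' = mv i j t)
  · rintro f t hsupp ht ⟨hst, hz⟩
    obtain ⟨i, j, he⟩ := ex_ends hN hst.tour hx hy hxy hr
    have n1 : t ≠ i := by
      rintro rfl; exact hkq (by rw [← he.ri, hst.atq])
    have n2 : t ≠ j := by
      rintro rfl; exact hkq (by rw [← he.rj, hst.atq])
    have hr' : r (jn f i).2 = r (jn f j).2 := he.ri.trans he.rj.symm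
    have hst' := hst.rv hrq he.i0 he.ij he.jN hr' n1 n2
    exact ⟨rv i j f, mv i j t, supp_rv hsupp he.jN.le, hst'.lt, ⟨hst',
      hZ f i j hst.tour he.i0 he.ij he.jN he.ri he.rj hz⟩, ⟨i, j, hst.tour, he, rfl, rfl⟩,
      rv_ne hst.tour he.ij he.jN⟩
  · rintro f t f' t' ⟨i, j, h1, h2, rfl, rfl⟩
    exact ⟨i, j, h1.rv h2.i0 h2.ij.le h2.jN (h2.ri.trans h2.rj.symm), h2.rv h1,
      (rv_rv i j f).symm, (mv_mv i j t).symm⟩
  · rintro f t f' t' f'' t'' ⟨i, j, h1, h2, rfl, rfl⟩ ⟨i', j', h1', h2', rfl, rfl⟩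
    obtain ⟨rfl, rfl⟩ := h2.unique h2'
    exact ⟨rfl, rfl⟩

end Pool.Agent.H41.Semi
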