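import Pool.Agent.H41.Semi.Circle2

/-! The counting step for the large class. -/

namespace Pool.Agent.H41.Semi

open Finset

variable {N : ℕ} {W : Type*}

/-- the class `b` is used by the pair at the junctions `i < t < j` -/
structure UsedAt (r : ZMod N → W) (f : ℕ → Dart N) (t : ℕ) (b : W) (i j : ℕ) : Prop where
  i0 : 0 < i
  it : i < t
  tj : t < j
  jN : j < N
  ri : r (jn f i).2 = b
  rj : r (jn f j).2 = b
  onlyJ : ∀ m, t < m → m < N → r (jn f m).2 = b → m = j
  trivD : ∀ m, 0 < m → m < t → m ≠ i → r (jn f m).2 = b → (jn f m).1 = (jn f m).2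
  ne : (jn f i).1 ≠ (jn f i).2

/-- last visits of the class `b` before `t` and after `t` -/
structure LastAt (r : ZMod N → W) (f : ℕ → Dart N) (t : ℕ) (b : W) (i j : ℕ) : Prop where
  i0 : 0 < i
  it : i < t
  tj : t < j
  jN : j < N
  ri : r (jn f i).2 = b
  rj : r (jn f j).2 = b
  gapD : ∀ m, i < m → m < t → r (jn f m).2 ≠ b
  gapJ : ∀ m, j < m → m < N → r (jn f m).2 ≠ b

lemma UsedAt.unique {r : ZMod N → W} {f : ℕ → Dart N} {t : ℕ} {b : W} {i j i' j' : ℕ}
    (h : UsedAt r f t b i j) (h' : UsedAt r f t b i' j') : i = i' ∧ j = j' := by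
  refine ⟨?_, ?_⟩
  · by_contra hc
    exact h.ne (h'.trivD i h.i0 h.it hc h.ri)
  · exact h'.onlyJ j h.tj h.jN h.rj

lemma LastAt.unique {r : ZMod N → W} {f : ℕ → Dart N} {t : ℕ} {b : W} {i j i' j' : ℕ}
    (h : LastAt r f t b i j) (h' : LastAt r f t b i' j') : i = i' ∧ j = j' := by
  refine ⟨?_, ?_⟩
  · rcases lt_trichotomy i i' with hc | hc | hc
    · exact absurd h'.ri (h.gapD i' hc h'.it)
    · exact hc
    · exact absurd h.ri (h'.gapD i hc h.it)
  · rcases lt_trichotomy j j' with hc | hc | hc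
    · exact absurd h'.rj (h.gapJ j' hc h'.jN)
    · exact hc
    · exact absurd h.rj (h'.gapJ j hc h.jN)

/-- no transition change at `b`, in terms of positions -/
def XP (r : ZMod N → W) (f : ℕ → Dart N) (b : W) : Prop :=
  ∀ m, 0 < m → m < N → r (jn f m).2 = b → (jn f m).1 = (jn f m).2

lemma Xr_iff {r : ZMod N → W} {f : ℕ → Dart N} (h : Tour r f) {b : W} :
    Xr r f b ↔ XP r f b := by
  constructor
  · intro hx m h0 h1 h2
    refine hx _ _ ?_ ⟨m, h0, h1, Or.inl rfl⟩
    rw [h.link m h0 h1, h2]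
  · rintro hx u v hu ⟨m, h0, h1, h2⟩
    rcases h2 with h2 | h2
    · have := hx m h0 h1 (by rw [← h.link m h0 h1, h2]; exact hu)
      rw [h2] at this; exact this
    · have := hx m h0 h1 (by rw [h2]; exact hu)
      rw [h2] at this; exact this.symm

lemma Same_iff {r : ZMod N → W} {f : ℕ → Dart N} (h : Tour r f) {b : W} {t : ℕ} (ht : t < N) :
    Same r f t b ↔ ((∀ m, t < m → m < N → r (jn f m).2 ≠ b) ∨
      (∀ m, 0 < m → m < t → r (jn f m).2 ≠ b)) := by
  unfold Same
  constructor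
  · rintro (hs | hs)
    · left
      intro m h0 h1 h2
      exact hs _ _ h2 ⟨m, h0, h1, Or.inr rfl⟩
    · right
      intro m h0 h1 h2
      exact hs _ _ h2 ⟨m, h0, h1, Or.inr rfl⟩
  · rintro (hs | hs)
    · left
      rintro u v hu ⟨m, h0, h1, h2⟩
      apply hs m h0 h1
      rcases h2 with h2 | h2
      · rw [← h.link m (by omega) h1, h2]; exact hu
      · rw [h2]; exact hu
    · right
      rintro u v hu ⟨m, h0, h1, h2⟩
      apply hs m h0 h1
      rcases h2 with h2 | h2
      · rw [← h.link m (by omega) (by omega), h2]; exact hu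
      · rw [h2]; exact hu

lemma ex_lastAt {r : ZMod N → W} {f : ℕ → Dart N} (h : Tour r f) {b : W} {t : ℕ} (ht : t < N)
    (hs : ¬ Same r f t b) : ∃ i j, LastAt r f t b i j := by
  classical
  rw [Same_iff h ht] at hs
  push Not at hs
  obtain ⟨⟨m, m1, m2, m3⟩, ⟨n, n1, n2, n3⟩⟩ := hs
  set P : Finset ℕ := (Finset.range N).filter (fun k => t < k ∧ r (jn f k).2 = b) with hP
  set Q : Finset ℕ := (Finset.range t).filter (fun k => 0 < k ∧ r (jn f k).2 = b) with hQ
  have hPn : P.Nonempty := ⟨m, by rw [hP, Finset.mem_filter, Finset.mem_range]; exact ⟨m2, m1, m3⟩⟩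
  have hQn : Q.Nonempty := ⟨n, by rw [hQ, Finset.mem_filter, Finset.mem_range]; exact ⟨n2, n1, n3⟩⟩
  have p1 := Finset.max'_mem P hPn
  have q1 := Finset.max'_mem Q hQn
  have p2 : ∀ k ∈ P, k ≤ P.max' hPn := fun k hk => Finset.le_max' _ _ hk
  have q2 : ∀ k ∈ Q, k ≤ Q.max' hQn := fun k hk => Finset.le_max' _ _ hk
  simp only [hP, Finset.mem_filter, Finset.mem_range] at p1 p2
  simp only [hQ, Finset.mem_filter, Finset.mem_range] at q1 q2
  refine ⟨Q.max' hQn, P.max' hPn, q1.2.1, q1.1, p1.2.1, p1.1, q1.2.2, p1.2.2, ?_, ?_⟩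
  · intro k k1 k2 k3
    have := q2 k ⟨k2, by omega, k3⟩
    simp only [hQ] at k1
    omega
  · intro k k1 k2 k3
    have := p2 k ⟨k2, by simp only [hP] at k1; omega, k3⟩
    simp only [hP] at k1
    omega

lemma type1_to_triv {r : ZMod N → W} {f : ℕ → Dart N} (h : Tour r f) {t : ℕ} {b : W} {i j : ℕ}
    (hu : UsedAt r f t b i j) (hty : jn f j = jn f i) (ht : r (jn f t).2 ≠ b) :
    XP r (rv i j f) b ∧ LastAt r (rv i j f) (i + j - t) b i j := by
  have ij : i < j := hu.it.trans hu.tj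
  have h0 := hu.i0
  have hjN := hu.jN
  have hit := hu.it
  have htj := hu.tj
  have key : ∀ m, i < m → m < j → r (jn (rv i j f) m).2 = b → t < m + 1 → False ∨
      (i + j - m < t ∧ r (jn f (i + j - m)).2 = b) := by
    intro m m1 m2 m3 _
    rw [jn_rv_in _ m1 m2] at m3
    simp only at m3
    rw [h.link _ (by omega) (by omega)] at m3
    rcases lt_trichotomy (i + j - m) t with hc | hc | hc
    · exact Or.inr ⟨hc, m3⟩
    · rw [hc] at m3; exact absurd m3 ht
    · have := hu.onlyJ _ hc (by omega) m3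
      omega
  have key2 : ∀ m, i < m → m < j → r (jn (rv i j f) m).2 = b →
      (i + j - m < t ∧ r (jn f (i + j - m)).2 = b) := by
    intro m m1 m2 m3
    rw [jn_rv_in _ m1 m2] at m3
    simp only at m3
    rw [h.link _ (by omega) (by omega)] at m3
    rcases lt_trichotomy (i + j - m) t with hc | hc | hc
    · exact ⟨hc, m3⟩
    · rw [hc] at m3; exact absurd m3 ht
    · have := hu.onlyJ _ hc (by omega) m3
      omega
  constructor
  · intro m m0 mN mb
    rcases lt_trichotomy m i with hc | hc | hc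
    · rw [jn_rv_out _ h0 (Or.inl hc)] at mb ⊢
      exact hu.trivD m m0 (by omega) (by omega) mb
    · subst hc
      rw [jn_rv_left _ h0 ij, hty]
    · rcases lt_trichotomy m j with hc' | hc' | hc'
      · obtain ⟨k1, k2⟩ := key2 m hc hc' mb
        rw [jn_rv_in _ hc hc']
        exact (hu.trivD _ (by omega) k1 (by omega) k2).symm
      · subst hc'
        rw [jn_rv_right _ ij, hty]
      · rw [jn_rv_out _ h0 (Or.inr hc')] at mb
        have := hu.onlyJ m (by omega) mN mb
        omega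
  · refine ⟨h0, by omega, by omega, hjN, ?_, ?_, ?_, ?_⟩
    · rw [jn_rv_left _ h0 ij]
      simp only
      rw [h.link _ (by omega) hjN, hu.rj]
    · rw [jn_rv_right _ ij]
      exact hu.rj
    · intro m m1 m2 m3
      obtain ⟨k1, k2⟩ := key2 m m1 (by omega) m3
      omega
    · intro m m1 m2 m3
      rw [jn_rv_out _ h0 (Or.inr m1)] at m3
      have := hu.onlyJ m (by omega) m2 m3
      omega

lemma triv_to_type1 (hN : 2 ≤ N) {r : ZMod N → W} {f : ℕ → Dart N} (h : Tour r f) {t : ℕ} {b : W}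
    {i j : ℕ} (hx : XP r f b) (hl : LastAt r f t b i j) (ht : r (jn f t).2 ≠ b) :
    UsedAt r (rv i j f) (i + j - t) b i j ∧ jn (rv i j f) j = jn (rv i j f) i := by
  have ij : i < j := hl.it.trans hl.tj
  have h0 := hl.i0
  have hjN := hl.jN
  have hit := hl.it
  have htj := hl.tj
  have xi := hx i h0 (by omega) hl.ri
  have xj := hx j (by omega) hjN hl.rj
  have hne : (jn f i).1 ≠ (jn f j).1 := by
    intro he
    have s1 : slot f (jn f i).1 i false := ⟨h0, by omega, by simp⟩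
    have s2 : slot f (jn f i).1 i true := ⟨h0, by omega, by simpa using xi.symm⟩
    have s3 : slot f (jn f i).1 j false := ⟨by omega, hjN, by simpa using he.symm⟩
    rcases three_slots hN h s1 s2 s3 with ⟨_, e⟩ | ⟨e, _⟩ | ⟨e, _⟩
    · cases e
    · omega
    · omega
  refine ⟨⟨h0, by omega, by omega, hjN, ?_, ?_, ?_, ?_, ?_⟩, ?_⟩
  · rw [jn_rv_left _ h0 ij]
    simp only
    rw [h.link _ (by omega) hjN, hl.rj]
  · rw [jn_rv_right _ ij]
    exact hl.rj
  · intro m m1 m2 m3
    rcases lt_trichotomy m j with hc | hc | hc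
    · exfalso
      rw [jn_rv_in _ (by omega) hc] at m3
      simp only at m3
      rw [h.link _ (by omega) (by omega)] at m3
      exact hl.gapD _ (by omega) (by omega) m3
    · exact hc
    · rw [jn_rv_out _ h0 (Or.inr hc)] at m3
      exact absurd m3 (hl.gapJ m hc m2)
  · intro m m0 m1 m2 m3
    rcases lt_trichotomy m i with hc | hc | hc
    · rw [jn_rv_out _ h0 (Or.inl hc)] at m3 ⊢
      exact hx m m0 (by omega) m3
    · exact absurd hc m2
    · rw [jn_rv_in _ hc (by omega)] at m3 ⊢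
      simp only at m3 ⊢
      rw [h.link _ (by omega) (by omega)] at m3
      exact (hx _ (by omega) (by omega) m3).symm
  · rw [jn_rv_left _ h0 ij]
    exact hne
  · rw [jn_rv_left _ h0 ij, jn_rv_right _ ij, xi, xj]

lemma cnt_type1 [NeZero N] (hN : 2 ≤ N) (r : ZMod N → W) (q : ZMod N)
    (hrq : ∀ v, r v = r q → v = q) (b : W) (hb : r q ≠ b) (Z : (ℕ → Dart N) → Prop)
    (hZ : ∀ f i j, Tour r f → 0 < i → i < j → j < N → r (jn f i).2 = b →
      r (jn f j).2 = b → Z f → Z (rv i j f)) :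
    cnt (fun f t => (St r q f t ∧ Z f) ∧ ∃ i j, UsedAt r f t b i j ∧ jn f j = jn f i)
      = cnt (fun f t => (St r q f t ∧ Z f) ∧ Xr r f b ∧ ¬ Same r f t b) := by
  apply cnt_eq _ _ (fun f t f' t' => ∃ i j, UsedAt r f t b i j ∧ jn f j = jn f i ∧
    f' = rv i j f ∧ t' = i + j - t)
  · rintro f t hs ht ⟨⟨hst, hz⟩, i, j, hu, hty⟩
    have htb : r (jn f t).2 ≠ b := by rw [hst.atq]; exact hb
    have ij := hu.it.trans hu.tj
    have hr' : r (jn f i).2 = r (jn f j).2 := hu.ri.trans hu.rj.symm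
    have hst' := hst.rv hrq hu.i0 ij hu.jN hr' hu.it.ne' hu.tj.ne
    have hmv : mv i j t = i + j - t := by
      unfold mv; rw [if_pos ⟨hu.it, hu.tj⟩]
    rw [hmv] at hst'
    obtain ⟨k1, k2⟩ := type1_to_triv hst.tour hu hty htb
    refine ⟨rv i j f, i + j - t, supp_rv hs hu.jN.le, hst'.lt, ⟨⟨hst', ?_⟩, ?_, ?_⟩,
      i, j, hu, hty, rfl, rfl⟩
    · exact hZ f i j hst.tour hu.i0 ij hu.jN hu.ri hu.rj hz
    · exact (Xr_iff hst'.tour).2 k1
    · rw [Same_iff hst'.tour hst'.lt]
      push Not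
      exact ⟨⟨j, k2.tj, k2.jN, k2.rj⟩, ⟨i, k2.i0, k2.it, k2.ri⟩⟩
  · rintro f t hs ht ⟨⟨hst, hz⟩, hx, hsame⟩
    have htb : r (jn f t).2 ≠ b := by rw [hst.atq]; exact hb
    obtain ⟨i, j, hl⟩ := ex_lastAt hst.tour hst.lt hsame
    have ij := hl.it.trans hl.tj
    have hit := hl.it
    have htj := hl.tj
    have hr' : r (jn f i).2 = r (jn f j).2 := hl.ri.trans hl.rj.symm
    have hst' := hst.rv hrq hl.i0 ij hl.jN hr' hl.it.ne' hl.tj.ne
    have hmv : mv i j t = i + j - t := by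
      unfold mv; rw [if_pos ⟨hl.it, hl.tj⟩]
    rw [hmv] at hst'
    obtain ⟨k1, k2⟩ := triv_to_type1 hN hst.tour ((Xr_iff hst.tour).1 hx) hl htb
    refine ⟨rv i j f, i + j - t, supp_rv hs hl.jN.le, hst'.lt, ⟨⟨hst', ?_⟩, i, j, k1, k2⟩,
      i, j, k1, k2, (rv_rv i j f).symm, by omega⟩
    exact hZ f i j hst.tour hl.i0 ij hl.jN hl.ri hl.rj hz
  · rintro f t f' t' f'' t'' - - - ⟨i, j, h1, -, rfl, rfl⟩ ⟨i', j', h1', -, rfl, rfl⟩
    obtain ⟨rfl, rfl⟩ := h1.unique h1'
    exact ⟨rfl, rfl⟩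
  · rintro f t f' t' f'' t'' ⟨⟨hst', -⟩, -⟩ ⟨⟨hst'', -⟩, -⟩ - ⟨i, j, h1, ha, e1, e2⟩
      ⟨i', j', h1', ha', e1', e2'⟩
    have htb' : r (jn f' t').2 ≠ b := by rw [hst'.atq]; exact hb
    have htb'' : r (jn f'' t'').2 ≠ b := by rw [hst''.atq]; exact hb
    obtain ⟨-, k⟩ := type1_to_triv hst'.tour h1 ha htb'
    obtain ⟨-, k'⟩ := type1_to_triv hst''.tour h1' ha' htb''
    rw [← e1, ← e2] at k
    rw [← e1', ← e2'] at k'
    obtain ⟨rfl, rfl⟩ := k.unique k'
    refine ⟨?_, ?_⟩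
    · have := e1.symm.trans e1'
      have h3 := congrArg (Semi.rv i j) this
      rwa [rv_rv, rv_rv] at h3
    · have a1 := h1.it
      have a2 := h1.tj
      have a3 := h1'.it
      have a4 := h1'.tj
      omega

/-- data of the second type -/
structure T2 (r : ZMod N → W) (f : ℕ → Dart N) (t : ℕ) (b : W) (i m j : ℕ) : Prop where
  tour : Tour r f
  used : UsedAt r f t b i j
  typ : jn f j = ((jn f i).2, (jn f i).1)
  im : i ≤ m
  mt : m < t
  rm : r (jn f m).2 = b
  gap : ∀ n, m < n → n < t → r (jn f n).2 ≠ b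
  rt : r (jn f t).2 ≠ b

lemma T2.unique {r : ZMod N → W} {f : ℕ → Dart N} {t : ℕ} {b : W} {i m j i' m' j' : ℕ}
    (h : T2 r f t b i m j) (h' : T2 r f t b i' m' j') : i = i' ∧ m = m' ∧ j = j' := by
  obtain ⟨rfl, rfl⟩ := h.used.unique h'.used
  refine ⟨rfl, ?_, rfl⟩
  rcases lt_trichotomy m m' with hc | hc | hc
  · exact absurd h'.rm (h.gap m' hc h'.mt)
  · exact hc
  · exact absurd h.rm (h'.gap m hc h.mt)

lemma ex_T2 {r : ZMod N → W} {f : ℕ → Dart N} {t : ℕ} {b : W} {i j : ℕ} (ht : Tour r f)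
    (hu : UsedAt r f t b i j) (typ : jn f j = ((jn f i).2, (jn f i).1))
    (rt : r (jn f t).2 ≠ b) : ∃ m, T2 r f t b i m j := by
  classical
  set Q : Finset ℕ := (Finset.range t).filter (fun k => i ≤ k ∧ r (jn f k).2 = b) with hQ
  have hQn : Q.Nonempty :=
    ⟨i, by rw [hQ, Finset.mem_filter, Finset.mem_range]; exact ⟨hu.it, le_refl _, hu.ri⟩⟩
  have q1 := Finset.max'_mem Q hQn
  have q2 : ∀ k ∈ Q, k ≤ Q.max' hQn := fun k hk => Finset.le_max' _ _ hk
  simp only [hQ, Finset.mem_filter, Finset.mem_range] at q1 q2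
  refine ⟨Q.max' hQn, ht, hu, typ, q1.2.1, q1.1, q1.2.2, ?_, rt⟩
  intro k k1 k2 k3
  have := q2 k ⟨k2, by simp only [hQ] at k1; omega, k3⟩
  simp only [hQ] at k1
  omega

lemma T2.step (hN : 2 ≤ N) {r : ZMod N → W} {f : ℕ → Dart N} {t : ℕ} {b : W} {i m j : ℕ}
    (h : T2 r f t b i m j) : T2 r (rv m j (rv i m f)) (m + j - t) b i m j := by
  have hu := h.used
  have h0 := hu.i0
  have hit := hu.it
  have htj := hu.tj
  have hjN := hu.jN
  have hmt := h.mt
  have him := h.im
  have typ := h.typ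
  rcases Nat.eq_or_lt_of_le him with rfl | hlt
  · -- `m = i`
    rw [rv_self]
    have ij : i < j := by omega
    have hr' : r (jn f i).2 = r (jn f j).2 := hu.ri.trans hu.rj.symm
    have hn : ∀ n, i < n → n < j → r (jn (rv i j f) n).2 = b → False := by
      intro n n1 n2 n3
      rw [jn_rv_in _ n1 n2] at n3
      simp only at n3
      rw [h.tour.link _ (by omega) (by omega)] at n3
      rcases lt_trichotomy (i + j - n) t with hc | hc | hc
      · exact h.gap _ (by omega) hc n3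
      · rw [hc] at n3; exact h.rt n3
      · have := hu.onlyJ _ hc (by omega) n3
        omega
    refine ⟨h.tour.rv h0 ij.le hjN hr', ⟨h0, by omega, by omega, hjN, ?_, ?_, ?_, ?_, ?_⟩, ?_,
      le_refl _, by omega, ?_, ?_, ?_⟩
    · rw [jn_rv_left _ h0 ij]
      simp only
      rw [h.tour.link _ (by omega) hjN, hu.rj]
    · rw [jn_rv_right _ ij]; exact hu.rj
    · intro n n1 n2 n3
      rcases lt_trichotomy n j with hc | hc | hc
      · exact (hn n (by omega) hc n3).elim
      · exact hc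
      · rw [jn_rv_out _ h0 (Or.inr hc)] at n3
        exact hu.onlyJ n (by omega) n2 n3
    · intro n n0 n1 n2 n3
      rcases lt_trichotomy n i with hc | hc | hc
      · rw [jn_rv_out _ h0 (Or.inl hc)] at n3 ⊢
        exact hu.trivD n n0 (by omega) n2 n3
      · exact absurd hc n2
      · exact (hn n hc (by omega) n3).elim
    · rw [jn_rv_left _ h0 ij, typ]
      exact hu.ne
    · rw [jn_rv_left _ h0 ij, jn_rv_right _ ij, typ]
    · rw [jn_rv_left _ h0 ij]
      simp only
      rw [h.tour.link _ (by omega) hjN, hu.rj]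
    · intro n n1 n2 n3
      exact hn n n1 (by omega) n3
    · intro h3
      exact hn _ (by omega) (by omega) h3
  · -- `i < m`
    have ij : i < j := by omega
    have mj : m < j := by omega
    set g := rv i m f with hg
    have hgt : Tour r g := h.tour.rv h0 hlt.le (by omega) (hu.ri.trans h.rm.symm)
    have xm : (jn f m).1 = (jn f m).2 := hu.trivD m (by omega) hmt (by omega) h.rm
    have gi : jn g i = ((jn f i).1, (jn f m).2) := by
      rw [hg, jn_rv_left _ h0 hlt, xm]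
    have gm : jn g m = ((jn f i).2, (jn f m).2) := by
      rw [hg, jn_rv_right _ hlt]
    have gj : jn g j = ((jn f i).2, (jn f i).1) := by
      rw [hg, jn_rv_out _ h0 (Or.inr mj), typ]
    have gout : ∀ n, m < n → jn g n = jn f n := fun n hn => by
      rw [hg, jn_rv_out _ h0 (Or.inr hn)]
    have rgm : r (jn g m).2 = b := by rw [gm]; exact h.rm
    have rgj : r (jn g j).2 = b := by
      rw [gj]; simp only; rw [h.tour.link i h0 (by omega)]; exact hu.ri
    have m0 : 0 < m := by omega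
    have fi : jn (rv m j g) i = ((jn f i).1, (jn f m).2) := by
      rw [jn_rv_out _ m0 (Or.inl hlt), gi]
    have fm : jn (rv m j g) m = ((jn f i).2, (jn f i).2) := by
      rw [jn_rv_left _ m0 mj, gm, gj]
    have fj : jn (rv m j g) j = ((jn f m).2, (jn f i).1) := by
      rw [jn_rv_right _ mj, gm, gj]
    have hne : (jn f i).1 ≠ (jn f m).2 := by
      intro he
      have s1 : slot f (jn f i).1 i false := ⟨h0, by omega, by simp⟩
      have s2 : slot f (jn f i).1 m true := ⟨m0, by omega, by simpa using he.symm⟩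
      have s3 : slot f (jn f i).1 m false := ⟨m0, by omega, by simpa [xm] using he.symm⟩
      rcases three_slots hN h.tour s1 s2 s3 with ⟨e, _⟩ | ⟨_, e⟩ | ⟨e, _⟩
      · omega
      · cases e
      · omega
    have hn : ∀ n, m < n → n < j → r (jn (rv m j g) n).2 = b → False := by
      intro n n1 n2 n3
      rw [jn_rv_in _ n1 n2] at n3
      simp only at n3
      rw [hgt.link _ (by omega) (by omega), gout _ (by omega)] at n3
      rcases lt_trichotomy (m + j - n) t with hc | hc | hc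
      · exact h.gap _ (by omega) hc n3
      · rw [hc] at n3; exact h.rt n3
      · have := hu.onlyJ _ hc (by omega) n3
        omega
    refine ⟨hgt.rv m0 mj.le hjN (rgm.trans rgj.symm), ⟨h0, by omega, by omega, hjN, ?_, ?_, ?_, ?_,
      ?_⟩, ?_, hlt.le, by omega, ?_, ?_, ?_⟩
    · rw [fi]; exact h.rm
    · rw [fj]; simp only; rw [h.tour.link i h0 (by omega)]; exact hu.ri
    · intro n n1 n2 n3
      rcases lt_trichotomy n j with hc | hc | hc
      · exact (hn n (by omega) hc n3).elim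
      · exact hc
      · rw [jn_rv_out _ m0 (Or.inr hc), gout _ (by omega)] at n3
        exact hu.onlyJ n (by omega) n2 n3
    · intro n n0 n1 n2 n3
      rcases lt_trichotomy n m with hc | hc | hc
      · rw [jn_rv_out _ m0 (Or.inl hc)] at n3 ⊢
        rcases lt_trichotomy n i with hc' | hc' | hc'
        · rw [hg, jn_rv_out _ h0 (Or.inl hc')] at n3 ⊢
          exact hu.trivD n n0 (by omega) n2 n3
        · exact absurd hc' n2
        · rw [hg, jn_rv_in _ hc' hc] at n3 ⊢
          simp only at n3 ⊢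
          rw [h.tour.link _ (by omega) (by omega)] at n3
          exact (hu.trivD _ (by omega) (by omega) (by omega) n3).symm
      · subst hc
        rw [fm]
      · exact (hn n hc (by omega) n3).elim
    · rw [fi]; exact hne
    · rw [fi, fj]
    · rw [fm]; exact hu.ri
    · intro n n1 n2 n3
      exact hn n n1 (by omega) n3
    · intro h3
      exact hn _ (by omega) (by omega) h3

lemma T2.undo {r : ZMod N → W} {f : ℕ → Dart N} {t : ℕ} {b : W} {i m j : ℕ}
    (h : T2 r f t b i m j) : rv m j (rv i m (rv m j (rv i m f))) = f := by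
  have h1 := h.im
  have h2 := h.mt
  have h3 := h.used.tj
  rw [rv_comm _ h1 (by omega), rv_rv, rv_rv]

lemma T2.ne {r : ZMod N → W} {f : ℕ → Dart N} {t : ℕ} {b : W} {i m j : ℕ}
    (h : T2 r f t b i m j) : rv m j (rv i m f) ≠ f := by
  have h1 := h.im
  have h2 := h.mt
  have h3 := h.used.tj
  have h4 := h.used.jN
  intro he
  have e1 := congrFun he m
  rw [rv_in _ (le_refl _) (by omega), rv_out _ (by omega)] at e1
  have e2 := congrArg Prod.fst e1
  rw [fl_fst] at e2
  have e3 := h.tour.inj _ _ (by omega) (by omega) e2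
  rw [e3] at e1
  exact fl_ne _ e1

lemma cnt_type2 [NeZero N] (hN : 2 ≤ N) (r : ZMod N → W) (q : ZMod N)
    (hrq : ∀ v, r v = r q → v = q) (b : W) (hb : r q ≠ b) (Z : (ℕ → Dart N) → Prop)
    (hZ : ∀ f i j, Tour r f → 0 < i → i < j → j < N → r (jn f i).2 = b →
      r (jn f j).2 = b → Z f → Z (rv i j f)) :
    cnt (fun f t => (St r q f t ∧ Z f) ∧ ∃ i j, UsedAt r f t b i j ∧
      jn f j = ((jn f i).2, (jn f i).1)) = 0 := by
  apply cnt_zero _ (fun f t f' t' => ∃ i m j, T2 r f t b i m j ∧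
    f' = rv m j (rv i m f) ∧ t' = m + j - t)
  · rintro f t hs ht ⟨⟨hst, hz⟩, i, j, hu, hty⟩
    have htb : r (jn f t).2 ≠ b := by rw [hst.atq]; exact hb
    obtain ⟨m, hT⟩ := ex_T2 hst.tour hu hty htb
    have hT' := hT.step hN
    have him := hT.im
    have hmt := hT.mt
    have htj := hu.tj
    have hjN := hu.jN
    have h0 := hu.i0
    have hmv : mv m j t = m + j - t := by
      unfold mv; rw [if_pos ⟨hmt, htj⟩]
    have hg : St r q (rv i m f) t ∧ Z (rv i m f) ∧ r (jn (rv i m f) m).2 = b ∧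
        r (jn (rv i m f) j).2 = b := by
      rcases Nat.eq_or_lt_of_le him with rfl | hlt
      · rw [rv_self]; exact ⟨hst, hz, hu.ri, hu.rj⟩
      · have h1 := hst.rv hrq h0 hlt (by omega) (hu.ri.trans hT.rm.symm) (by omega) (by omega)
        have hmv' : mv i m t = t := by unfold mv; rw [if_neg (by omega)]
        rw [hmv'] at h1
        refine ⟨h1, hZ f i m hst.tour h0 hlt (by omega) hu.ri hT.rm hz, ?_, ?_⟩
        · rw [jn_rv_right _ hlt]; exact hT.rm
        · rw [jn_rv_out _ h0 (by omega)]; exact hu.rj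
    obtain ⟨g1, g2, g3, g4⟩ := hg
    have hst' := g1.rv hrq (by omega) (show m < j by omega) hjN (g3.trans g4.symm) (by omega)
      (by omega)
    rw [hmv] at hst'
    refine ⟨rv m j (rv i m f), m + j - t, supp_rv (supp_rv hs (by omega)) hjN.le, hst'.lt,
      ⟨⟨hst', ?_⟩, i, j, hT'.used, hT'.typ⟩, ⟨i, m, j, hT, rfl, rfl⟩, hT.ne⟩
    exact hZ _ m j g1.tour (by omega) (by omega) hjN g3 g4 g2
  · rintro f t f' t' ⟨i, m, j, hT, rfl, rfl⟩
    refine ⟨i, m, j, hT.step hN, hT.undo.symm, ?_⟩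
    have a1 := hT.mt
    have a2 := hT.used.tj
    omega
  · rintro f t f' t' f'' t'' ⟨i, m, j, hT, rfl, rfl⟩ ⟨i', m', j', hT', rfl, rfl⟩
    obtain ⟨rfl, rfl, rfl⟩ := hT.unique hT'
    exact ⟨rfl, rfl⟩

/-- the class `b` is used by one pair, all its other visits are before `t` -/
def Used (r : ZMod N → W) (f : ℕ → Dart N) (t : ℕ) (b : W) : Prop :=
  ∃ x y, x ≠ y ∧ r x = b ∧ r y = b ∧ jB f 0 t x y ∧ jB f t N x y ∧
    (∀ u v, r u = b → jB f 0 t u v → u = v ∨ (u = x ∧ v = y) ∨ (u = y ∧ v = x)) ∧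
    (∀ u v, r u = b → jB f t N u v → (u = x ∧ v = y) ∨ (u = y ∧ v = x))

lemma slot_of_jn {f : ℕ → Dart N} {x y : ZMod N} {m : ℕ} (h0 : 0 < m) (hm : m < N)
    (h : jn f m = (x, y) ∨ jn f m = (y, x)) : ∃ s, slot f x m s := by
  rcases h with h | h
  · exact ⟨false, h0, hm, by simp [h]⟩
  · exact ⟨true, h0, hm, by simp [h]⟩

lemma used_iff (hN : 2 ≤ N) {r : ZMod N → W} {f : ℕ → Dart N} (h : Tour r f) {t : ℕ} {b : W}
    (htN : t < N) : Used r f t b ↔ ∃ i j, UsedAt r f t b i j ∧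
      (jn f j = jn f i ∨ jn f j = ((jn f i).2, (jn f i).1)) := by
  constructor
  · rintro ⟨x, y, hxy, hx, hy, ⟨i, i1, i2, i3⟩, ⟨j, j1, j2, j3⟩, hD, hJ⟩
    obtain ⟨si, hsi⟩ := slot_of_jn i1 (by omega) i3
    obtain ⟨sj, hsj⟩ := slot_of_jn (by omega) j2 j3
    have hri : r (jn f i).2 = b := by rcases i3 with e | e <;> rw [e] <;> assumption
    have hrj : r (jn f j).2 = b := by rcases j3 with e | e <;> rw [e] <;> assumption
    refine ⟨i, j, ⟨i1, i2, j1, j2, hri, hrj, ?_, ?_, ?_⟩, ?_⟩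
    · intro m m1 m2 m3
      by_contra hc
      have h1 := hJ (jn f m).2 (jn f m).1 m3 ⟨m, m1, m2, Or.inr rfl⟩
      have h2 : ∃ s, slot f x m s := by
        rcases h1 with ⟨e1, e2⟩ | ⟨e1, e2⟩
        · exact ⟨true, by omega, m2, by simp [e1]⟩
        · exact ⟨false, by omega, m2, by simp [e2]⟩
      obtain ⟨s, hs⟩ := h2
      rcases three_slots hN h hsi hsj hs with ⟨e, _⟩ | ⟨e, _⟩ | ⟨e, _⟩ <;> omega
    · intro m m0 m1 m2 m3
      have h1 := hD (jn f m).2 (jn f m).1 m3 ⟨m, m0, m1, Or.inr rfl⟩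
      rcases h1 with e | h1
      · exact e.symm
      · exfalso
        have h2 : ∃ s, slot f x m s := by
          rcases h1 with ⟨e1, e2⟩ | ⟨e1, e2⟩
          · exact ⟨true, by omega, by omega, by simp [e1]⟩
          · exact ⟨false, by omega, by omega, by simp [e2]⟩
        obtain ⟨s, hs⟩ := h2
        rcases three_slots hN h hsi hsj hs with ⟨e, _⟩ | ⟨e, _⟩ | ⟨e, _⟩ <;> omega
    · rcases i3 with e | e <;> rw [e]
      · exact hxy
      · exact hxy.symm
    · rcases i3 with e | e <;> rcases j3 with e' | e' <;> rw [e, e'] <;> simp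
  · rintro ⟨i, j, hu, hty⟩
    have h0 := hu.i0
    have hit := hu.it
    have htj := hu.tj
    refine ⟨(jn f i).1, (jn f i).2, hu.ne, ?_, hu.ri, ⟨i, hu.i0, hu.it, Or.inl rfl⟩,
      ⟨j, hu.tj, hu.jN, hty⟩, ?_, ?_⟩
    · rw [h.link i hu.i0 (by omega)]; exact hu.ri
    · rintro u v hru ⟨m, m0, m1, m2⟩
      by_cases hmi : m = i
      · subst hmi
        right
        rcases m2 with e | e <;> rw [e] <;> simp
      · left
        have hb : r (jn f m).2 = b := by
          rcases m2 with e | e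
          · rw [← h.link m m0 (by omega), e]; exact hru
          · rw [e]; exact hru
        have := hu.trivD m m0 m1 hmi hb
        rcases m2 with e | e
        · rw [e] at this; exact this
        · rw [e] at this; exact this.symm
    · rintro u v hru ⟨m, m0, m1, m2⟩
      have hb : r (jn f m).2 = b := by
        rcases m2 with e | e
        · rw [← h.link m (by omega) (by omega), e]; exact hru
        · rw [e]; exact hru
      have hmj := hu.onlyJ m m0 m1 hb
      subst hmj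
      rcases m2 with e | e <;> rcases hty with e' | e' <;> rw [e] at e'
      · rw [← e']; simp
      · have e1 := congrArg Prod.fst e'
        have e2 := congrArg Prod.snd e'
        simp only at e1 e2
        right; exact ⟨e1, e2⟩
      · rw [← e']; simp
      · have e1 := congrArg Prod.fst e'
        have e2 := congrArg Prod.snd e'
        simp only at e1 e2
        left; exact ⟨e2, e1⟩

/-- the rule at the large class -/
def wB (r : ZMod N → W) (f : ℕ → Dart N) (t : ℕ) (b : W) : Prop :=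
  (Xr r f b ∧ Same r f t b) ∨ Used r f t b

lemma Used.not_X {r : ZMod N → W} {f : ℕ → Dart N} {t : ℕ} {b : W} (htN : t < N)
    (h : Used r f t b) : ¬ Xr r f b := by
  obtain ⟨x, y, hxy, hx, hy, ⟨i, i1, i2, i3⟩, -⟩ := h
  intro hX
  exact hxy (hX x y hx ⟨i, i1, by omega, i3⟩)

theorem cnt_blob [NeZero N] (hN : 2 ≤ N) (r : ZMod N → W) (q : ZMod N)
    (hrq : ∀ v, r v = r q → v = q) (b : W) (hb : r q ≠ b) (Z : (ℕ → Dart N) → Prop)
    (hZ : ∀ f i j, Tour r f → 0 < i → i < j → j < N → r (jn f i).2 = b →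
      r (jn f j).2 = b → Z f → Z (rv i j f)) :
    cnt (fun f t => (St r q f t ∧ Z f) ∧ wB r f t b)
      = cnt (fun f t => (St r q f t ∧ Z f) ∧ Xr r f b) := by
  rw [cnt_split (fun f t => (St r q f t ∧ Z f) ∧ wB r f t b) (fun f t => Xr r f b),
    cnt_split (fun f t => (St r q f t ∧ Z f) ∧ Xr r f b) (fun f t => Same r f t b)]
  have e1 : cnt (fun f t => ((St r q f t ∧ Z f) ∧ wB r f t b) ∧ Xr r f b)
      = cnt (fun f t => ((St r q f t ∧ Z f) ∧ Xr r f b) ∧ Same r f t b) := by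
    apply cnt_congr
    intro f t
    constructor
    · rintro ⟨⟨⟨h1, h2⟩, h3⟩, h4⟩
      rcases h3 with h3 | h3
      · exact ⟨⟨⟨h1, h2⟩, h4⟩, h3.2⟩
      · exact absurd h4 (h3.not_X h1.lt)
    · rintro ⟨⟨⟨h1, h2⟩, h3⟩, h4⟩
      exact ⟨⟨⟨h1, h2⟩, Or.inl ⟨h3, h4⟩⟩, h3⟩
  have e2 : cnt (fun f t => ((St r q f t ∧ Z f) ∧ wB r f t b) ∧ ¬ Xr r f b)
      = cnt (fun f t => ((St r q f t ∧ Z f) ∧ Xr r f b) ∧ ¬ Same r f t b) := by
    have e3 : cnt (fun f t => ((St r q f t ∧ Z f) ∧ wB r f t b) ∧ ¬ Xr r f b)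
        = cnt (fun f t => (St r q f t ∧ Z f) ∧ ∃ i j, UsedAt r f t b i j ∧
          (jn f j = jn f i ∨ jn f j = ((jn f i).2, (jn f i).1))) := by
      apply cnt_congr
      intro f t
      constructor
      · rintro ⟨⟨⟨h1, h2⟩, h3⟩, h4⟩
        rcases h3 with h3 | h3
        · exact absurd h3.1 h4
        · exact ⟨⟨h1, h2⟩, (used_iff hN h1.tour h1.lt).1 h3⟩
      · rintro ⟨⟨h1, h2⟩, h3⟩
        have h5 := (used_iff hN h1.tour h1.lt).2 h3
        exact ⟨⟨⟨h1, h2⟩, Or.inr h5⟩, h5.not_X h1.lt⟩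
    rw [e3, cnt_split _ (fun f t => ∃ i j, UsedAt r f t b i j ∧ jn f j = jn f i)]
    have e4 : cnt (fun f t => ((St r q f t ∧ Z f) ∧ ∃ i j, UsedAt r f t b i j ∧
          (jn f j = jn f i ∨ jn f j = ((jn f i).2, (jn f i).1))) ∧
          ∃ i j, UsedAt r f t b i j ∧ jn f j = jn f i)
        = cnt (fun f t => (St r q f t ∧ Z f) ∧ ∃ i j, UsedAt r f t b i j ∧ jn f j = jn f i) := by
      apply cnt_congr
      intro f t
      constructor
      · rintro ⟨⟨h1, -⟩, h2⟩
        exact ⟨h1, h2⟩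
      · rintro ⟨h1, i, j, h2, h3⟩
        exact ⟨⟨h1, i, j, h2, Or.inl h3⟩, i, j, h2, h3⟩
    have e5 : cnt (fun f t => ((St r q f t ∧ Z f) ∧ ∃ i j, UsedAt r f t b i j ∧
          (jn f j = jn f i ∨ jn f j = ((jn f i).2, (jn f i).1))) ∧
          ¬ ∃ i j, UsedAt r f t b i j ∧ jn f j = jn f i)
        = cnt (fun f t => (St r q f t ∧ Z f) ∧ ∃ i j, UsedAt r f t b i j ∧
          jn f j = ((jn f i).2, (jn f i).1)) := by
      apply cnt_congr
      intro f t
      constructor
      · rintro ⟨⟨h1, i, j, h2, h3⟩, h4⟩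
        rcases h3 with h3 | h3
        · exact absurd ⟨i, j, h2, h3⟩ h4
        · exact ⟨h1, i, j, h2, h3⟩
      · rintro ⟨h1, i, j, h2, h3⟩
        refine ⟨⟨h1, i, j, h2, Or.inr h3⟩, ?_⟩
        rintro ⟨i', j', h2', h3'⟩
        obtain ⟨rfl, rfl⟩ := h2.unique h2'
        rw [h3'] at h3
        exact h2.ne (congrArg Prod.fst h3)
    rw [e4, e5, cnt_type2 hN r q hrq b hb Z hZ, add_zero, cnt_type1 hN r q hrq b hb Z hZ]
    exact cnt_congr (fun f t => by tauto)
  rw [e1, e2]

end Pool.Agent.H41.Semi
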