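import Pool.Agent.H41.Semi.Circle3

/-! The parity theorem on a circle. -/

namespace Pool.Agent.H41.Semi

open Finset

variable {N : ℕ} {W : Type*}

/-- the rule at the small classes -/
def Vd (r : ZMod N → W) (f : ℕ → Dart N) (t : ℕ) (k : W) : Prop :=
  (Xr r f k ∧ Same r f t k) ∨ (¬ Xr r f k ∧ ¬ Same r f t k)

lemma Xr_congr {r : ZMod N → W} {f g : ℕ → Dart N} {k : W}
    (h : ∀ u v, r u = k → (jB g 0 N u v ↔ jB f 0 N u v)) : Xr r g k ↔ Xr r f k := by
  unfold Xr
  constructor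
  · intro h1 u v hu hj; exact h1 u v hu ((h u v hu).2 hj)
  · intro h1 u v hu hj; exact h1 u v hu ((h u v hu).1 hj)

lemma Same_congr {r : ZMod N → W} {f g : ℕ → Dart N} {t : ℕ} {k : W}
    (h1 : ∀ u v, r u = k → (jB g t N u v ↔ jB f t N u v))
    (h2 : ∀ u v, r u = k → (jB g 0 t u v ↔ jB f 0 t u v)) : Same r g t k ↔ Same r f t k := by
  unfold Same
  refine or_congr ?_ ?_
  · constructor
    · intro h u v hu hj; exact h u v hu ((h1 u v hu).2 hj)
    · intro h u v hu hj; exact h u v hu ((h1 u v hu).1 hj)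
  · constructor
    · intro h u v hu hj; exact h u v hu ((h2 u v hu).2 hj)
    · intro h u v hu hj; exact h u v hu ((h2 u v hu).1 hj)

lemma Used_congr {r : ZMod N → W} {f g : ℕ → Dart N} {t : ℕ} {k : W}
    (h1 : ∀ u v, r u = k → (jB g t N u v ↔ jB f t N u v))
    (h2 : ∀ u v, r u = k → (jB g 0 t u v ↔ jB f 0 t u v)) (hf : Used r f t k) : Used r g t k := by
  obtain ⟨x, y, hxy, hx, hy, a1, a2, a3, a4⟩ := hf
  refine ⟨x, y, hxy, hx, hy, (h2 _ _ hx).2 a1, (h1 _ _ hx).2 a2, ?_, ?_⟩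
  · intro u v hu hj
    exact a3 u v hu ((h2 _ _ hu).1 hj)
  · intro u v hu hj
    exact a4 u v hu ((h1 _ _ hu).1 hj)

/-- the invariance facts of a reversal inside one part -/
lemma rv_facts {r : ZMod N → W} {f : ℕ → Dart N} (hf : Tour r f) {t i j : ℕ} (htN : t < N)
    (h0 : 0 < i) (hij : i < j) (hj : j < N) {k : W} (hi : r (jn f i).2 = k)
    (hj' : r (jn f j).2 = k) (hc : j < t ∨ t < i) {k' : W} (hk : k' ≠ k) :
    (Xr r (rv i j f) k' ↔ Xr r f k') ∧ (Same r (rv i j f) t k' ↔ Same r f t k') ∧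
      (Used r f t k' → Used r (rv i j f) t k') := by
  have key : ∀ a b : ℕ, ((a < i ∧ j < b) ∨ j ≤ a ∨ b ≤ i) → b ≤ N → ∀ u v, r u = k' →
      (jB (rv i j f) a b u v ↔ jB f a b u v) := by
    intro a b hab hb u v hu
    apply jB_rv_iff hf h0 hij.le hj (hi.trans hj'.symm) hab hb
    rw [hu, hi]; exact hk
  have k1 := key 0 N (Or.inl ⟨h0, hj⟩) le_rfl
  have k2 := key t N (by omega) le_rfl
  have k3 := key 0 t (by omega) htN.le
  exact ⟨Xr_congr k1, Same_congr k2 k3, Used_congr k2 k3⟩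

/-- invariance of `Xr` under any reversal -/
lemma rv_X {r : ZMod N → W} {f : ℕ → Dart N} (hf : Tour r f) {i j : ℕ}
    (h0 : 0 < i) (hij : i < j) (hj : j < N) {k : W} (hi : r (jn f i).2 = k)
    (hj' : r (jn f j).2 = k) {k' : W} (hk : k' ≠ k) :
    (Xr r (rv i j f) k' ↔ Xr r f k') := by
  apply Xr_congr
  intro u v hu
  apply jB_rv_iff hf h0 hij.le hj (hi.trans hj'.symm) (Or.inl ⟨h0, hj⟩) le_rfl
  rw [hu, hi]; exact hk

/-- a class with at least two members, not the class of `q` or `0` -/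
def Two (r : ZMod N → W) (q : ZMod N) (k : W) : Prop :=
  ∃ x y, x ≠ 0 ∧ y ≠ 0 ∧ x ≠ y ∧ x ≠ q ∧ r x = k ∧ r y = k

theorem phase1 [NeZero N] (hN : 2 ≤ N) (r : ZMod N → W) (q : ZMod N)
    (hrq : ∀ v, r v = r q → v = q) (b : W) (K1 : Finset W) : ∀ (K2 : Finset W),
    Disjoint K1 K2 → b ∉ K1 → (∀ k ∈ K1, Two r q k) →
    cnt (fun f t => St r q f t ∧ wB r f t b ∧ (∀ k ∈ K1, Vd r f t k) ∧ (∀ k ∈ K2, ¬ Xr r f k))
      = cnt (fun f t => St r q f t ∧ wB r f t b ∧
        (∀ k ∈ K1, ¬ Xr r f k) ∧ (∀ k ∈ K2, ¬ Xr r f k)) := by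
  classical
  induction K1 using Finset.induction_on with
  | empty => intro K2 _ _ _; exact cnt_congr (fun f t => by simp)
  | insert k K1 hk ih =>
    intro K2 hdis hb htwo
    rw [Finset.disjoint_insert_left] at hdis
    rw [Finset.mem_insert, not_or] at hb
    obtain ⟨x, y, hx, hy, hxy, hxq, rx, ry⟩ := htwo k (Finset.mem_insert_self _ _)
    have ih' := ih (insert k K2) (by
      rw [Finset.disjoint_insert_right]; exact ⟨hk, hdis.2⟩) hb.2
      (fun k' hk' => htwo k' (Finset.mem_insert_of_mem hk'))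
    have e1 : cnt (fun f t => St r q f t ∧ wB r f t b ∧ (∀ k ∈ K1, ¬ Xr r f k) ∧
          (∀ k' ∈ insert k K2, ¬ Xr r f k'))
        = cnt (fun f t => St r q f t ∧ wB r f t b ∧
          (∀ k' ∈ insert k K1, ¬ Xr r f k') ∧ (∀ k ∈ K2, ¬ Xr r f k)) := by
      apply cnt_congr
      intro f t
      simp only [Finset.mem_insert, forall_eq_or_imp]
      tauto
    rw [← e1, ← ih']
    have e2 := cnt_xor (fun f t => St r q f t ∧ (wB r f t b ∧ (∀ k ∈ K1, Vd r f t k) ∧
      (∀ k ∈ K2, ¬ Xr r f k))) (fun f t => Vd r f t k) (fun f t => ¬ Xr r f k)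
    have e3 : cnt (fun f t => (St r q f t ∧ (wB r f t b ∧ (∀ k ∈ K1, Vd r f t k) ∧
        (∀ k ∈ K2, ¬ Xr r f k))) ∧ ¬ (Vd r f t k ↔ ¬ Xr r f k))
        = cnt (fun f t => (St r q f t ∧ (wB r f t b ∧ (∀ k ∈ K1, Vd r f t k) ∧
        (∀ k ∈ K2, ¬ Xr r f k))) ∧ Same r f t (r x)) := by
      apply cnt_congr
      intro f t
      rw [rx]
      refine and_congr_right (fun _ => ?_)
      by_cases hX : Xr r f k <;> by_cases hS : Same r f t k <;> simp [Vd, hX, hS]
    have e4 := cnt_same hN r q hrq hx hy hxy (rx.trans ry.symm) hxq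
      (fun f t => (wB r f t b ∧ (∀ k ∈ K1, Vd r f t k) ∧ (∀ k ∈ K2, ¬ Xr r f k))) (by
        rintro f t i j hst h0 hij hj hi hj' hc ⟨z1, z2, z3⟩
        rw [rx] at hi hj'
        refine ⟨?_, ?_, ?_⟩
        · obtain ⟨f1, f2, f3⟩ := rv_facts hst.tour hst.lt h0 hij hj hi hj' hc hb.1
          rcases z1 with z1 | z1
          · exact Or.inl ⟨f1.2 z1.1, f2.2 z1.2⟩
          · exact Or.inr (f3 z1)
        · intro k' hk'
          have hne : k' ≠ k := by rintro rfl; exact hk hk'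
          obtain ⟨f1, f2, f3⟩ := rv_facts hst.tour hst.lt h0 hij hj hi hj' hc hne
          have := z2 k' hk'
          unfold Vd at this ⊢
          rw [f1, f2]; exact this
        · intro k' hk'
          have hne : k' ≠ k := by rintro rfl; exact hdis.1 hk'
          obtain ⟨f1, f2, f3⟩ := rv_facts hst.tour hst.lt h0 hij hj hi hj' hc hne
          rw [f1]; exact z3 k' hk')
    rw [e3, e4] at e2
    have e5 : cnt (fun f t => St r q f t ∧ wB r f t b ∧ (∀ k' ∈ insert k K1, Vd r f t k') ∧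
          (∀ k ∈ K2, ¬ Xr r f k))
        = cnt (fun f t => (St r q f t ∧ (wB r f t b ∧ (∀ k ∈ K1, Vd r f t k) ∧
        (∀ k ∈ K2, ¬ Xr r f k))) ∧ Vd r f t k) := by
      apply cnt_congr
      intro f t
      simp only [Finset.mem_insert, forall_eq_or_imp]
      tauto
    have e6 : cnt (fun f t => St r q f t ∧ wB r f t b ∧ (∀ k' ∈ K1, Vd r f t k') ∧
          (∀ k' ∈ insert k K2, ¬ Xr r f k'))
        = cnt (fun f t => (St r q f t ∧ (wB r f t b ∧ (∀ k ∈ K1, Vd r f t k) ∧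
        (∀ k ∈ K2, ¬ Xr r f k))) ∧ ¬ Xr r f k) := by
      apply cnt_congr
      intro f t
      simp only [Finset.mem_insert, forall_eq_or_imp]
      tauto
    rw [e5, e6]
    have h2 : ∀ a b : ZMod 2, a + b = 0 → a = b := by decide
    exact h2 _ _ e2

theorem phase2 [NeZero N] (hN : 2 ≤ N) (r : ZMod N → W) (q : ZMod N)
    (hrq : ∀ v, r v = r q → v = q) (b : W) (K1 : Finset W) : ∀ (K2 : Finset W),
    Disjoint K1 K2 → b ∉ K1 → (∀ k ∈ K1, Two r q k) →
    cnt (fun f t => St r q f t ∧ Xr r f b ∧ (∀ k ∈ K1, ¬ Xr r f k) ∧ (∀ k ∈ K2, Xr r f k))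
      = cnt (fun f t => St r q f t ∧ Xr r f b ∧
        (∀ k ∈ K1, Xr r f k) ∧ (∀ k ∈ K2, Xr r f k)) := by
  classical
  induction K1 using Finset.induction_on with
  | empty => intro K2 _ _ _; exact cnt_congr (fun f t => by simp)
  | insert k K1 hk ih =>
    intro K2 hdis hb htwo
    rw [Finset.disjoint_insert_left] at hdis
    rw [Finset.mem_insert, not_or] at hb
    obtain ⟨x, y, hx, hy, hxy, hxq, rx, ry⟩ := htwo k (Finset.mem_insert_self _ _)
    have ih' := ih (insert k K2) (by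
      rw [Finset.disjoint_insert_right]; exact ⟨hk, hdis.2⟩) hb.2
      (fun k' hk' => htwo k' (Finset.mem_insert_of_mem hk'))
    have e1 : cnt (fun f t => St r q f t ∧ Xr r f b ∧ (∀ k ∈ K1, Xr r f k) ∧
          (∀ k' ∈ insert k K2, Xr r f k'))
        = cnt (fun f t => St r q f t ∧ Xr r f b ∧
          (∀ k' ∈ insert k K1, Xr r f k') ∧ (∀ k ∈ K2, Xr r f k)) := by
      apply cnt_congr
      intro f t
      simp only [Finset.mem_insert, forall_eq_or_imp]
      tauto
    rw [← e1, ← ih']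
    have e2 := cnt_xor (fun f t => St r q f t ∧ (Xr r f b ∧ (∀ k ∈ K1, ¬ Xr r f k) ∧
      (∀ k ∈ K2, Xr r f k))) (fun f t => ¬ Xr r f k) (fun f t => Xr r f k)
    have e3 : cnt (fun f t => (St r q f t ∧ (Xr r f b ∧ (∀ k ∈ K1, ¬ Xr r f k) ∧
        (∀ k ∈ K2, Xr r f k))) ∧ ¬ (¬ Xr r f k ↔ Xr r f k))
        = cnt (fun f t => St r q f t ∧ (Xr r f b ∧ (∀ k ∈ K1, ¬ Xr r f k) ∧
        (∀ k ∈ K2, Xr r f k))) := by
      apply cnt_congr
      intro f t
      tauto
    have e4 := cnt_all hN r q hrq hx hy hxy (rx.trans ry.symm) hxq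
      (fun f => (Xr r f b ∧ (∀ k ∈ K1, ¬ Xr r f k) ∧ (∀ k ∈ K2, Xr r f k))) (by
        rintro f i j hst h0 hij hj hi hj' ⟨z1, z2, z3⟩
        rw [rx] at hi hj'
        refine ⟨?_, ?_, ?_⟩
        · rw [rv_X hst h0 hij hj hi hj' hb.1]; exact z1
        · intro k' hk'
          have hne : k' ≠ k := by rintro rfl; exact hk hk'
          rw [rv_X hst h0 hij hj hi hj' hne]; exact z2 k' hk'
        · intro k' hk'
          have hne : k' ≠ k := by rintro rfl; exact hdis.1 hk'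
          rw [rv_X hst h0 hij hj hi hj' hne]; exact z3 k' hk')
    rw [e3, e4] at e2
    have e5 : cnt (fun f t => St r q f t ∧ Xr r f b ∧ (∀ k' ∈ insert k K1, ¬ Xr r f k') ∧
          (∀ k ∈ K2, Xr r f k))
        = cnt (fun f t => (St r q f t ∧ (Xr r f b ∧ (∀ k ∈ K1, ¬ Xr r f k) ∧
        (∀ k ∈ K2, Xr r f k))) ∧ ¬ Xr r f k) := by
      apply cnt_congr
      intro f t
      simp only [Finset.mem_insert, forall_eq_or_imp]
      tauto
    have e6 : cnt (fun f t => St r q f t ∧ Xr r f b ∧ (∀ k' ∈ K1, ¬ Xr r f k') ∧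
          (∀ k' ∈ insert k K2, Xr r f k'))
        = cnt (fun f t => (St r q f t ∧ (Xr r f b ∧ (∀ k ∈ K1, ¬ Xr r f k) ∧
        (∀ k ∈ K2, Xr r f k))) ∧ Xr r f k) := by
      apply cnt_congr
      intro f t
      simp only [Finset.mem_insert, forall_eq_or_imp]
      tauto
    rw [e5, e6]
    have h2 : ∀ a b : ZMod 2, a + b = 0 → a = b := by decide
    exact h2 _ _ e2

/-- the circle itself as a tour -/
def f0 (m : ℕ) : Dart N := if m < N then ((m : ZMod N), true) else (0, true)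

lemma f0_lt {m : ℕ} (h : m < N) : (f0 m : Dart N) = ((m : ZMod N), true) := by simp [f0, h]

lemma cast_inj' [NeZero N] {m m' : ℕ} (h : m < N) (h' : m' < N)
    (he : (m : ZMod N) = (m' : ZMod N)) : m = m' := by
  have := congrArg ZMod.val he
  rwa [ZMod.val_natCast_of_lt h, ZMod.val_natCast_of_lt h'] at this

lemma tour_f0 [NeZero N] (hN : 2 ≤ N) (r : ZMod N → W) : Tour r (f0 : ℕ → Dart N) := by
  refine ⟨?_, ?_, ?_, ?_⟩
  · rw [f0_lt (by omega)]; simp
  · rw [f0_lt (by omega)]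
    simp only [hd, if_true]
    have : ((N - 1 : ℕ) : ZMod N) + 1 = ((N - 1 + 1 : ℕ) : ZMod N) := by push_cast; ring
    rw [this, Nat.sub_add_cancel (by omega)]
    simp
  · intro m h0 h1
    unfold jn
    rw [f0_lt h1, f0_lt (by omega)]
    simp only [hd, tl, if_true]
    have : ((m - 1 : ℕ) : ZMod N) + 1 = ((m - 1 + 1 : ℕ) : ZMod N) := by push_cast; ring
    rw [this, Nat.sub_add_cancel (by omega)]
  · intro m m' h h' he
    rw [f0_lt h, f0_lt h'] at he
    exact cast_inj' h h' he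

lemma jn_f0 [NeZero N] {m : ℕ} (h0 : 0 < m) (h1 : m < N) :
    jn (f0 : ℕ → Dart N) m = ((m : ZMod N), (m : ZMod N)) := by
  unfold jn
  rw [f0_lt h1, f0_lt (by omega)]
  simp only [hd, tl, if_true]
  have : ((m - 1 : ℕ) : ZMod N) + 1 = ((m - 1 + 1 : ℕ) : ZMod N) := by push_cast; ring
  rw [this, Nat.sub_add_cancel (by omega)]

lemma eq_f0 [NeZero N] (hN : 2 ≤ N) {r : ZMod N → W} {f : ℕ → Dart N} (h : Tour r f)
    (hs : Supp f) (hx : ∀ m, 0 < m → m < N → (jn f m).1 = (jn f m).2) : f = f0 := by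
  have : Fact (1 < N) := ⟨hN⟩
  have key : ∀ m, m < N → f m = ((m : ZMod N), true) := by
    intro m
    induction m with
    | zero => intro _; rw [h.start]; simp
    | succ m ih =>
      intro hm
      have ih' := ih (by omega)
      have h1 := hx (m + 1) (by omega) hm
      unfold jn at h1
      simp only [Nat.add_sub_cancel] at h1
      rw [ih'] at h1
      rcases hf : f (m + 1) with ⟨a, c⟩
      rw [hf] at h1
      cases c
      · exfalso
        simp only [hd, tl, if_true, Bool.false_eq_true, if_false, add_left_inj] at h1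
        have h2 := h.inj (m + 1) m hm (by omega) (by rw [hf, ih']; exact h1.symm)
        omega
      · simp only [hd, tl, if_true] at h1
        rw [← h1]; push_cast; rfl
  funext m
  by_cases hm : m < N
  · rw [key m hm, f0_lt hm]
  · rw [hs m (by omega)]; simp [f0, hm]

lemma cnt_one [NeZero N] (Z : (ℕ → Dart N) → ℕ → Prop) (x0 : (Fin N → Dart N) × Fin N)
    (h : ∀ x : (Fin N → Dart N) × Fin N, Z (ext x.1) x.2 ↔ x = x0) : cnt Z = 1 := by
  classical
  unfold cnt
  have : (Finset.univ : Finset ((Fin N → Dart N) × Fin N)).filter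
      (fun x => Z (ext x.1) x.2) = {x0} := by
    ext x
    rw [Finset.mem_filter, Finset.mem_singleton, h x]
    simp
  rw [← Finset.filter_congr_decidable, this]
  simp

lemma cnt_none [NeZero N] (Z : (ℕ → Dart N) → ℕ → Prop)
    (h : ∀ x : (Fin N → Dart N) × Fin N, ¬ Z (ext x.1) x.2) : cnt Z = 0 := by
  classical
  unfold cnt
  have : (Finset.univ : Finset ((Fin N → Dart N) × Fin N)).filter
      (fun x => Z (ext x.1) x.2) = ∅ := by
    ext x
    rw [Finset.mem_filter]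
    simp [h x]
  rw [← Finset.filter_congr_decidable, this]
  simp

theorem phase4 [NeZero N] (hN : 2 ≤ N) (r : ZMod N → W) (q : ZMod N) (hq : q ≠ 0)
    (b : W) (K : Finset W)
    (hK : ∀ x y, x ≠ y → r x = r y → r x = b ∨ r x ∈ K) :
    cnt (fun f t => St r q f t ∧ Xr r f b ∧ (∀ k ∈ K, Xr r f k)) = 1 := by
  classical
  have hqv : q.val < N := ZMod.val_lt q
  have hq0 : 0 < q.val := by
    rcases Nat.eq_zero_or_pos q.val with h | h
    · exact absurd ((ZMod.val_eq_zero q).1 h) hq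
    · exact h
  have hX0 : ∀ k, Xr r (f0 : ℕ → Dart N) k := by
    rintro k u v _ ⟨m, h0, h1, h2⟩
    rw [jn_f0 h0 h1] at h2
    rcases h2 with h2 | h2
    · have e1 := congrArg Prod.fst h2
      have e2 := congrArg Prod.snd h2
      exact e1.symm.trans e2
    · have e1 := congrArg Prod.fst h2
      have e2 := congrArg Prod.snd h2
      exact e2.symm.trans e1
  have hst0 : St r q (f0 : ℕ → Dart N) q.val := by
    refine ⟨tour_f0 hN r, hq0, hqv, ?_⟩
    rw [jn_f0 hq0 hqv]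
    simp
  have hsupp0 : Supp (f0 : ℕ → Dart N) := by
    intro m hm
    have : ¬ m < N := by omega
    simp [f0, this]
  apply cnt_one _ ((fun m : Fin N => f0 m), ⟨q.val, hqv⟩)
  rintro ⟨T, t⟩
  constructor
  · rintro ⟨h1, h2, h3⟩
    simp only at h1 h2 h3
    have hx : ∀ m, 0 < m → m < N → (jn (ext T) m).1 = (jn (ext T) m).2 := by
      intro m m0 m1
      by_contra hc
      have hl := h1.tour.link m m0 m1
      rcases hK _ _ hc hl with e | e
      · exact hc (h2 _ _ e ⟨m, m0, m1, Or.inl rfl⟩)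
      · exact hc (h3 _ e _ _ rfl ⟨m, m0, m1, Or.inl rfl⟩)
    have hf := eq_f0 hN h1.tour (fun m hm => ext_out _ hm) hx
    have ht : (t : ℕ) = q.val := by
      have := h1.atq
      rw [hf, jn_f0 h1.pos h1.lt] at this
      simp only at this
      have h5 := congrArg ZMod.val this
      rwa [ZMod.val_natCast_of_lt h1.lt] at h5
    have hT : T = fun m : Fin N => f0 m := by
      apply ext_inj
      rw [hf, ext_res hsupp0]
    exact Prod.ext hT (Fin.ext ht)
  · intro he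
    rw [he]
    simp only [ext_res hsupp0]
    exact ⟨hst0, hX0 _, fun k _ => hX0 _⟩

/-- there is a state obeying all the rules -/
theorem ex_state [NeZero N] (hN : 2 ≤ N) (r : ZMod N → W) (q : ZMod N) (hq : q ≠ 0)
    (hr0 : ∀ v, r v = r 0 → v = 0) (hrq : ∀ v, r v = r q → v = q) (b : W) (hb : r q ≠ b) :
    ∃ f t, St r q f t ∧ wB r f t b ∧
      ∀ x y, x ≠ y → r x = r y → r x ≠ b → Vd r f t (r x) := by
  classical
  set K : Finset W := (Finset.univ.image r).filter (fun k => k ≠ b ∧ ∃ x y, x ≠ y ∧ r x = k ∧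
    r y = k) with hKdef
  have hmem : ∀ x y, x ≠ y → r x = r y → r x ≠ b → r x ∈ K := by
    intro x y hxy hr hrb
    rw [hKdef, Finset.mem_filter]
    exact ⟨Finset.mem_image_of_mem _ (Finset.mem_univ _), hrb, x, y, hxy, rfl, hr.symm⟩
  have hbK : b ∉ K := by
    rw [hKdef, Finset.mem_filter]; tauto
  have htwo : ∀ k ∈ K, Two r q k := by
    intro k hk
    rw [hKdef, Finset.mem_filter] at hk
    obtain ⟨-, -, x, y, hxy, hx, hy⟩ := hk
    refine ⟨x, y, ?_, ?_, hxy, ?_, hx, hy⟩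
    · rintro rfl
      exact hxy (hr0 y (hy.trans hx.symm)).symm
    · rintro rfl
      exact hxy (hr0 x (hx.trans hy.symm))
    · rintro rfl
      exact hxy (hrq y (hy.trans hx.symm)).symm
  have h1 := phase1 hN r q hrq b K ∅ (Finset.disjoint_empty_right _) hbK htwo
  have h2 := cnt_blob hN r q hrq b hb (fun f => ∀ k ∈ K, ¬ Xr r f k) (by
    intro f i j hf h0 hij hj hi hj' hZ k hk
    have hne : k ≠ b := by rintro rfl; exact hbK hk
    rw [rv_X hf h0 hij hj hi hj' hne]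
    exact hZ k hk)
  have h3 := phase2 hN r q hrq b K ∅ (Finset.disjoint_empty_right _) hbK htwo
  have h4 := phase4 hN r q hq b K (by
    intro x y hxy hr
    by_cases hrb : r x = b
    · exact Or.inl hrb
    · exact Or.inr (hmem x y hxy hr hrb))
  have h5 : cnt (fun f t => St r q f t ∧ wB r f t b ∧ (∀ k ∈ K, Vd r f t k) ∧
      (∀ k ∈ (∅ : Finset W), ¬ Xr r f k)) = 1 := by
    rw [h1, ← h4]
    have e1 : cnt (fun f t => St r q f t ∧ wB r f t b ∧ (∀ k ∈ K, ¬ Xr r f k) ∧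
        (∀ k ∈ (∅ : Finset W), ¬ Xr r f k))
        = cnt (fun f t => (St r q f t ∧ (∀ k ∈ K, ¬ Xr r f k)) ∧ wB r f t b) :=
      cnt_congr (fun f t => by simp; tauto)
    rw [e1, h2]
    have e2 : cnt (fun f t => (St r q f t ∧ (∀ k ∈ K, ¬ Xr r f k)) ∧ Xr r f b)
        = cnt (fun f t => St r q f t ∧ Xr r f b ∧ (∀ k ∈ K, ¬ Xr r f k) ∧
          (∀ k ∈ (∅ : Finset W), Xr r f k)) :=
      cnt_congr (fun f t => by simp; tauto)
    rw [e2, h3]
    exact cnt_congr (fun f t => by simp)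
  by_contra hc
  push Not at hc
  have h6 : cnt (fun f t => St r q f t ∧ wB r f t b ∧ (∀ k ∈ K, Vd r f t k) ∧
      (∀ k ∈ (∅ : Finset W), ¬ Xr r f k)) = 0 := by
    apply cnt_none
    rintro ⟨T, t⟩ ⟨a1, a2, a3, -⟩
    obtain ⟨x, y, b1, b2, b3, b4⟩ := hc _ _ a1 a2
    exact b4 (a3 _ (hmem x y b1 b2 b3))
  rw [h6] at h5
  exact absurd h5 (by decide)

end Pool.Agent.H41.Semi
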