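import Mathlib

/-! Multigraphs, circuits, Tutte bridges and semi-extensions. -/

namespace Pool.Agent.H41.Semi

/-- A loopless graph with vertex type `V` and edge type `E`; parallel edges are allowed. -/
structure MGraph (V E : Type) where
  /-- the two ends of an edge -/
  ends : E → Sym2 V
  loopless : ∀ e, ¬ (ends e).IsDiag

namespace MGraph

variable {V E : Type} [Fintype V] [DecidableEq V] [Fintype E] [DecidableEq E] (G : MGraph V E)

/-- the number of edges of `F` that are incident with `v` -/
def dg (F : Finset E) (v : V) : ℕ := (F.filter (fun e => v ∈ G.ends e)).card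

/-- every vertex has degree three -/
def Cubic : Prop := ∀ v, G.dg Finset.univ v = 3

/-- the vertices of the subgraph formed by the edges of `F` and their ends -/
def vts (F : Finset E) : Set V := {v | ∃ e ∈ F, v ∈ G.ends e}

/-- adjacency by an edge of `F` -/
def Adj (F : Finset E) (u v : V) : Prop := ∃ e ∈ F, G.ends e = s(u, v)

/-- the subgraph formed by the edges of `F` and their ends is connected -/
def Conn (F : Finset E) : Prop :=
  ∀ u ∈ G.vts F, ∀ v ∈ G.vts F, Relation.ReflTransGen (G.Adj F) u v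

/-- `F` is the edge set of a circuit: nonempty, 2-regular and connected -/
def IsCircuit (F : Finset E) : Prop :=
  F.Nonempty ∧ (∀ v ∈ G.vts F, G.dg F v = 2) ∧ G.Conn F

/-- `v` can be reached from `u` in `G - X` -/
def Reach (X : Set V) (u v : V) : Prop :=
  Relation.ReflTransGen (fun a b => a ∉ X ∧ b ∉ X ∧ G.Adj Finset.univ a b) u v

/-- `G` is connected and stays connected when one vertex is deleted -/
def TwoConnected : Prop :=
  (∀ u v, G.Reach ∅ u v) ∧ ∀ x u v, u ≠ x → v ≠ x → G.Reach {x} u v

/-- `A` is the attachment of a Tutte bridge of the subgraph formed by `H`: either the two ends of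
a chord of `H`, or the vertices of `H` with a neighbour in one component of `G - V(H)` -/
def IsAttachment (H : Finset E) (A : Set V) : Prop :=
  (∃ e, e ∉ H ∧ (∀ v ∈ G.ends e, v ∈ G.vts H) ∧ A = {v | v ∈ G.ends e}) ∨
  (∃ w, w ∉ G.vts H ∧
    A = {v | v ∈ G.vts H ∧ ∃ u, G.Reach (G.vts H) w u ∧ G.Adj Finset.univ u v})

/-- `J` is (the edge set of) a component of the subgraph formed by `F` and the ends of `F` -/
def IsComponent (F J : Finset E) : Prop :=
  J ⊆ F ∧ J.Nonempty ∧ G.Conn J ∧ ∀ e ∈ F, (∃ v ∈ G.ends e, v ∈ G.vts J) → e ∈ J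

/-- `D` is a semi-extension of the circuit `C` -/
def IsSemiExtension (C D : Finset E) : Prop :=
  G.IsCircuit D ∧ D ≠ C ∧ ∀ A, G.IsAttachment (C ∪ D) A →
    A ⊆ G.vts D ∨ ∃ J, G.IsComponent (symmDiff C D) J ∧ A ⊆ G.vts J

/-- `P` is the edge set of a `C`-path: a path with two distinct ends on `C`, no edge in `C` and no
inner vertex on `C` -/
def IsCPath (C P : Finset E) : Prop :=
  Disjoint C P ∧ G.Conn P ∧ ∃ x y, x ≠ y ∧ x ∈ G.vts C ∧ y ∈ G.vts C ∧ G.dg P x = 1 ∧
    G.dg P y = 1 ∧ ∀ v ∈ G.vts P, v ≠ x → v ≠ y → G.dg P v = 2 ∧ v ∉ G.vts C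

/-- the vertices of `C` with a neighbour in the component of `G - V(C ∪ P)` that contains `w` -/
def nbs (C P : Finset E) (w : V) : Set V :=
  {v | v ∈ G.vts C ∧ ∃ u, G.Reach (G.vts (C ∪ P)) w u ∧ G.Adj Finset.univ u v}

end MGraph

end Pool.Agent.H41.Semi
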