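import Pool.Agent.H41.Semi.Defs

/-! Cyclic enumeration of a circuit. -/

namespace Pool.Agent.H41.Semi

open Finset

set_option linter.unusedSectionVars false
set_option linter.style.haveILetI false

namespace MGraph

variable {V E : Type} [Fintype V] [DecidableEq V] [Fintype E] [DecidableEq E] (G : MGraph V E)

lemma ne_of_ends {G : MGraph V E} {e : E} {u v : V} (h : G.ends e = s(u, v)) : u ≠ v := by
  rintro rfl
  exact G.loopless e (by rw [h]; exact Sym2.mk_isDiag_iff.2 rfl)

/-- the second edge at a vertex of degree two -/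
lemma second_edge {F : Finset E} {v : V} (h : G.dg F v = 2) {e : E} (he : e ∈ F)
    (hv : v ∈ G.ends e) : ∃ e' ∈ F, e' ≠ e ∧ v ∈ G.ends e' ∧
      ∀ e'' ∈ F, v ∈ G.ends e'' → e'' = e ∨ e'' = e' := by
  unfold dg at h
  rw [Finset.card_eq_two] at h
  obtain ⟨a, b, hab, hs⟩ := h
  have hmem : ∀ x, (x ∈ F ∧ v ∈ G.ends x) ↔ (x = a ∨ x = b) := by
    intro x
    have := congrArg (fun s => x ∈ s) hs
    simpa [Finset.mem_filter] using this
  rcases (hmem e).1 ⟨he, hv⟩ with rfl | rfl
  · have hb := (hmem b).2 (Or.inr rfl)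
    exact ⟨b, hb.1, hab.symm, hb.2, fun x hx hx' => (hmem x).1 ⟨hx, hx'⟩⟩
  · have ha := (hmem a).2 (Or.inl rfl)
    exact ⟨a, ha.1, hab, ha.2, fun x hx hx' => ((hmem x).1 ⟨hx, hx'⟩).symm⟩

/-- the directed edges of `C` -/
abbrev Dt (C : Finset E) := {x : E × V // x.1 ∈ C ∧ x.2 ∈ G.ends x.1}

lemma ex_next {C : Finset E} (hC : G.IsCircuit C) (d : G.Dt C) : ∃ d' : G.Dt C,
    G.ends d.1.1 = s(d.1.2, d'.1.2) ∧ d'.1.1 ≠ d.1.1 ∧
      ∀ e ∈ C, d'.1.2 ∈ G.ends e → e = d.1.1 ∨ e = d'.1.1 := by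
  obtain ⟨⟨e, v⟩, he, hv⟩ := d
  simp only at he hv
  have hspec := Sym2.other_spec hv
  set v' := Sym2.Mem.other hv with hv'
  have hmem : v' ∈ G.ends e := by
    rw [← hspec]; exact Sym2.mem_mk_right _ _
  have hdeg := hC.2.1 v' ⟨e, he, hmem⟩
  obtain ⟨e', h1, h2, h3, h4⟩ := G.second_edge hdeg he hmem
  exact ⟨⟨(e', v'), h1, h3⟩, hspec.symm, h2, h4⟩

theorem exists_enum {C : Finset E} (hC : G.IsCircuit C) {p : V} (hp : p ∈ G.vts C) :
    ∃ N : ℕ, 2 ≤ N ∧ ∃ (c : ZMod N → V) (e : ZMod N → E), Function.Injective c ∧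
      Function.Injective e ∧ (∀ i, G.ends (e i) = s(c i, c (i + 1))) ∧
      (∀ x, x ∈ C ↔ ∃ i, e i = x) ∧ c 0 = p := by
  classical
  choose nx hnx1 hnx2 hnx3 using G.ex_next hC
  obtain ⟨e0, he0, hpe0⟩ := hp
  set d0 : G.Dt C := ⟨(e0, p), he0, hpe0⟩ with hd0
  have hinj : Function.Injective nx := by
    intro d d' h
    have hv' : (nx d).1.2 ∈ G.ends d'.1.1 := by
      rw [h, hnx1 d']; exact Sym2.mem_mk_right _ _
    have h1 := hnx3 d d'.1.1 d'.2.1 hv'
    have hne : d'.1.1 ≠ (nx d).1.1 := by rw [h]; exact (hnx2 d').symm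
    have h2 : d'.1.1 = d.1.1 := h1.resolve_right hne
    have h3 := hnx1 d
    have h4 := hnx1 d'
    rw [h2] at h4
    rw [h] at h3
    have h5 : s(d.1.2, (nx d').1.2) = s(d'.1.2, (nx d').1.2) := h3.symm.trans h4
    have h6 : d.1.2 = d'.1.2 := Sym2.congr_left.1 h5
    exact Subtype.ext (Prod.ext h2.symm h6)
  set N := Function.minimalPeriod nx d0 with hN
  have hper : d0 ∈ Function.periodicPts nx := hinj.mem_periodicPts d0
  have hNpos : 0 < N := Function.minimalPeriod_pos_of_mem_periodicPts hper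
  set x : ℕ → G.Dt C := fun n => nx^[n] d0 with hx
  have hxs : ∀ n, x (n + 1) = nx (x n) := fun n => by
    simp only [hx, Function.iterate_succ_apply']
  have hxN : ∀ n, x (n + N) = x n := fun n => by
    simp only [hx, hN]
    rw [Function.iterate_add_apply, Function.iterate_minimalPeriod]
  have hxmod : ∀ n, x (n % N) = x n := fun n => by
    simp only [hx, hN]
    exact Function.iterate_mod_minimalPeriod_eq
  have hxinj : ∀ m n, m < N → n < N → x m = x n → m = n := by
    intro m n hm hn he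
    exact Function.iterate_injOn_Iio_minimalPeriod (by simpa using hm) (by simpa using hn) he
  have hne_edge : ∀ n, (x (n + 1)).1.1 ≠ (x n).1.1 := fun n => by rw [hxs]; exact hnx2 _
  have hends : ∀ n, G.ends (x n).1.1 = s((x n).1.2, (x (n + 1)).1.2) := fun n => by
    rw [hxs]; exact hnx1 _
  have huniq : ∀ n, ∀ e ∈ C, (x (n + 1)).1.2 ∈ G.ends e → e = (x n).1.1 ∨ e = (x (n + 1)).1.1 :=
    fun n => by rw [hxs]; exact hnx3 _
  have hvne : ∀ n, (x n).1.2 ≠ (x (n + 1)).1.2 := fun n => ne_of_ends (hends n)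
  have hbad : ∀ k m n, n = m + k → (x m).1.1 = (x n).1.1 → (x m).1.2 = (x n).1.2 := by
    intro k
    induction k using Nat.strong_induction_on with
    | _ k ih =>
      intro m n hk he
      rcases Nat.eq_zero_or_pos k with h0 | h0
      · subst h0; rw [hk]; rfl
      rcases Nat.eq_or_lt_of_le (show 1 ≤ k by omega) with h1 | h1
      · exfalso
        subst hk
        rw [← h1] at he
        exact hne_edge m he.symm
      by_contra hc
      -- `x m = (e, a)`, `x n = (e, b)`
      have hm := hends m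
      have hn := hends n
      rw [he, hn] at hm
      have hcase : (x (m + 1)).1.2 = (x n).1.2 := by
        rcases Sym2.eq_iff.1 hm with ⟨h1, h2⟩ | ⟨h1, h2⟩
        · exact absurd h1.symm hc
        · exact h1.symm
      obtain ⟨n', rfl⟩ : ∃ n', n = n' + 1 := ⟨n - 1, by omega⟩
      have hin : (x (m + 1)).1.2 ∈ G.ends (x n').1.1 := by
        rw [hcase, hends n']; exact Sym2.mem_mk_right _ _
      have h3 := huniq m _ (x n').2.1 hin
      have h4 : (x n').1.1 ≠ (x m).1.1 := by rw [he]; exact (hne_edge n').symm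
      have h5 : (x n').1.1 = (x (m + 1)).1.1 := h3.resolve_left h4
      have h6 := ih (k - 2) (by omega) (m + 1) n' (by omega) h5.symm
      rw [hcase] at h6
      exact hvne n' h6.symm
  have hbad' : ∀ m n, (x m).1.1 = (x n).1.1 → x m = x n := by
    intro m n he
    have hv : (x m).1.2 = (x n).1.2 := by
      rcases le_total m n with h | h
      · exact hbad (n - m) m n (by omega) he
      · exact (hbad (m - n) n m (by omega) he.symm).symm
    exact Subtype.ext (Prod.ext he hv)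
  have hvinj : ∀ m n, m < N → n < N → (x m).1.2 = (x n).1.2 → m = n := by
    intro m n hm hn hv
    by_cases he : (x m).1.1 = (x n).1.1
    · exact hxinj m n hm hn (hbad' m n he)
    · exfalso
      obtain ⟨k, hk⟩ : ∃ k, k + 1 = m + N := ⟨m + N - 1, by omega⟩
      have hxk : x (k + 1) = x m := by rw [hk, hxN]
      have hin : (x (k + 1)).1.2 ∈ G.ends (x n).1.1 := by
        rw [hxk, hv]; exact (x n).2.2
      have h3 := huniq k _ (x n).2.1 hin
      rw [hxk] at h3
      have h4 : (x n).1.1 = (x k).1.1 := h3.resolve_right (Ne.symm he)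
      have h5 := hbad' _ _ h4
      have h6 := hvne k
      rw [hxk, ← h5, hv] at h6
      exact h6 rfl
  have hcov1 : ∀ v, (∃ n, (x n).1.2 = v) → ∀ e ∈ C, v ∈ G.ends e → ∃ n, (x n).1.1 = e := by
    rintro v ⟨n, rfl⟩ e he hv
    obtain ⟨k, hk⟩ : ∃ k, k + 1 = n + N := ⟨n + N - 1, by omega⟩
    have hxk : x (k + 1) = x n := by rw [hk, hxN]
    rw [← hxk] at hv
    rcases huniq k e he hv with h | h
    · exact ⟨k, h.symm⟩
    · exact ⟨k + 1, h.symm⟩
  have hcov2 : ∀ v ∈ G.vts C, ∃ n, (x n).1.2 = v := by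
    intro v hv
    have hr := hC.2.2 p ⟨e0, he0, hpe0⟩ v hv
    clear hv
    induction hr with
    | refl => exact ⟨0, rfl⟩
    | tail _ hstep ih =>
      obtain ⟨e, he, hee⟩ := hstep
      obtain ⟨n, hn⟩ := hcov1 _ ih e he (by rw [hee]; exact Sym2.mem_mk_left _ _)
      have h1 := hends n
      rw [hn, hee] at h1
      rcases Sym2.eq_iff.1 h1 with ⟨h2, h3⟩ | ⟨h2, h3⟩
      · exact ⟨n + 1, h3.symm⟩
      · exact ⟨n, h3.symm⟩
  have hN2 : 2 ≤ N := by
    by_contra hlt
    have h1 : N = 1 := by omega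
    have h2 := hxN 0
    rw [h1] at h2
    exact hne_edge 0 (by rw [h2])
  haveI : NeZero N := ⟨by omega⟩
  have hval : ∀ i : ZMod N, x ((i + 1).val) = x (i.val + 1) := by
    intro i
    haveI : Fact (1 < N) := ⟨by omega⟩
    rw [ZMod.val_add, ZMod.val_one, hxmod]
  refine ⟨N, hN2, fun i => (x i.val).1.2, fun i => (x i.val).1.1, ?_, ?_, ?_, ?_, ?_⟩
  · intro i j hij
    exact ZMod.val_injective N (hvinj _ _ (ZMod.val_lt i) (ZMod.val_lt j) hij)
  · intro i j hij
    exact ZMod.val_injective N (hxinj _ _ (ZMod.val_lt i) (ZMod.val_lt j) (hbad' _ _ hij))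
  · intro i
    simp only
    rw [hval, hends]
  · intro e
    constructor
    · intro he
      obtain ⟨v, hv⟩ : ∃ v, v ∈ G.ends e := by
        induction h : G.ends e with
        | _ a b => exact ⟨a, Sym2.mem_mk_left _ _⟩
      obtain ⟨n, hn⟩ := hcov1 v (hcov2 v ⟨e, he, hv⟩) e he hv
      refine ⟨(n : ZMod N), ?_⟩
      simp only
      rw [ZMod.val_natCast, hxmod]
      exact hn
    · rintro ⟨i, rfl⟩
      exact (x i.val).2.1
  · simp only [ZMod.val_zero]
    rfl

end MGraph

end Pool.Agent.H41.Semi
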