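import Pool.Agent.H41.Semi.Main

/-! The main theorem. -/

namespace Pool.Agent.H41.Semi

open Finset

set_option linter.unusedSectionVars false

namespace MGraph

variable {V E : Type} [Fintype V] [DecidableEq V] [Fintype E] [DecidableEq E] {G : MGraph V E}

variable {C : Finset E}

lemma cpath_of_pth {a b : V} {F : Finset E} {U : Finset V} (hp : G.Pth a b F U) (hab : a ≠ b)
    (ha : a ∈ G.vts C) (hb : b ∈ G.vts C) (hU : ∀ v ∈ U, v = a ∨ v = b ∨ v ∉ G.vts C)
    (hdisj : Disjoint C F) : Disjoint C F ∧ G.Conn F ∧ G.dg F a = 1 ∧ G.dg F b = 1 ∧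
      (∀ v ∈ G.vts F, v ≠ a → v ≠ b → G.dg F v = 2 ∧ v ∉ G.vts C) := by
  have hvts := hp.vts_eq hab
  obtain ⟨d1, d2, d3⟩ := hp.dg_ends hab
  refine ⟨hdisj, ?_, d1, d2, ?_⟩
  · intro u hu v hv
    exact (rtg_adj_symm (hp.conn u ((hvts u).1 hu))).trans (hp.conn v ((hvts v).1 hv))
  · intro v hv hva hvb
    have hvU := (hvts v).1 hv
    refine ⟨d3 v hvU hva hvb, ?_⟩
    rcases hU v hvU with h | h | h
    · exact absurd h hva
    · exact absurd h hvb
    · exact h

lemma reach_of_avoid {X X' : Set V} {a b : V} (h : G.Reach X a b)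
    (hav : ∀ v, G.Reach X a v → v ∉ X') : G.Reach X' a b := by
  unfold Reach at h
  induction h with
  | refl => exact Relation.ReflTransGen.refl
  | @tail u v hu hst ih =>
    exact ih.tail ⟨hav _ hu, hav _ (Relation.ReflTransGen.tail hu hst), hst.2.2⟩

lemma reach_mem_iff {X : Set V} {a b : V} (h : G.Reach X a b) (v : V) :
    G.Reach X a v ↔ G.Reach X b v :=
  ⟨fun hv => Reach.trans h.symm hv, fun hv => Reach.trans h hv⟩

theorem semi_main (hcub : G.Cubic) (h2 : G.TwoConnected) (hC : G.IsCircuit C) (P : Finset E)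
    (hP : P = ∅ ∨ G.IsCPath C P)
    (hone : ∀ w w', w ∉ G.vts (C ∪ P) → w' ∉ G.vts (C ∪ P) → 3 ≤ (G.nbs C P w).ncard →
      3 ≤ (G.nbs C P w').ncard → G.Reach (G.vts (C ∪ P)) w w') :
    ∃ D, G.IsSemiExtension C D ∧ G.IsCircuit (symmDiff C D) ∧ P ⊆ D := by
  classical
  rcases hP with rfl | hP
  swap
  · exact cpath_semi hcub hC hP hone
  have hred : ∀ D, (G.IsSemiExtension C D ∧ G.IsCircuit (symmDiff C D)) →
      ∃ D, G.IsSemiExtension C D ∧ G.IsCircuit (symmDiff C D) ∧ (∅ : Finset E) ⊆ D :=
    fun D hD => ⟨D, hD.1, hD.2, Finset.empty_subset _⟩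
  have hnbs0 : ∀ w, G.nbs C ∅ w =
      {v | v ∈ G.vts C ∧ ∃ u, G.Reach (G.vts C) w u ∧ G.Adj Finset.univ u v} := by
    intro w; unfold nbs; rw [Finset.union_empty]
  rw [Finset.union_empty] at hone
  by_cases hchord : ∃ x, x ∉ C ∧ ∀ v ∈ G.ends x, v ∈ G.vts C
  · -- a chord
    obtain ⟨x, hx, hxv⟩ := hchord
    obtain ⟨a, b, hab⟩ : ∃ a b, G.ends x = s(a, b) := by
      induction h : G.ends x with
      | _ a b => exact ⟨a, b, rfl⟩
    have ha := hxv a (by rw [hab]; exact Sym2.mem_mk_left _ _)
    have hb := hxv b (by rw [hab]; exact Sym2.mem_mk_right _ _)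
    have hne := ne_of_ends hab
    have hpth := Pth.cons hab (Pth.nil (G := G) b) (by simpa using hne)
    obtain ⟨p1, p2, p3, p4, p5⟩ := cpath_of_pth hpth hne ha hb (by
      intro v hv
      simp only [Finset.mem_insert, Finset.mem_singleton] at hv
      tauto) (by
      rw [Finset.disjoint_left]
      intro z hz hz'
      simp only [Finset.mem_insert, Finset.notMem_empty, or_false] at hz'
      rw [hz'] at hz; exact hx hz)
    have hcp : G.IsCPath C (insert x ∅) := ⟨p1, p2, a, b, hne, ha, hb, p3, p4, p5⟩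
    have hv : G.vts (C ∪ insert x ∅) = G.vts C := by
      ext v
      constructor
      · rintro ⟨z, hz, hv⟩
        rw [Finset.mem_union] at hz
        rcases hz with hz | hz
        · exact ⟨z, hz, hv⟩
        · simp only [Finset.mem_insert, Finset.notMem_empty, or_false] at hz
          rw [hz] at hv; exact hxv v hv
      · exact fun hv => vts_mono Finset.subset_union_left hv
    have hn : ∀ w, G.nbs C (insert x ∅) w = G.nbs C ∅ w := by
      intro w; rw [hnbs0]; unfold nbs; rw [hv]
    obtain ⟨D, d1, d2, -⟩ := cpath_semi hcub hC hcp (by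
      intro w w' hw hw' k1 k2
      rw [hv] at hw hw' ⊢
      rw [hn] at k1 k2
      exact hone w w' hw hw' k1 k2)
    exact hred D ⟨d1, d2⟩
  by_cases htwo : ∃ w, w ∉ G.vts C ∧ (G.nbs C ∅ w).ncard = 2
  · -- a component with exactly two neighbours
    obtain ⟨w, hw, hcard⟩ := htwo
    rw [Set.ncard_eq_two] at hcard
    obtain ⟨a, b, hne, hset⟩ := hcard
    have ha : a ∈ G.nbs C ∅ w := by rw [hset]; simp
    have hb : b ∈ G.nbs C ∅ w := by rw [hset]; simp
    rw [hnbs0] at ha hb
    obtain ⟨haC, ua, hua, ea, -, hea⟩ := ha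
    obtain ⟨hbC, ub, hub, eb, -, heb⟩ := hb
    have hua' := Reach.not_mem hua hw
    obtain ⟨F, U, hp, hU, hF⟩ := exists_pth_through haC hbC hne
      (show G.ends ea = s(a, ua) by rw [hea, Sym2.eq_swap])
      (show G.ends eb = s(b, ub) by rw [heb, Sym2.eq_swap]) hua' (hua.symm.trans hub)
    obtain ⟨p1, p2, p3, p4, p5⟩ := cpath_of_pth hp hne haC hbC (by
      intro v hv
      rcases hU v hv with h | h | h
      · exact Or.inl h
      · exact Or.inr (Or.inl h)
      · exact Or.inr (Or.inr h.2)) (by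
      rw [Finset.disjoint_left]
      intro z hz hz'
      obtain ⟨v, hv, hvX⟩ := hF z hz'
      exact hvX ⟨z, hz, hv⟩)
    have hcp : G.IsCPath C F := ⟨p1, p2, a, b, hne, haC, hbC, p3, p4, p5⟩
    have hX : G.vts C ⊆ G.vts (C ∪ F) := vts_mono Finset.subset_union_left
    have hsub : ∀ w', G.nbs C F w' ⊆ G.nbs C ∅ w' := by
      intro w' v hv
      rw [hnbs0]
      exact ⟨hv.1, hv.2.imp fun u hu => ⟨Reach.mono hX hu.1, hu.2⟩⟩
    have hcard' : ∀ w', (G.nbs C F w').ncard ≤ (G.nbs C ∅ w').ncard := fun w' =>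
      Set.ncard_le_ncard (hsub w') (Set.toFinite _)
    -- components with three neighbours avoid the path
    have havoid : ∀ w', w' ∉ G.vts C → 3 ≤ (G.nbs C ∅ w').ncard →
        ∀ v, G.Reach (G.vts C) w' v → v ∉ G.vts (C ∪ F) := by
      intro w' hw' h3 v hv hvF
      have hvC := Reach.not_mem hv hw'
      obtain ⟨z, hz, hvz⟩ := hvF
      rw [Finset.mem_union] at hz
      rcases hz with hz | hz
      · exact hvC ⟨z, hz, hvz⟩
      · have hvU := hp.edge_sub z hz v hvz
        rcases hU v hvU with h | h | h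
        · exact hvC (by rw [h]; exact haC)
        · exact hvC (by rw [h]; exact hbC)
        · have hww : G.Reach (G.vts C) w w' := (hua.trans h.1).trans hv.symm
          have hnn : G.nbs C ∅ w' = G.nbs C ∅ w := by
            rw [hnbs0, hnbs0]
            ext u
            simp only [Set.mem_setOf_eq]
            refine and_congr_right (fun _ => ?_)
            exact exists_congr fun u' => and_congr_left (fun _ => (reach_mem_iff hww u').symm)
          rw [hnn, hset, Set.ncard_pair hne] at h3
          omega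
    obtain ⟨D, d1, d2, -⟩ := cpath_semi hcub hC hcp (by
      intro w1 w2 hw1 hw2 k1 k2
      have e1 : w1 ∉ G.vts C := fun hc => hw1 (hX hc)
      have e2 : w2 ∉ G.vts C := fun hc => hw2 (hX hc)
      have k1' := k1.trans (hcard' w1)
      have k2' := k2.trans (hcard' w2)
      exact reach_of_avoid (hone w1 w2 e1 e2 k1' k2') (havoid w1 e1 k1'))
    exact hred D ⟨d1, d2⟩
  · -- all components have at least three neighbours
    obtain ⟨x0, hx0⟩ := hC.1
    obtain ⟨p, hp⟩ : ∃ v, v ∈ G.ends x0 := by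
      induction h : G.ends x0 with
      | _ a b => exact ⟨a, Sym2.mem_mk_left _ _⟩
    obtain ⟨N, hN, c, e, hcinj, heinj, hends, hmem, hc0⟩ := G.exists_enum hC ⟨x0, hx0, hp⟩
    have : NeZero N := ⟨by omega⟩
    have hN1 : Fact (1 < N) := ⟨hN⟩
    have h : Enum G C N c e := ⟨hN, hcinj, heinj, hends, hmem⟩
    have hcC : ∀ i, c i ∈ G.vts C := fun i => (h.vtsC _).2 ⟨i, rfl⟩
    choose τ hτ1 hτ2 hτ3 using fun i => third hcub (hC.2.1 _ (hcC i))
    choose w hw using fun i => other_end (hτ2 i)
    have hwC : ∀ i, w i ∉ G.vts C := by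
      intro i hi
      apply hchord
      refine ⟨τ i, hτ1 i, ?_⟩
      intro v hv
      rw [hw i, Sym2.mem_iff] at hv
      rcases hv with rfl | rfl
      · exact hcC i
      · exact hi
    have hadj : ∀ i, G.Adj Finset.univ (w i) (c i) := fun i =>
      ⟨τ i, Finset.mem_univ _, by rw [hw, Sym2.eq_swap]⟩
    have hin : ∀ i, c i ∈ G.nbs C ∅ (w i) := by
      intro i
      rw [hnbs0]
      exact ⟨hcC i, w i, Relation.ReflTransGen.refl, hadj i⟩
    have hthree : ∀ i, 3 ≤ (G.nbs C ∅ (w i)).ncard := by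
      intro i
      have hfin : (G.nbs C ∅ (w i)).Finite := Set.toFinite _
      have k0 : (G.nbs C ∅ (w i)).ncard ≠ 0 := by
        rw [Ne, Set.ncard_eq_zero hfin]
        exact Set.nonempty_iff_ne_empty.1 ⟨c i, hin i⟩
      have k2 : (G.nbs C ∅ (w i)).ncard ≠ 2 := fun hc => htwo ⟨w i, hwC i, hc⟩
      have k1 : (G.nbs C ∅ (w i)).ncard ≠ 1 := by
        intro hc
        rw [Set.ncard_eq_one] at hc
        obtain ⟨a, ha⟩ := hc
        have hai : c i = a := by
          have := hin i
          rw [ha] at this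
          exact this
        have hne1 : w i ≠ c i := fun he => hwC i (by rw [he]; exact hcC i)
        have hne2 : c (i + 1) ≠ c i := fun he => by
          have := hcinj he
          simp at this
        have hreach := h2.2 (c i) (w i) (c (i + 1)) hne1 hne2
        have key : ∀ v, G.Reach {c i} (w i) v → G.Reach (G.vts C) (w i) v := by
          intro v hv
          unfold Reach at hv
          induction hv with
          | refl => exact Relation.ReflTransGen.refl
          | @tail u v hu hst ih =>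
            have huC : u ∉ G.vts C := Reach.not_mem ih (hwC i)
            by_cases hvC : v ∈ G.vts C
            · exfalso
              have hvn : v ∈ G.nbs C ∅ (w i) := by
                rw [hnbs0]; exact ⟨hvC, u, ih, hst.2.2⟩
              rw [ha, Set.mem_singleton_iff] at hvn
              apply hst.2.1
              rw [Set.mem_singleton_iff, hvn, hai]
            · exact Relation.ReflTransGen.tail ih ⟨huC, hvC, hst.2.2⟩
        exact Reach.not_mem (key _ hreach) (hwC i) (hcC (i + 1))
      omega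
    have hr01 := hone (w 0) (w 1) (hwC 0) (hwC 1) (hthree 0) (hthree 1)
    have hne : c 0 ≠ c 1 := fun he => by
      have := hcinj he
      exact zero_ne_one this
    obtain ⟨F, U, hp, hU, hF⟩ := exists_pth_through (hcC 0) (hcC 1) hne (hw 0) (hw 1) (hwC 0) hr01
    obtain ⟨p1, p2, p3, p4, p5⟩ := cpath_of_pth hp hne (hcC 0) (hcC 1) (by
      intro v hv
      rcases hU v hv with h | h | h
      · exact Or.inl h
      · exact Or.inr (Or.inl h)
      · exact Or.inr (Or.inr h.2)) (by
      rw [Finset.disjoint_left]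
      intro z hz hz'
      obtain ⟨v, hv, hvX⟩ := hF z hz'
      exact hvX ⟨z, hz, hv⟩)
    obtain ⟨D, d1, d2, -⟩ := adjacent_semi h p1 p2 p3 p4 p5
    exact hred D ⟨d1, d2⟩

end MGraph

end Pool.Agent.H41.Semi
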