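import Pool.Agent.H41.Semi.Assemble

/-! Semi-extensions: one component with at least three neighbours. -/

namespace Pool.Agent.H41.Semi

open Finset

set_option linter.unusedSectionVars false

namespace MGraph

variable {V E : Type} [Fintype V] [DecidableEq V] [Fintype E] [DecidableEq E] {G : MGraph V E}

lemma third (hcub : G.Cubic) {C : Finset E} {v : V} (h : G.dg C v = 2) :
    ∃ x, x ∉ C ∧ v ∈ G.ends x ∧ ∀ y, y ∉ C → v ∈ G.ends y → y = x := by
  have h1 : G.dg (C ∪ Cᶜ) v = G.dg C v + G.dg Cᶜ v := dg_union disjoint_compl_right v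
  rw [Finset.union_compl, hcub v, h] at h1
  have h2 : G.dg Cᶜ v = 1 := by omega
  unfold dg at h2
  rw [Finset.card_eq_one] at h2
  obtain ⟨x, hx⟩ := h2
  have hmem : ∀ y, (y ∉ C ∧ v ∈ G.ends y) ↔ y = x := by
    intro y
    have := congrArg (fun s => y ∈ s) hx
    simpa [Finset.mem_filter] using this
  have h3 := (hmem x).2 rfl
  exact ⟨x, h3.1, h3.2, fun y hy hv => (hmem y).1 ⟨hy, hv⟩⟩

lemma other_end {x : E} {v : V} (h : v ∈ G.ends x) : ∃ w, G.ends x = s(v, w) :=
  ⟨Sym2.Mem.other h, (Sym2.other_spec h).symm⟩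

lemma dg_eq_of {F S : Finset E} {v : V} (hF : F ⊆ S) (h : ∀ x ∈ S, v ∈ G.ends x → x ∈ F) :
    G.dg S v = G.dg F v := by
  unfold dg
  congr 1
  ext x
  simp only [Finset.mem_filter]
  constructor
  · rintro ⟨h1, h2⟩; exact ⟨h x h1 h2, h2⟩
  · rintro ⟨h1, h2⟩; exact ⟨hF h1, h2⟩

lemma mem_vts_of_dg {F : Finset E} {v : V} (h : G.dg F v ≠ 0) : v ∈ G.vts F := by
  by_contra hc
  exact h (dg_eq_zero.2 hc)

variable {C : Finset E}

theorem cpath_semi (hcub : G.Cubic) (hC : G.IsCircuit C) {P : Finset E} (hP : G.IsCPath C P)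
    (hone : ∀ w w', w ∉ G.vts (C ∪ P) → w' ∉ G.vts (C ∪ P) → 3 ≤ (G.nbs C P w).ncard →
      3 ≤ (G.nbs C P w').ncard → G.Reach (G.vts (C ∪ P)) w w') :
    ∃ D, G.IsSemiExtension C D ∧ G.IsCircuit (symmDiff C D) ∧ P ⊆ D := by
  classical
  obtain ⟨hdisj, hconn, x0, y0, hxy0, hx0, hy0, hdx, hdy, hint⟩ := hP
  obtain ⟨N, hN, c, e, hcinj, heinj, hends, hmem, hc0⟩ := G.exists_enum hC hx0
  haveI : NeZero N := ⟨by omega⟩
  have h : Enum G C N c e := ⟨hN, hcinj, heinj, hends, hmem⟩
  obtain ⟨q, hcq⟩ := (h.vtsC y0).1 hy0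
  have hq : q ≠ 0 := by
    rintro rfl
    exact hxy0 (hc0.symm.trans hcq)
  subst hc0 hcq
  set X := G.vts (C ∪ P) with hX
  have hCX : ∀ i, c i ∈ X := fun i =>
    vts_mono Finset.subset_union_left ((h.vtsC _).2 ⟨i, rfl⟩)
  have hdC : ∀ i, G.dg C (c i) = 2 := fun i => hC.2.1 _ ((h.vtsC _).2 ⟨i, rfl⟩)
  choose τ hτ1 hτ2 hτ3 using fun i => third hcub (hdC i)
  choose w hw using fun i => other_end (hτ2 i)
  have hadjw : ∀ i, G.Adj Finset.univ (w i) (c i) := fun i =>
    ⟨τ i, Finset.mem_univ _, by rw [hw, Sym2.eq_swap]⟩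
  have hPi : ∀ i, c i ∈ G.vts P → i = 0 ∨ i = q := by
    intro i hi
    by_contra hc
    rw [not_or] at hc
    have := (hint _ hi (fun he => hc.1 (hcinj he)) (fun he => hc.2 (hcinj he))).2
    exact this ((h.vtsC _).2 ⟨i, rfl⟩)
  have hPX : G.vts P ⊆ X := vts_mono Finset.subset_union_right
  have hP0 : c 0 ∈ G.vts P := mem_vts_of_dg (by rw [hdx]; exact one_ne_zero)
  have hPq : c q ∈ G.vts P := mem_vts_of_dg (by rw [hdy]; exact one_ne_zero)
  -- the classes
  set r : ZMod N → E ⊕ (Set V ⊕ ZMod N) := fun i =>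
    if i = 0 ∨ i = q then Sum.inr (Sum.inr i)
    else if w i ∈ X then Sum.inl (τ i) else Sum.inr (Sum.inl {u | G.Reach X (w i) u}) with hr
  have r1 : ∀ i, (i = 0 ∨ i = q) → r i = Sum.inr (Sum.inr i) := fun i hi => by
    simp only [hr]; rw [if_pos hi]
  have r2 : ∀ i, ¬ (i = 0 ∨ i = q) → w i ∈ X → r i = Sum.inl (τ i) := fun i hi hi' => by
    simp only [hr]; rw [if_neg hi, if_pos hi']
  have r3 : ∀ i, ¬ (i = 0 ∨ i = q) → w i ∉ X → r i = Sum.inr (Sum.inl {u | G.Reach X (w i) u}) :=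
    fun i hi hi' => by simp only [hr]; rw [if_neg hi, if_neg hi']
  have rcases3 : ∀ i, (i = 0 ∨ i = q) ∧ r i = Sum.inr (Sum.inr i) ∨
      (¬ (i = 0 ∨ i = q)) ∧ w i ∈ X ∧ r i = Sum.inl (τ i) ∨
      (¬ (i = 0 ∨ i = q)) ∧ w i ∉ X ∧ r i = Sum.inr (Sum.inl {u | G.Reach X (w i) u}) := by
    intro i
    by_cases hi : i = 0 ∨ i = q
    · exact Or.inl ⟨hi, r1 i hi⟩
    · by_cases hi' : w i ∈ X
      · exact Or.inr (Or.inl ⟨hi, hi', r2 i hi hi'⟩)
      · exact Or.inr (Or.inr ⟨hi, hi', r3 i hi hi'⟩)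
  have hrs : ∀ u, (u = 0 ∨ u = q) → ∀ v, r v = r u → v = u := by
    intro u hu v hv
    rw [r1 u hu] at hv
    rcases rcases3 v with ⟨-, h2⟩ | ⟨-, -, h2⟩ | ⟨-, -, h2⟩
    · rw [h2] at hv
      simpa using hv
    · rw [h2] at hv; cases hv
    · rw [h2] at hv
      simp at hv
  -- the large class
  obtain ⟨B, hB⟩ : ∃ B : Set V, ∀ w, w ∉ X → 3 ≤ (G.nbs C P w).ncard →
      {u | G.Reach X w u} = B := by
    by_cases hex : ∃ w0, w0 ∉ X ∧ 3 ≤ (G.nbs C P w0).ncard
    · obtain ⟨w0, h1, h2⟩ := hex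
      refine ⟨{u | G.Reach X w0 u}, ?_⟩
      intro w' h3 h4
      have h5 := hone w0 w' h1 h3 h2 h4
      ext u
      exact ⟨fun hu => Reach.trans h5 hu, fun hu => Reach.trans h5.symm hu⟩
    · refine ⟨∅, ?_⟩
      intro w' h3 h4
      exact absurd ⟨w', h3, h4⟩ hex
  have hbig := circle hN r q hq (fun v hv => hrs 0 (Or.inl rfl) v hv)
    (fun v hv => hrs q (Or.inr rfl) v hv) (Sum.inr (Sum.inl B))
    (by rw [r1 q (Or.inr rfl)]; simp) (by
      intro x y z hxy hyz hxB
      rcases rcases3 x with ⟨hx, h2⟩ | ⟨hx, hx', h2⟩ | ⟨hx, hx', h2⟩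
      · exact Or.inl (hrs x hx y hxy.symm).symm
      · rcases rcases3 y with ⟨hy, k2⟩ | ⟨hy, hy', k2⟩ | ⟨hy, hy', k2⟩
        · exact Or.inl (hrs y hy x hxy)
        · rcases rcases3 z with ⟨hz, l2⟩ | ⟨hz, hz', l2⟩ | ⟨hz, hz', l2⟩
          · exact Or.inr (Or.inl (hrs z hz y hyz))
          · rw [h2, k2] at hxy
            rw [k2, l2] at hyz
            have e1 : τ x = τ y := Sum.inl.inj hxy
            have e2 : τ y = τ z := Sum.inl.inj hyz
            have m1 : c y ∈ G.ends (τ x) := by rw [e1]; exact hτ2 y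
            have m2 : c z ∈ G.ends (τ x) := by rw [e1, e2]; exact hτ2 z
            rw [hw x, Sym2.mem_iff] at m1 m2
            rcases m1 with m1 | m1
            · exact Or.inl (hcinj m1).symm
            · rcases m2 with m2 | m2
              · exact Or.inr (Or.inr (hcinj m2).symm)
              · exact Or.inr (Or.inl (hcinj (m1.trans m2.symm)))
          · rw [k2, l2] at hyz; cases hyz
        · rw [h2, k2] at hxy; cases hxy
      · by_contra hcon
        rw [not_or, not_or] at hcon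
        obtain ⟨n1, n2, n3⟩ := hcon
        have hcomp : ∀ z, z ≠ x → r z = r x → c z ∈ G.nbs C P (w x) := by
          intro z hzx hz
          rcases rcases3 z with ⟨hz', l2⟩ | ⟨hz', hz'', l2⟩ | ⟨hz', hz'', l2⟩
          · exact absurd (hrs z hz' x hz.symm).symm hzx
          · rw [h2, l2] at hz; cases hz
          · rw [h2, l2] at hz
            have hz2 : {u | G.Reach X (w z) u} = {u | G.Reach X (w x) u} := by
              simpa using hz
            refine ⟨(h.vtsC _).2 ⟨z, rfl⟩, w z, ?_, hadjw z⟩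
            have : w z ∈ {u | G.Reach X (w z) u} := Relation.ReflTransGen.refl
            rw [hz2] at this
            exact this
        have hx3 : c x ∈ G.nbs C P (w x) :=
          ⟨(h.vtsC _).2 ⟨x, rfl⟩, w x, Relation.ReflTransGen.refl, hadjw x⟩
        have hy3 := hcomp y (Ne.symm n1) hxy.symm
        have hz3 := hcomp z (Ne.symm n3) (hxy.trans hyz).symm
        have hcard : 3 ≤ (G.nbs C P (w x)).ncard := by
          have hsub : ({c x, c y, c z} : Set V) ⊆ G.nbs C P (w x) := by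
            intro v hv
            rcases hv with rfl | rfl | rfl
            · exact hx3
            · exact hy3
            · exact hz3
          have h4 := Set.ncard_le_ncard hsub (Set.toFinite _)
          have h5 : ({c x, c y, c z} : Set V).ncard = 3 :=
            Set.ncard_eq_three.2 ⟨c x, c y, c z, fun he => n1 (hcinj he),
              fun he => n3 (hcinj he), fun he => n2 (hcinj he), rfl⟩
          omega
        apply hxB
        rw [h2, hB (w x) hx' hcard])
  obtain ⟨T, M, hMsymm, hM1, hM2, hT0, hT1, hTq, hTs, hTu, hL, hL'⟩ := hbig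
  have hMne : ∀ x y, M x y → ¬ (x = 0 ∨ x = q) := by
    intro x y hxy hx
    obtain ⟨h1, h2⟩ := hM1 x y hxy
    exact h1 (hrs x hx y h2.symm).symm
  -- a path for every used class
  have hpiece : ∀ k : E ⊕ (Set V ⊕ ZMod N), ∃ F : Finset E,
      (∀ v ∈ G.vts F, (∃ x y, M x y ∧ r x = k ∧ v = c x) ∨
        (v ∉ X ∧ k = Sum.inr (Sum.inl {u | G.Reach X v u}))) ∧
      (∀ x y, M x y → r x = k → G.dg F (c x) = 1 ∧
        Relation.ReflTransGen (G.Adj F) (c x) (c y)) ∧
      (∀ v ∈ G.vts F, v ∉ G.vts C → G.dg F v = 2) ∧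
      (∀ v ∈ G.vts F, ∃ x y, M x y ∧ r x = k ∧ Relation.ReflTransGen (G.Adj F) (c x) v) ∧
      Disjoint F C := by
    intro k
    by_cases hk : ∃ x y, M x y ∧ r x = k
    · obtain ⟨x, y, hxy, hxk⟩ := hk
      obtain ⟨hne, hrxy⟩ := hM1 x y hxy
      have hcne : c x ≠ c y := fun he => hne (hcinj he)
      have hx0' := hMne x y hxy
      have hy0' := hMne y x (hMsymm x y hxy)
      obtain ⟨F, U, hp, hU, hFC⟩ : ∃ F U, G.Pth (c x) (c y) F U ∧
          (∀ v ∈ U, v = c x ∨ v = c y ∨
            (v ∉ X ∧ k = Sum.inr (Sum.inl {u | G.Reach X v u}))) ∧ Disjoint F C := by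
        rcases rcases3 x with ⟨hx, h2⟩ | ⟨hx, hx', h2⟩ | ⟨hx, hx', h2⟩
        · exact absurd hx hx0'
        · rcases rcases3 y with ⟨hy, k2⟩ | ⟨hy, hy', k2⟩ | ⟨hy, hy', k2⟩
          · exact absurd hy hy0'
          · rw [h2, k2] at hrxy
            have e1 : τ x = τ y := Sum.inl.inj hrxy
            have m1 : c y ∈ G.ends (τ x) := by rw [e1]; exact hτ2 y
            rw [hw x, Sym2.mem_iff] at m1
            have m2 : c y = w x := m1.resolve_left (Ne.symm hcne)
            have hends' : G.ends (τ x) = s(c x, c y) := by rw [hw x, m2]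
            refine ⟨{τ x}, {c x, c y}, ?_, ?_, ?_⟩
            · have := Pth.cons hends' (Pth.nil (G := G) (c y)) (by simpa using hcne)
              simpa using this
            · intro v hv
              rw [Finset.mem_insert, Finset.mem_singleton] at hv
              tauto
            · rw [Finset.disjoint_singleton_left]
              exact hτ1 x
          · rw [h2, k2] at hrxy; cases hrxy
        · rcases rcases3 y with ⟨hy, k2⟩ | ⟨hy, hy', k2⟩ | ⟨hy, hy', k2⟩
          · exact absurd hy hy0'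
          · rw [h2, k2] at hrxy; cases hrxy
          · have hcc : {u | G.Reach X (w x) u} = {u | G.Reach X (w y) u} := by
              rw [h2, k2] at hrxy; simpa using hrxy
            have hreach : G.Reach X (w x) (w y) := by
              have : w y ∈ {u | G.Reach X (w y) u} := Relation.ReflTransGen.refl
              rw [← hcc] at this
              exact this
            obtain ⟨F, U, p1, p2, p3⟩ := exists_pth_through (hCX x) (hCX y) hcne (hw x) (hw y)
              hx' hreach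
            refine ⟨F, U, p1, ?_, ?_⟩
            · intro v hv
              rcases p2 v hv with h3 | h3 | ⟨h3, h4⟩
              · exact Or.inl h3
              · exact Or.inr (Or.inl h3)
              · refine Or.inr (Or.inr ⟨h4, ?_⟩)
                rw [← hxk, h2]
                congr 2
                ext u
                exact ⟨fun hu => Reach.trans h3.symm hu, fun hu => Reach.trans h3 hu⟩
            · rw [Finset.disjoint_left]
              intro z hz hzC
              obtain ⟨v, hv, hvX⟩ := p3 z hz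
              exact hvX (vts_mono Finset.subset_union_left ⟨z, hzC, hv⟩)
      have hvts := hp.vts_eq hcne
      obtain ⟨d1, d2, d3⟩ := hp.dg_ends hcne
      have hcon := hp.conn
      refine ⟨F, ?_, ?_, ?_, ?_, hFC⟩
      · intro v hv
        rcases hU v ((hvts v).1 hv) with h3 | h3 | h3
        · exact Or.inl ⟨x, y, hxy, hxk, h3⟩
        · exact Or.inl ⟨y, x, hMsymm x y hxy, by rw [← hrxy]; exact hxk, h3⟩
        · exact Or.inr h3
      · intro x' y' hxy' hxk'
        rcases hM2 x y x' y' hxy hxy' (hxk'.trans hxk.symm) with ⟨rfl, rfl⟩ | ⟨rfl, rfl⟩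
        · exact ⟨d1, hcon _ hp.mem_right⟩
        · exact ⟨d2, rtg_adj_symm (hcon _ hp.mem_right)⟩
      · intro v hv hvC
        refine d3 v ((hvts v).1 hv) ?_ ?_
        · rintro rfl; exact hvC ((h.vtsC _).2 ⟨x, rfl⟩)
        · rintro rfl; exact hvC ((h.vtsC _).2 ⟨y, rfl⟩)
      · intro v hv
        exact ⟨x, y, hxy, hxk, hcon v ((hvts v).1 hv)⟩
    · refine ⟨∅, ?_, ?_, ?_, ?_, Finset.disjoint_empty_left _⟩
      · rintro v ⟨z, hz, -⟩; simp at hz
      · intro x y hxy hxk; exact absurd ⟨x, y, hxy, hxk⟩ hk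
      · rintro v ⟨z, hz, -⟩; simp at hz
      · rintro v ⟨z, hz, -⟩; simp at hz
  choose F hFA hFB hFC hFD hFE using hpiece
  set I : Finset (E ⊕ (Set V ⊕ ZMod N)) := Finset.univ.image r with hI
  have hrI : ∀ x, r x ∈ I := fun x => Finset.mem_image_of_mem _ (Finset.mem_univ _)
  set S : Finset E := P ∪ I.biUnion F with hS
  have hPS : P ⊆ S := Finset.subset_union_left
  have hFS : ∀ k ∈ I, F k ⊆ S := fun k hk =>
    (Finset.subset_biUnion_of_mem F hk).trans Finset.subset_union_right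
  have hSmem : ∀ z ∈ S, z ∈ P ∨ ∃ k ∈ I, z ∈ F k := by
    intro z hz
    rw [hS, Finset.mem_union, Finset.mem_biUnion] at hz
    exact hz
  -- vertex-disjointness
  have hdPF : ∀ k v, v ∈ G.vts P → v ∉ G.vts (F k) := by
    intro k v hv hvF
    rcases hFA k v hvF with ⟨x, y, h1, h2, rfl⟩ | ⟨h1, h2⟩
    · exact hMne x y h1 (hPi x hv)
    · exact h1 (hPX hv)
  have hdFF : ∀ k k' v, v ∈ G.vts (F k) → v ∈ G.vts (F k') → k = k' := by
    intro k k' v hv hv'
    rcases hFA k v hv with ⟨x, y, h1, h2, h3⟩ | ⟨h1, h2⟩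
    · rcases hFA k' v hv' with ⟨x', y', h1', h2', h3'⟩ | ⟨h1', h2'⟩
      · have : x = x' := hcinj (h3.symm.trans h3')
        rw [← h2, ← h2', this]
      · exact absurd (hCX x) (by rw [← h3]; exact h1')
    · rcases hFA k' v hv' with ⟨x', y', h1', h2', h3'⟩ | ⟨h1', h2'⟩
      · exact absurd (hCX x') (by rw [← h3']; exact h1)
      · rw [h2, h2']
  have hlocP : ∀ v ∈ G.vts P, G.dg S v = G.dg P v := by
    intro v hv
    apply dg_eq_of hPS
    intro z hz hvz
    rcases hSmem z hz with h1 | ⟨k, hk, h1⟩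
    · exact h1
    · exact absurd ⟨z, h1, hvz⟩ (hdPF k v hv)
  have hlocF : ∀ k ∈ I, ∀ v ∈ G.vts (F k), G.dg S v = G.dg (F k) v := by
    intro k hk v hv
    apply dg_eq_of (hFS k hk)
    intro z hz hvz
    rcases hSmem z hz with h1 | ⟨k', hk', h1⟩
    · exact absurd hv (hdPF k v ⟨z, h1, hvz⟩)
    · have := hdFF k k' v hv ⟨z, h1, hvz⟩
      rw [this]; exact h1
  have hvS : ∀ v ∈ G.vts S, v ∈ G.vts P ∨ ∃ k ∈ I, v ∈ G.vts (F k) := by
    rintro v ⟨z, hz, hv⟩
    rcases hSmem z hz with h1 | ⟨k, hk, h1⟩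
    · exact Or.inl ⟨z, h1, hv⟩
    · exact Or.inr ⟨k, hk, z, h1, hv⟩
  have hMvts : ∀ x y, M x y → c x ∈ G.vts (F (r x)) := by
    intro x y hxy
    apply mem_vts_of_dg
    rw [(hFB (r x) x y hxy rfl).1]
    exact one_ne_zero
  have hShared : Shared G C N c S M := by
    refine ⟨?_, ?_, ?_, ?_, ?_⟩
    · rw [Finset.disjoint_left]
      intro z hz
      rcases hSmem z hz with h1 | ⟨k, hk, h1⟩
      · exact fun h2 => (Finset.disjoint_left.1 hdisj h2) h1
      · exact Finset.disjoint_left.1 (hFE k) h1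
    · intro i hi
      rcases hvS _ hi with h1 | ⟨k, hk, h1⟩
      · rw [hlocP _ h1]
        rcases hPi i h1 with rfl | rfl
        · exact hdx
        · exact hdy
      · rw [hlocF k hk _ h1]
        rcases hFA k _ h1 with ⟨x, y, k1, k2, k3⟩ | ⟨k1, k2⟩
        · rw [hcinj k3]
          exact (hFB k x y k1 k2).1
        · exact absurd (hCX i) k1
    · intro v hv hvC
      rcases hvS _ hv with h1 | ⟨k, hk, h1⟩
      · rw [hlocP _ h1]
        refine (hint v h1 ?_ ?_).1
        · rintro rfl; exact hvC hx0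
        · rintro rfl; exact hvC hy0
      · rw [hlocF k hk _ h1]
        exact hFC k v h1 hvC
    · intro v hv
      rcases hvS _ hv with h1 | ⟨k, hk, h1⟩
      · exact ⟨0, vts_mono hPS hP0, rtg_adj_mono hPS (hconn _ hP0 _ h1)⟩
      · obtain ⟨x, y, k1, k2, k3⟩ := hFD k v h1
        refine ⟨x, ?_, rtg_adj_mono (hFS k hk) k3⟩
        have := hMvts x y k1
        rw [k2] at this
        exact vts_mono (hFS k hk) this
    · intro x y hxy
      exact rtg_adj_mono (hFS _ (hrI x)) (hFB (r x) x y hxy rfl).2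
  have hcS : ∀ i, ¬ (i = 0 ∨ i = q) → (c i ∈ G.vts S ↔ ∃ y, M i y) := by
    intro i hi
    constructor
    · intro h1
      rcases hvS _ h1 with h2 | ⟨k, hk, h2⟩
      · exact absurd (hPi i h2) hi
      · rcases hFA k _ h2 with ⟨x, y, k1, k2, k3⟩ | ⟨k1, k2⟩
        · rw [hcinj k3]; exact ⟨y, k1⟩
        · exact absurd (hCX i) k1
    · rintro ⟨y, hy⟩
      exact vts_mono (hFS _ (hrI i)) (hMvts i y hy)
  have hT : ∀ i, c i ∈ G.vts S ↔ ¬ (i - 1 ∈ T ↔ i ∈ T) := by
    intro i
    by_cases hi : i = 0 ∨ i = q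
    · rcases hi with rfl | rfl
      · have h1 : c 0 ∈ G.vts S := vts_mono hPS hP0
        rw [zero_sub]
        tauto
      · have h1 : c i ∈ G.vts S := vts_mono hPS hPq
        tauto
    · rw [hcS i hi, hTs i (fun h => hi (Or.inl h)) (fun h => hi (Or.inr h))]
  have hnotS : ∀ i, c i ∉ G.vts S → ¬ (i = 0 ∨ i = q) ∧ ∀ y, ¬ M i y := by
    intro i hi
    have h1 : ¬ (i = 0 ∨ i = q) := by
      rintro (rfl | rfl)
      · exact hi (vts_mono hPS hP0)
      · exact hi (vts_mono hPS hPq)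
    refine ⟨h1, fun y hy => hi ((hcS i h1).2 ⟨y, hy⟩)⟩
  have hatt := att_of h hPS T (by
    rintro i j hi hj ⟨z, hzC, hz⟩
    obtain ⟨i1, i2⟩ := hnotS i hi
    obtain ⟨j1, j2⟩ := hnotS j hj
    apply hTu i j _ i2 j2
    have e1 : z = τ i := hτ3 i z hzC (by rw [hz]; exact Sym2.mem_mk_left _ _)
    have e2 : z = τ j := hτ3 j z hzC (by rw [hz]; exact Sym2.mem_mk_right _ _)
    have w1 : w i = c j := by
      have := hw i
      rw [← e1, hz] at this
      exact (Sym2.congr_right.1 this).symm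
    have w2 : w j = c i := by
      have := hw j
      rw [← e2, hz, Sym2.eq_swap] at this
      exact (Sym2.congr_right.1 this).symm
    rw [r2 i i1 (by rw [w1]; exact hCX j), r2 j j1 (by rw [w2]; exact hCX i), ← e1, ← e2]) (by
    intro i j u u' hi hj hu hreach hadj hadj'
    obtain ⟨i1, i2⟩ := hnotS i hi
    obtain ⟨j1, j2⟩ := hnotS j hj
    apply hTu i j _ i2 j2
    have hwi : ∀ i u, u ∉ X → G.Adj Finset.univ u (c i) → w i = u := by
      rintro i u hu ⟨z, -, hz⟩
      have hzC : z ∉ C := fun hc =>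
        hu (vts_mono Finset.subset_union_left ⟨z, hc, by rw [hz]; exact Sym2.mem_mk_left _ _⟩)
      have e1 : z = τ i := hτ3 i z hzC (by rw [hz]; exact Sym2.mem_mk_right _ _)
      have := hw i
      rw [← e1, hz, Sym2.eq_swap] at this
      exact (Sym2.congr_right.1 this).symm
    have w1 := hwi i u hu hadj
    have w2 := hwi j u' (hreach.not_mem hu) hadj'
    rw [r3 i i1 (by rw [w1]; exact hu), r3 j j1 (by rw [w2]; exact hreach.not_mem hu), w1, w2]
    congr 2
    ext v
    exact ⟨fun hv => Reach.trans hreach.symm hv, fun hv => Reach.trans hreach hv⟩)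
  obtain ⟨z0, hz0, -⟩ := hP0
  obtain ⟨res1, res2⟩ := semi_of h hShared ⟨z0, hPS hz0⟩ T hT 0 hT0 hL (-1) hT1 hL' hatt
  exact ⟨_, res1, res2, hPS.trans Finset.subset_union_left⟩

/-- a path joining two consecutive vertices of `C` gives an extension -/
theorem adjacent_semi {N : ℕ} [NeZero N] {c : ZMod N → V}
    {e : ZMod N → E} (h : Enum G C N c e) {P : Finset E} (hdisj : Disjoint C P)
    (hconn : G.Conn P) (hdx : G.dg P (c 0) = 1) (hdy : G.dg P (c 1) = 1)
    (hint : ∀ v ∈ G.vts P, v ≠ c 0 → v ≠ c 1 → G.dg P v = 2 ∧ v ∉ G.vts C) :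
    ∃ D, G.IsSemiExtension C D ∧ G.IsCircuit (symmDiff C D) ∧ P ⊆ D := by
  classical
  have hN := h.two
  have hN1 : Fact (1 < N) := ⟨hN⟩
  have hcinj := h.cinj
  obtain ⟨T, M, hMsymm, hM1, hM2, hT0, hT1, hTq, hTs, hTu, hL, hL'⟩ :=
    circle hN (fun i : ZMod N => i) 1 one_ne_zero (fun v hv => hv) (fun v hv => hv) 0
      one_ne_zero (fun x y z h1 _ _ => Or.inl h1)
  have hMf : ∀ x y, ¬ M x y := fun x y hxy => (hM1 x y hxy).1 (hM1 x y hxy).2
  have hP0 : c 0 ∈ G.vts P := mem_vts_of_dg (by rw [hdx]; exact one_ne_zero)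
  have hP1 : c 1 ∈ G.vts P := mem_vts_of_dg (by rw [hdy]; exact one_ne_zero)
  have hPi : ∀ i, c i ∈ G.vts P → i = 0 ∨ i = 1 := by
    intro i hi
    by_contra hc
    rw [not_or] at hc
    have := (hint _ hi (fun he => hc.1 (hcinj he)) (fun he => hc.2 (hcinj he))).2
    exact this ((h.vtsC _).2 ⟨i, rfl⟩)
  have hShared : Shared G C N c P M := by
    refine ⟨hdisj.symm, ?_, ?_, ?_, ?_⟩
    · intro i hi
      rcases hPi i hi with rfl | rfl
      · exact hdx
      · exact hdy
    · intro v hv hvC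
      refine (hint v hv ?_ ?_).1
      · rintro rfl; exact hvC ((h.vtsC _).2 ⟨_, rfl⟩)
      · rintro rfl; exact hvC ((h.vtsC _).2 ⟨_, rfl⟩)
    · intro v hv
      exact ⟨0, hP0, hconn _ hP0 _ hv⟩
    · intro x y hxy
      exact absurd hxy (hMf x y)
  have hT : ∀ i, c i ∈ G.vts P ↔ ¬ (i - 1 ∈ T ↔ i ∈ T) := by
    intro i
    by_cases hi0 : i = 0
    · subst hi0
      rw [zero_sub]; tauto
    · by_cases hi1 : i = 1
      · subst hi1
        tauto
      · have h1 : c i ∉ G.vts P := fun hc => by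
          rcases hPi i hc with h2 | h2
          · exact hi0 h2
          · exact hi1 h2
        have h2 := hTs i hi0 hi1
        have h3 : ¬ ∃ w, M i w := fun ⟨w, hw⟩ => hMf i w hw
        tauto
  -- all arcs but the arc `0` are outside `T`
  have hout : ∀ n : ℕ, 1 ≤ n → n < N → (n : ZMod N) ∉ T := by
    intro n hn
    induction n, hn using Nat.le_induction with
    | base =>
      intro _
      rw [sub_self] at hTq
      simpa using hTq.1 hT0
    | succ n hn ih =>
      intro hlt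
      have h1 := ih (by omega)
      have n0 : ((n + 1 : ℕ) : ZMod N) ≠ 0 := by
        intro h0
        have := congrArg ZMod.val h0
        rw [ZMod.val_natCast_of_lt hlt, ZMod.val_zero] at this
        omega
      have n1 : ((n + 1 : ℕ) : ZMod N) ≠ 1 := by
        intro h0
        have := congrArg ZMod.val h0
        rw [ZMod.val_natCast_of_lt hlt, ZMod.val_one] at this
        omega
      have h2 := hTs _ n0 n1
      have h3 : ¬ ∃ w, M ((n + 1 : ℕ) : ZMod N) w := fun ⟨w, hw⟩ => hMf _ w hw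
      have e1 : ((n + 1 : ℕ) : ZMod N) - 1 = (n : ZMod N) := by push_cast; ring
      rw [e1] at h2
      tauto
  have hout' : ∀ i : ZMod N, i ≠ 0 → i ∉ T := by
    intro i hi
    have h1 := hout i.val (by
      rcases Nat.eq_zero_or_pos i.val with h0 | h0
      · exact absurd ((ZMod.val_eq_zero i).1 h0) hi
      · exact h0) (ZMod.val_lt i)
    simpa using h1
  have hatt : ∀ A, G.IsAttachment (C ∪ P) A → A ⊆ G.vts (P ∪ Tᶜ.image e) ∨
      A ⊆ G.vts (P ∪ Tᶜᶜ.image e) := by
    intro A hA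
    left
    have hall : G.vts (C ∪ P) ⊆ G.vts (P ∪ Tᶜ.image e) := by
      rintro v ⟨z, hz, hv⟩
      rw [Finset.mem_union] at hz
      rcases hz with hz | hz
      · obtain ⟨i, rfl⟩ := (h.vtsC v).1 ⟨z, hz, hv⟩
        by_cases hi : i = 0
        · subst hi
          exact vts_mono Finset.subset_union_left hP0
        · exact ⟨e i, Finset.mem_union_right _ (Finset.mem_image_of_mem _
            (by simpa using hout' i hi)), (h.inc i i).2 (Or.inl rfl)⟩
      · exact vts_mono Finset.subset_union_left ⟨z, hz, hv⟩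
    rcases hA with ⟨x, hx, hxv, rfl⟩ | ⟨w, hw, rfl⟩
    · intro v hv
      exact hall (hxv v hv)
    · intro v hv
      exact hall hv.1
  obtain ⟨z0, hz0, -⟩ := hP0
  obtain ⟨res1, res2⟩ := semi_of h hShared ⟨z0, hz0⟩ Tᶜ (by
    intro i
    rw [hT i, Finset.mem_compl, Finset.mem_compl]; tauto) (-1) (by simpa using hT1) (by
    intro a ha
    exact hL' a (by simpa using ha)) 0 (by simpa using hT0) (by
    intro a ha
    rw [compl_compl]
    exact hL a (by simpa using ha)) hatt
  exact ⟨_, res1, res2, Finset.subset_union_left⟩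

end MGraph

end Pool.Agent.H41.Semi
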