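import Pool.Agent.H41.Semi.Enum

/-! Edge sets of paths. -/

namespace Pool.Agent.H41.Semi

open Finset

set_option linter.unusedSectionVars false

namespace MGraph

variable {V E : Type} [Fintype V] [DecidableEq V] [Fintype E] [DecidableEq E] (G : MGraph V E)

/-- `F` and `U` are the edge set and the vertex set of a path from `x` to `y` -/
inductive Pth : V → V → Finset E → Finset V → Prop
  | nil (x : V) : Pth x x ∅ {x}
  | cons {x w y : V} {e : E} {F : Finset E} {U : Finset V} : G.ends e = s(x, w) →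
      Pth w y F U → x ∉ U → Pth x y (insert e F) (insert x U)

variable {G}

lemma Adj.symm {F : Finset E} {u v : V} (h : G.Adj F u v) : G.Adj F v u := by
  obtain ⟨e, he, h⟩ := h
  exact ⟨e, he, by rw [h, Sym2.eq_swap]⟩

lemma Adj.mono {F F' : Finset E} (hF : F ⊆ F') {u v : V} (h : G.Adj F u v) : G.Adj F' u v := by
  obtain ⟨e, he, h⟩ := h
  exact ⟨e, hF he, h⟩

lemma rtg_mono {α : Type*} {r r' : α → α → Prop} (hr : ∀ a b, r a b → r' a b) {a b : α}
    (h : Relation.ReflTransGen r a b) : Relation.ReflTransGen r' a b := by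
  induction h with
  | refl => exact Relation.ReflTransGen.refl
  | tail _ h ih => exact ih.tail (hr _ _ h)

lemma rtg_symm {α : Type*} {r : α → α → Prop} (hr : ∀ a b, r a b → r b a) {a b : α}
    (h : Relation.ReflTransGen r a b) : Relation.ReflTransGen r b a := by
  induction h with
  | refl => exact Relation.ReflTransGen.refl
  | tail _ h ih => exact (Relation.ReflTransGen.single (hr _ _ h)).trans ih

lemma rtg_adj_symm {F : Finset E} {u v : V} (h : Relation.ReflTransGen (G.Adj F) u v) :
    Relation.ReflTransGen (G.Adj F) v u := rtg_symm (fun _ _ h => Adj.symm h) h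

lemma rtg_adj_mono {F F' : Finset E} (hF : F ⊆ F') {u v : V}
    (h : Relation.ReflTransGen (G.Adj F) u v) : Relation.ReflTransGen (G.Adj F') u v :=
  rtg_mono (fun _ _ h => Adj.mono hF h) h

lemma dg_insert {F : Finset E} {e : E} (he : e ∉ F) (v : V) :
    G.dg (insert e F) v = G.dg F v + if v ∈ G.ends e then 1 else 0 := by
  unfold dg
  rw [Finset.filter_insert]
  split_ifs with h
  · rw [Finset.card_insert_of_notMem (by simp [he])]
  · rfl

lemma dg_eq_zero {F : Finset E} {v : V} : G.dg F v = 0 ↔ v ∉ G.vts F := by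
  unfold dg vts
  rw [Finset.card_eq_zero, Finset.filter_eq_empty_iff]
  simp

lemma Pth.mem_left {x y : V} {F : Finset E} {U : Finset V} (h : G.Pth x y F U) : x ∈ U := by
  cases h <;> simp

lemma Pth.mem_right {x y : V} {F : Finset E} {U : Finset V} (h : G.Pth x y F U) : y ∈ U := by
  induction h with
  | nil => simp
  | cons _ _ _ ih => exact Finset.mem_insert_of_mem ih

lemma Pth.edge_sub {x y : V} {F : Finset E} {U : Finset V} (h : G.Pth x y F U) :
    ∀ e ∈ F, ∀ v ∈ G.ends e, v ∈ U := by
  induction h with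
  | nil => simp
  | cons he hp hx ih =>
    intro e' he' v hv
    rw [Finset.mem_insert] at he'
    rcases he' with rfl | he'
    · rw [he, Sym2.mem_iff] at hv
      rcases hv with rfl | rfl
      · exact Finset.mem_insert_self _ _
      · exact Finset.mem_insert_of_mem hp.mem_left
    · exact Finset.mem_insert_of_mem (ih e' he' v hv)

lemma Pth.empty_of_eq {x : V} {F : Finset E} {U : Finset V} (h : G.Pth x x F U) :
    F = ∅ ∧ U = {x} := by
  cases h with
  | nil => exact ⟨rfl, rfl⟩
  | cons _ hp hx => exact absurd hp.mem_right hx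

lemma Pth.dg_out {x y : V} {F : Finset E} {U : Finset V} (h : G.Pth x y F U) {v : V}
    (hv : v ∉ U) : G.dg F v = 0 := by
  rw [dg_eq_zero]
  rintro ⟨e, he, hve⟩
  exact hv (h.edge_sub e he v hve)

lemma Pth.dg_ends {x y : V} {F : Finset E} {U : Finset V} (h : G.Pth x y F U) (hxy : x ≠ y) :
    G.dg F x = 1 ∧ G.dg F y = 1 ∧ ∀ v ∈ U, v ≠ x → v ≠ y → G.dg F v = 2 := by
  induction h with
  | nil => exact absurd rfl hxy
  | @cons x w y e F U he hp hx ih =>
    have heF : e ∉ F := fun h => hx (hp.edge_sub e h x (by rw [he]; exact Sym2.mem_mk_left _ _))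
    have hxw : x ≠ w := ne_of_ends he
    have key : ∀ v, G.dg (insert e F) v = G.dg F v + if (v = x ∨ v = w) then 1 else 0 := by
      intro v
      rw [dg_insert heF, he]
      simp [Sym2.mem_iff]
    by_cases hwy : w = y
    · subst hwy
      obtain ⟨rfl, rfl⟩ := hp.empty_of_eq
      refine ⟨?_, ?_, ?_⟩
      · rw [key]; simp [dg]
      · rw [key]; simp [dg]
      · intro v hv h1 h2
        simp at hv
        tauto
    · obtain ⟨h1, h2, h3⟩ := ih hwy
      refine ⟨?_, ?_, ?_⟩
      · rw [key, hp.dg_out hx]; simp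
      · rw [key, h2]
        simp [hxy.symm, Ne.symm hwy]
      · intro v hv hvx hvy
        rw [Finset.mem_insert] at hv
        rcases hv with hv | hv
        · exact absurd hv hvx
        · by_cases hvw : v = w
          · rw [key, hvw, h1]; simp
          · rw [key, h3 v hv hvw hvy]; simp [hvx, hvw]

lemma Pth.conn {x y : V} {F : Finset E} {U : Finset V} (h : G.Pth x y F U) :
    ∀ v ∈ U, Relation.ReflTransGen (G.Adj F) x v := by
  induction h with
  | nil => intro v hv; rw [Finset.mem_singleton] at hv; rw [hv]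
  | @cons x w y e F U he hp hx ih =>
    intro v hv
    rw [Finset.mem_insert] at hv
    rcases hv with rfl | hv
    · exact Relation.ReflTransGen.refl
    · refine Relation.ReflTransGen.head ⟨e, Finset.mem_insert_self _ _, he⟩ ?_
      exact rtg_adj_mono (Finset.subset_insert _ _) (ih v hv)

lemma Pth.sub {x y : V} {F : Finset E} {U : Finset V} (h : G.Pth x y F U) :
    ∀ v ∈ U, ∃ F' U', U' ⊆ U ∧ G.Pth v y F' U' := by
  induction h with
  | nil x => intro v hv; rw [Finset.mem_singleton] at hv; subst hv; exact ⟨∅, {v}, subset_rfl, Pth.nil v⟩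
  | @cons x w y e F U he hp hx ih =>
    intro v hv
    rw [Finset.mem_insert] at hv
    rcases hv with rfl | hv
    · exact ⟨_, _, subset_rfl, Pth.cons he hp hx⟩
    · obtain ⟨F', U', h1, h2⟩ := ih v hv
      exact ⟨F', U', h1.trans (Finset.subset_insert _ _), h2⟩

lemma Pth.snoc {x y z : V} {e : E} {F : Finset E} {U : Finset V} (h : G.Pth x y F U)
    (he : G.ends e = s(y, z)) (hz : z ∉ U) : G.Pth x z (insert e F) (insert z U) := by
  induction h with
  | nil x =>
    have hne : x ≠ z := ne_of_ends he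
    have := Pth.cons (x := x) he (Pth.nil z) (by simpa using hne)
    convert this using 1
    ext v; simp; tauto
  | @cons x w y e' F U he' hp hx ih =>
    rw [Finset.mem_insert, not_or] at hz
    have h1 := ih he hz.2
    have h2 := Pth.cons he' h1 (by
      rw [Finset.mem_insert, not_or]; exact ⟨fun h => hz.1 h.symm, hx⟩)
    rw [Finset.insert_comm] at h2
    have h3 : insert x (insert z U) = insert z (insert x U) := Finset.insert_comm _ _ _
    rw [h3] at h2
    exact h2

lemma exists_pth {X : Set V} {a b : V} (h : G.Reach X a b) (ha : a ∉ X) :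
    ∃ F U, G.Pth a b F U ∧ ∀ v ∈ U, G.Reach X a v ∧ v ∉ X := by
  unfold Reach at h
  induction h using Relation.ReflTransGen.head_induction_on with
  | refl =>
    refine ⟨∅, {b}, Pth.nil b, ?_⟩
    intro v hv
    rw [Finset.mem_singleton] at hv
    subst hv
    exact ⟨Relation.ReflTransGen.refl, ha⟩
  | @head a c hac hcb ih =>
    obtain ⟨F, U, hp, hU⟩ := ih hac.2.1
    have hU' : ∀ v ∈ U, G.Reach X a v ∧ v ∉ X := fun v hv =>
      ⟨Relation.ReflTransGen.head hac (hU v hv).1, (hU v hv).2⟩
    by_cases haU : a ∈ U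
    · obtain ⟨F', U', h1, h2⟩ := hp.sub a haU
      exact ⟨F', U', h2, fun v hv => hU' v (h1 hv)⟩
    · obtain ⟨e, -, he⟩ := hac.2.2
      refine ⟨_, _, Pth.cons he hp haU, ?_⟩
      intro v hv
      rw [Finset.mem_insert] at hv
      rcases hv with rfl | hv
      · exact ⟨Relation.ReflTransGen.refl, ha⟩
      · exact hU' v hv

lemma Reach.symm {X : Set V} {a b : V} (h : G.Reach X a b) : G.Reach X b a :=
  rtg_symm (fun _ _ h => ⟨h.2.1, h.1, h.2.2.symm⟩) h

lemma Reach.trans {X : Set V} {a b c : V} (h : G.Reach X a b) (h' : G.Reach X b c) :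
    G.Reach X a c := Relation.ReflTransGen.trans h h'

lemma Reach.mono {X Y : Set V} (hXY : X ⊆ Y) {a b : V} (h : G.Reach Y a b) : G.Reach X a b :=
  rtg_mono (fun _ _ h => ⟨fun hc => h.1 (hXY hc), fun hc => h.2.1 (hXY hc), h.2.2⟩) h

lemma Reach.not_mem {X : Set V} {a b : V} (h : G.Reach X a b) (ha : a ∉ X) : b ∉ X := by
  unfold Reach at h
  induction h with
  | refl => exact ha
  | tail _ h _ => exact h.2.1

/-- a path from `x` to `y` through a component of `G - X` -/
lemma exists_pth_through {X : Set V} {x y a b : V} {ex ey : E} (hx : x ∈ X) (hy : y ∈ X)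
    (hxy : x ≠ y) (hex : G.ends ex = s(x, a)) (hey : G.ends ey = s(y, b)) (ha : a ∉ X)
    (hab : G.Reach X a b) : ∃ F U, G.Pth x y F U ∧ (∀ v ∈ U, v = x ∨ v = y ∨
      (G.Reach X a v ∧ v ∉ X)) ∧ ∀ z ∈ F, ∃ v ∈ G.ends z, v ∉ X := by
  obtain ⟨F, U, hp, hU⟩ := exists_pth hab ha
  have hyU : y ∉ U := fun h => (hU y h).2 hy
  have hxU : x ∉ U := fun h => (hU x h).2 hx
  have h1 := hp.snoc (show G.ends ey = s(b, y) by rw [hey, Sym2.eq_swap]) hyU
  have h2 := Pth.cons hex h1 (by rw [Finset.mem_insert, not_or]; exact ⟨hxy, hxU⟩)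
  refine ⟨_, _, h2, ?_, ?_⟩
  · intro v hv
    rw [Finset.mem_insert, Finset.mem_insert] at hv
    rcases hv with rfl | rfl | hv
    · exact Or.inl rfl
    · exact Or.inr (Or.inl rfl)
    · exact Or.inr (Or.inr (hU v hv))
  · intro z hz
    rw [Finset.mem_insert, Finset.mem_insert] at hz
    rcases hz with rfl | rfl | hz
    · exact ⟨a, by rw [hex]; exact Sym2.mem_mk_right _ _, ha⟩
    · exact ⟨b, by rw [hey]; exact Sym2.mem_mk_right _ _, hab.not_mem ha⟩
    · obtain ⟨v, hv⟩ : ∃ v, v ∈ G.ends z := by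
        induction h : G.ends z with
        | _ a b => exact ⟨a, Sym2.mem_mk_left _ _⟩
      exact ⟨v, hv, (hU v (hp.edge_sub z hz v hv)).2⟩

lemma Pth.vts_eq {x y : V} {F : Finset E} {U : Finset V} (h : G.Pth x y F U) (hxy : x ≠ y) :
    ∀ v, v ∈ G.vts F ↔ v ∈ U := by
  intro v
  constructor
  · rintro ⟨e, he, hv⟩
    exact h.edge_sub e he v hv
  · intro hv
    by_contra hc
    have h0 := dg_eq_zero.2 hc
    obtain ⟨h1, h2, h3⟩ := h.dg_ends hxy
    by_cases hvx : v = x
    · rw [hvx] at h0; omega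
    by_cases hvy : v = y
    · rw [hvy] at h0; omega
    rw [h3 v hv hvx hvy] at h0
    omega

end MGraph

end Pool.Agent.H41.Semi
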